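import Pool.Agent.Lib.MP_4bb67e_lc.Diff

/-!
The LW-constant of the cut cube to first order.
-/

set_option autoImplicit false

namespace Pool.Agent.Lib.MP_4bb67e_lc

open MeasureTheory Set Function

theorem log_approx {v δ : ℝ} (h0 : 0 ≤ v) (h1 : v ≤ δ) (h2 : δ ≤ 1 / 4) :
    |v + Real.log (1 - v)| ≤ 2 * δ ^ 2 := by
  have h := Real.abs_log_sub_add_sum_range_le (x := v) (by rw [abs_of_nonneg h0]; linarith) 1
  simp only [Finset.range_one, Finset.sum_singleton, zero_add, pow_one, CharP.cast_eq_zero,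
    div_one, abs_of_nonneg h0] at h
  refine h.trans ?_
  rw [div_le_iff₀ (by linarith)]
  have a : v ^ (1 + 1) ≤ δ ^ 2 := pow_le_pow_left₀ h0 h1 2
  nlinarith [mul_nonneg (sq_nonneg δ) (by linarith : (0 : ℝ) ≤ 1 / 2 - v)]

theorem ratio_approx {n : ℕ} {v δ : ℝ} {f : Fin n → ℝ} (h0 : 0 ≤ v) (h1 : v ≤ δ)
    (hf0 : ∀ j, 0 ≤ f j) (hf1 : ∀ j, f j ≤ δ) (h2 : δ ≤ 1 / 4) (h3 : 2 * n * δ ≤ 1) (hn : 1 ≤ n) :
    |(1 - v) ^ (n - 1) / ∏ j, (1 - f j) - (1 - (n - 1) * v + ∑ j, f j)| ≤ 8 * n ^ 2 * δ ^ 2 := by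
  have hδ : 0 ≤ δ := h0.trans h1
  have hn' : (1 : ℝ) ≤ n := by exact_mod_cast hn
  set z := (n - 1) * Real.log (1 - v) - ∑ j, Real.log (1 - f j) with hz
  have e : (1 - v) ^ (n - 1) / ∏ j, (1 - f j) = Real.exp z := by
    rw [hz, Real.exp_sub, Real.exp_sum, ← Nat.cast_pred hn, Real.exp_nat_mul,
      Real.exp_log (by linarith)]
    congr 1
    exact Finset.prod_congr rfl fun j _ => (Real.exp_log (by linarith [hf1 j])).symm
  have a1 := abs_le.1 (log_approx h0 h1 h2)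
  have a2 : |∑ j, (f j + Real.log (1 - f j))| ≤ n * (2 * δ ^ 2) := by
    refine (Finset.abs_sum_le_sum_abs _ _).trans ?_
    simpa using Finset.sum_le_card_nsmul Finset.univ _ _
      (fun j _ => log_approx (hf0 j) (hf1 j) h2)
  rw [Finset.sum_add_distrib, abs_le] at a2
  have a3 : 0 ≤ ∑ j, f j := Finset.sum_nonneg fun j _ => hf0 j
  have a4 : ∑ j, f j ≤ n * δ := by
    simpa using Finset.sum_le_card_nsmul Finset.univ _ _ (fun j _ => hf1 j)
  have a5 : |z - (-(n - 1) * v + ∑ j, f j)| ≤ 4 * n * δ ^ 2 := by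
    rw [abs_le, hz]
    constructor <;> nlinarith [sq_nonneg δ]
  have a6 : |z| ≤ 2 * n * δ := by
    have b1 : (n - 1) * v ≤ n * δ := by nlinarith
    have b2 : 0 ≤ (n - 1) * v := by nlinarith
    have b3 : 4 * n * δ ^ 2 ≤ n * δ := by nlinarith [mul_nonneg hδ (by linarith : (0 : ℝ) ≤ n)]
    rw [abs_le] at a5 ⊢
    constructor <;> linarith [a5.1, a5.2]
  have a7 := Real.abs_exp_sub_one_sub_id_le (a6.trans h3)
  have a8 : z ^ 2 ≤ (2 * n * δ) ^ 2 := by
    rw [← sq_abs]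
    exact pow_le_pow_left₀ (abs_nonneg _) a6 2
  have a9 : 4 * n * δ ^ 2 ≤ 4 * n ^ 2 * δ ^ 2 := by
    nlinarith [mul_nonneg (sq_nonneg δ) (by nlinarith : (0 : ℝ) ≤ n ^ 2 - n)]
  rw [e]
  rw [abs_le] at a5 a7 ⊢
  constructor <;> nlinarith [a5.1, a5.2, a7.1, a7.2]

theorem mem_cut {n : ℕ} {w : Fin n → ℝ} (hw : ∀ i, 0 ≤ w i) {β θ : ℝ} {i : Fin n}
    (h : ∑ k, w k - θ * w i ≤ β) {x : Fin n → ℝ} (hx : x ∈ Icc (0 : Fin n → ℝ) 1)
    (hi : x i ≤ 1 - θ) : x ∈ cut w β := by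
  refine ⟨hx, le_trans ?_ h⟩
  rw [← Finset.add_sum_erase _ _ (Finset.mem_univ i), ← Finset.add_sum_erase _ w (Finset.mem_univ i)]
  have : ∑ k ∈ Finset.univ.erase i, w k * x k ≤ ∑ k ∈ Finset.univ.erase i, w k :=
    Finset.sum_le_sum fun k _ => mul_le_of_le_one_right (hw k) (hx.2 k)
  nlinarith [hw i]

theorem LW_cut {n : ℕ} {w : Fin n → ℝ} (hw : ∀ i, 0 ≤ w i) {β δ η : ℝ} {i₀ i₁ : Fin n}
    (hi : i₁ ≠ i₀) (h₀ : ∑ k, w k - δ * w i₀ ≤ β) (h₁ : ∑ k, w k - η * w i₁ ≤ β) (hδ : 0 ≤ δ)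
    (hδη : δ ≤ η) (hη : 2 * η ≤ 1 / (n.factorial : ℝ)) (h2 : δ ≤ 1 / 4) (h3 : 2 * n * δ ≤ 1) :
    0 ≤ LW (WithLp.ofLp ⁻¹' cut w β : Set (E n)) ∧
    |LW (WithLp.ofLp ⁻¹' cut w β : Set (E n)) - (1 - (n - 1) * JR (List.ofFn w) 0 β +
      ∑ j, JR (List.ofFn (update w j 0)) 0 β)| ≤ 8 * n ^ 2 * δ ^ 2 := by
  have hI : ∀ x : Fin n → ℝ, (∀ k, x k ∈ Ioo (0 : ℝ) 1) → x ∈ Icc (0 : Fin n → ℝ) 1 :=
    fun x hx => ⟨fun i => (hx i).1.le, fun i => (hx i).2.le⟩
  have hfin : ∀ j c, volume (prism (cut w β) j c) ≠ ⊤ := fun j c =>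
    ne_top_of_le_ne_top ENNReal.one_ne_top (vol_prism_le _ j c)
  have a1 : ∀ j c, c = 0 ∨ c = 1 → j ≠ i₀ → 1 - δ ≤ (volume (prism (cut w β) j c)).toReal :=
    fun j c hc hj => vol_ge_box (hfin j c) i₀ hδ fun x hx hx' =>
      ⟨hx, mem_cut hw h₀ (update_mem_Icc (hI x hx) j hc) (by rw [update_of_ne hj.symm]; linarith)⟩
  have a2 : ∀ j, 1 - δ ≤ (volume (prism (cut w β) j 0)).toReal := fun j => by
    by_cases hj : j = i₀
    · subst hj
      exact vol_ge_box (hfin j 0) j hδ fun x hx _ =>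
        ⟨hx, mem_cut hw h₀ (update_mem_Icc (hI x hx) j (Or.inl rfl)) (by simp; linarith)⟩
    · exact a1 j 0 (Or.inl rfl) hj
  have a3 : ∀ j c, c = 0 ∨ c = 1 → 1 - η ≤ (volume (prism (cut w β) j c)).toReal := by
    intro j c hc
    by_cases hj : j = i₀
    · subst hj
      exact vol_ge_box (hfin j c) i₁ (hδ.trans hδη) fun x hx hx' =>
        ⟨hx, mem_cut hw h₁ (update_mem_Icc (hI x hx) j hc) (by rw [update_of_ne hi]; linarith)⟩
    · linarith [a1 j c hc hj]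
  have a4 : 1 - δ ≤ (volume (cut w β)).toReal :=
    vol_ge_box (isCompact_cut w β).measure_lt_top.ne i₀ hδ fun x hx hx' =>
      mem_cut hw h₀ (hI x hx) hx'.le
  have a5 : ∀ (w : Fin n → ℝ), 0 ≤ JR (List.ofFn w) 0 β := fun w => by
    rw [← cube_int]
    exact integral_nonneg fun x => T_nonneg _ _
  rw [LW_eq (isCompact_cut w β) (fun x hx => hx.1) (fun j x hx => ⟨update_mem_Icc hx.1 j
    (Or.inl rfl), le_trans (Finset.sum_le_sum fun i _ => mul_le_mul_of_nonneg_left (by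
      by_cases e : i = j
      · subst e; simpa using hx.1.1 i
      · simp [e]) (hw i)) hx.2⟩) (hδ.trans hδη) hη a3]
  refine ⟨by positivity, ?_⟩
  simp only [vol_prism_cut, vol_cut] at a2 a4 ⊢
  exact ratio_approx (a5 _) (by linarith) (fun j => a5 _) (fun j => by linarith [a2 j]) h2 h3
    (Fin.pos i₀)

theorem Alt_congr {M : Type} [AddCommMonoid M] [Preorder M] [CanonicallyOrderedAdd M]
    [AddRightMono M] : ∀ (a : List M) (g g' : M → ℤ), (∀ s ≤ a.sum, g s = g' s) →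
      Alt a g = Alt a g'
  | [], _, _, h => h 0 (by simp)
  | x :: a, g, g', h => by
    simp only [Alt]
    rw [Alt_congr a g g' (fun s hs => h s (hs.trans (by simp))),
      Alt_congr a (fun s => g (s + x)) (fun s => g' (s + x)) (fun s hs => h _ (by
        rw [List.sum_cons, add_comm x]; exact add_le_add_left hs x))]

theorem Alt_zero {M : Type} [AddMonoid M] : ∀ (a : List M), Alt a (fun _ => 0) = 0
  | [] => rfl
  | _ :: a => by simp [Alt, Alt_zero a]

theorem Alt_map {M N : Type} [AddMonoid M] [AddMonoid N] (φ : M →+ N) :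
    ∀ (a : List M) (g : N → ℤ), Alt (a.map φ) g = Alt a (fun s => g (φ s))
  | [], g => by simp [Alt]
  | x :: a, g => by simp [Alt, Alt_map φ a]

theorem Alt_huge {x t : ℕ} {a : List ℕ} (h : a.sum < x + t) :
    Alt (x :: a) (fun s => if s = x + t then 1 else 0) = Alt a (fun s => if s = t then 1 else 0) := by
  rw [Alt, Alt_congr a (fun s => if s = x + t then 1 else 0) (fun _ => 0)
    (fun s hs => if_neg (by omega)), Alt_zero, sub_zero]
  congr 1
  funext s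
  simp [add_comm x]

theorem Φ_first {w : List ℕ} {t : ℕ} (hw : ∀ x ∈ w, 0 < x ∧ w.length ∣ x) (ht : w.length ∣ t)
    (h2 : 2 ≤ w.length) :
    Φ w.length t (fun β => 1 - (w.length - 1) *
      JR (List.ofFn fun j : Fin w.length => (w.getD j 0 : ℝ)) 0 β +
      ∑ j, JR (List.ofFn (update (fun j : Fin w.length => (w.getD j 0 : ℝ)) j 0)) 0 β) =
      -((w.length - 1) * ((Alt w (fun s => if s = t then 1 else 0) : ℝ) / w.prod)) := by
  have e1 : (List.ofFn fun j : Fin w.length => (w.getD j 0 : ℝ)) =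
      w.map (fun x : ℕ => (x : ℝ)) := List.ext_getElem (by simp) (fun i h1 h2 => by simp)
  have e2 : ∀ (j : Fin w.length) β,
      JR (List.ofFn (update (fun j : Fin w.length => (w.getD j 0 : ℝ)) j 0)) 0 β =
        JR ((w.eraseIdx j).map (fun x : ℕ => (x : ℝ))) 0 β := by
    intro j β
    rw [← List.eraseIdx_map, ← JR_set _ _ (by simp)]
    congr 1
    refine List.ext_getElem (by simp) (fun i h1 h2 => ?_)
    have hi : i < w.length := by simpa using h1
    by_cases e : i = j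
    · subst e; simp
    · simp [List.getElem_set_ne (Ne.symm e), update_of_ne (show (⟨i, hi⟩ : Fin w.length) ≠ j from
        fun h => e (congrArg Fin.val h))]
  have a1 := Φ_JR ht w 0 0 hw (dvd_zero _) (by omega) (by omega)
  have a2 : ∀ j : Fin w.length,
      Φ w.length t (fun β => JR ((w.eraseIdx j).map (fun x : ℕ => (x : ℝ))) 0 β) = 0 := by
    intro j
    have hl := List.length_eraseIdx_of_lt j.2
    have := Φ_JR ht (w.eraseIdx j) 0 0 (fun x hx => hw x (List.mem_of_mem_eraseIdx hx))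
      (dvd_zero _) (by omega) (by omega)
    rw [if_neg (by omega)] at this
    simpa using this
  simp only [zero_add, if_true, Nat.cast_zero, sub_zero] at a1
  simp only [e1, e2]
  rw [← a1, ← add_zero (-_), ← Finset.sum_eq_zero (fun j (_ : j ∈ Finset.univ) => a2 j)]
  simp only [Φ, DD, mul_add, mul_sub, Finset.sum_add_distrib, Finset.sum_sub_distrib,
    Finset.mul_sum, sub_mul, one_mul, mul_one]
  rw [Finset.sum_comm, Finset.sum_comm (s := Finset.range _) (t := Finset.univ)]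
  simp only [mul_left_comm (w.length : ℝ)]
  ring

end Pool.Agent.Lib.MP_4bb67e_lc
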