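import Pool.Agent.Lib.MP_4bb67e_lc.Frame

/-!
Volumes of the unit cube cut by a half-space.
-/

set_option autoImplicit false

namespace Pool.Agent.Lib.MP_4bb67e_lc

open MeasureTheory Set Function

/-- Truncated powers. -/
noncomputable def T (r : ℕ) (s : ℝ) : ℝ := if 0 < s then s ^ r / r.factorial else 0

theorem T_nonneg (r : ℕ) (s : ℝ) : 0 ≤ T r s := by
  unfold T
  split_ifs <;> positivity

theorem T_mono (r : ℕ) : Monotone (T r) := by
  intro s t h
  by_cases hs : 0 < s
  · simp only [T, if_pos hs, if_pos (hs.trans_le h)]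
    gcongr
  · rw [T, if_neg hs]; exact T_nonneg r t

theorem T_int0 (r : ℕ) (y : ℝ) : ∫ s in (0 : ℝ)..y, T r s = T (r + 1) y := by
  by_cases hy : 0 < y
  · rw [intervalIntegral.integral_of_le hy.le, setIntegral_congr_fun measurableSet_Ioc
      (f := T r) (g := fun s => s ^ r / (r.factorial : ℝ)) (fun s hs => if_pos hs.1),
      ← intervalIntegral.integral_of_le hy.le, intervalIntegral.integral_div, integral_pow,
      T, if_pos hy, Nat.factorial_succ]
    push_cast
    field_simp
    simp
  · rw [intervalIntegral.integral_symm, intervalIntegral.integral_of_le (not_lt.1 hy),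
      setIntegral_congr_fun measurableSet_Ioc (f := T r) (g := fun _ => (0 : ℝ))
        (fun s hs => if_neg (not_lt.2 hs.2)), T, if_neg hy]
    simp

theorem T_int (r : ℕ) {α : ℝ} (hα : α ≠ 0) (c : ℝ) :
    ∫ t in Ioc (0 : ℝ) 1, T r (α * t + c) = (T (r + 1) (α + c) - T (r + 1) c) / α := by
  rw [← intervalIntegral.integral_of_le zero_le_one,
    intervalIntegral.integral_comp_mul_add (fun s => T r s) hα,
    ← intervalIntegral.integral_interval_sub_left (a := 0) (T_mono r).intervalIntegrable
      (T_mono r).intervalIntegrable, T_int0, T_int0]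
  simp [div_eq_inv_mul]

/-- The integral of a truncated power of a linear form over the cube. -/
noncomputable def JR : List ℝ → ℕ → ℝ → ℝ
  | [], r, b => T r (-b)
  | α :: a, r, b => if α = 0 then JR a r b else (JR a (r + 1) (b - α) - JR a (r + 1) b) / α

/-- Lebesgue measure on the unit cube. -/
noncomputable def μc (n : ℕ) : Measure (Fin n → ℝ) :=
  Measure.pi fun _ => volume.restrict (Ioc (0 : ℝ) 1)

instance : IsProbabilityMeasure (volume.restrict (Ioc (0 : ℝ) 1)) := ⟨by simp⟩

instance (n : ℕ) : IsProbabilityMeasure (μc n) := by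
  unfold μc
  infer_instance

theorem μc_eq (n : ℕ) : μc n = volume.restrict (Icc 0 1) := by
  rw [μc, ← Measure.restrict_pi_pi, volume_pi]
  exact Measure.restrict_congr_set Measure.univ_pi_Ioc_ae_eq_Icc

theorem integrable_T {n : ℕ} (w : Fin n → ℝ) (r : ℕ) (b : ℝ) :
    Integrable (fun x : Fin n → ℝ => T r (∑ i, w i * x i - b)) (μc n) := by
  have h1 : Measurable (fun x : Fin n → ℝ => T r (∑ i, w i * x i - b)) :=
    (T_mono r).measurable.comp (by fun_prop)
  refine Integrable.of_bound h1.aestronglyMeasurable (T r (∑ i, |w i| - b)) ?_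
  rw [μc_eq]
  filter_upwards [ae_restrict_mem measurableSet_Icc] with x hx
  rw [Real.norm_of_nonneg (T_nonneg _ _)]
  refine T_mono r (sub_le_sub_right (Finset.sum_le_sum fun i _ => ?_) _)
  have a : 0 ≤ x i := hx.1 i
  have b : x i ≤ 1 := hx.2 i
  nlinarith [le_abs_self (w i), abs_nonneg (w i)]

theorem cube_int : ∀ (n : ℕ) (w : Fin n → ℝ) (r : ℕ) (b : ℝ),
    ∫ x, T r (∑ i, w i * x i - b) ∂(μc n) = JR (List.ofFn w) r b := by
  intro n
  induction n with
  | zero => intro w r b; simp [JR]
  | succ n ih =>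
    intro w r b
    have hp := (measurePreserving_piFinSuccAbove
      (fun _ : Fin (n + 1) => volume.restrict (Ioc (0 : ℝ) 1)) 0).symm
    have hi := (hp.integrable_comp_emb (MeasurableEquiv.measurableEmbedding _)).2
      (integrable_T w r b)
    rw [μc, ← hp.integral_comp']
    refine (integral_prod_symm _ hi).trans ?_
    have e : ∀ (t : ℝ) (x : Fin n → ℝ), ∑ i, w i *
        (MeasurableEquiv.piFinSuccAbove (fun _ : Fin (n + 1) => ℝ) 0).symm (t, x) i - b =
        w 0 * t + (∑ i : Fin n, w i.succ * x i - b) := by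
      intro t x
      simp [Fin.sum_univ_succ, MeasurableEquiv.piFinSuccAbove]
      ring
    simp only [comp, e, List.ofFn_succ, JR]
    split_ifs with h
    · simp only [h, zero_mul, zero_add, integral_const, probReal_univ, one_smul]
      exact ih _ _ _
    · simp only [T_int r h]
      rw [integral_div, ← ih, ← ih, ← integral_sub (integrable_T _ _ _) (integrable_T _ _ _)]
      congr 1
      refine integral_congr_ae (Filter.Eventually.of_forall fun x => ?_)
      simp only
      congr 2
      ring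

/-- The cube cut by a half-space. -/
def cut {n : ℕ} (w : Fin n → ℝ) (β : ℝ) : Set (Fin n → ℝ) :=
  {x | x ∈ Icc (0 : Fin n → ℝ) 1 ∧ ∑ i, w i * x i ≤ β}

theorem isCompact_cut {n : ℕ} (w : Fin n → ℝ) (β : ℝ) : IsCompact (cut w β) :=
  isCompact_Icc.inter_right
    (isClosed_le (f := fun x : Fin n → ℝ => ∑ i, w i * x i) (by fun_prop) continuous_const)

theorem vol_cut {n : ℕ} (w : Fin n → ℝ) (β : ℝ) :
    (volume (cut w β)).toReal = 1 - JR (List.ofFn w) 0 β := by
  have hm : MeasurableSet {x : Fin n → ℝ | β < ∑ i, w i * x i} :=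
    measurableSet_lt measurable_const (by fun_prop)
  have h1 : volume (cut w β) = μc n {x | β < ∑ i, w i * x i}ᶜ := by
    rw [μc_eq, Measure.restrict_apply hm.compl]
    congr 1
    ext x
    simp [cut, and_comm]
  rw [h1, ← cube_int, ← measureReal_def, probReal_compl_eq_one_sub hm,
    ← integral_indicator_one hm]
  congr 2
  funext x
  simp [T, indicator]

theorem sum_update {n : ℕ} (w x : Fin n → ℝ) (j : Fin n) (c : ℝ) :
    ∑ i, w i * update x j c i = ∑ i, update w j 0 i * x i + w j * c := by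
  rw [← Finset.add_sum_erase _ _ (Finset.mem_univ j),
    ← Finset.add_sum_erase _ (fun i => update w j 0 i * x i) (Finset.mem_univ j)]
  simp only [update_self, zero_mul, zero_add]
  rw [add_comm]
  congr 1
  exact Finset.sum_congr rfl fun i hi => by simp [update_of_ne (Finset.ne_of_mem_erase hi)]

theorem update_mem_Icc {n : ℕ} {x : Fin n → ℝ} (hx : x ∈ Icc (0 : Fin n → ℝ) 1) (j : Fin n)
    {c : ℝ} (hc : c = 0 ∨ c = 1) : update x j c ∈ Icc (0 : Fin n → ℝ) 1 := by
  constructor <;> intro i <;> by_cases e : i = j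
  · subst e; rcases hc with rfl | rfl <;> simp
  · simpa [e] using hx.1 i
  · subst e; rcases hc with rfl | rfl <;> simp
  · simpa [e] using hx.2 i

theorem vol_prism_cut {n : ℕ} (w : Fin n → ℝ) (β : ℝ) (j : Fin n) :
    (volume (prism (cut w β) j 0)).toReal = 1 - JR (List.ofFn (update w j 0)) 0 β := by
  rw [← vol_cut]
  congr 1
  refine measure_congr ?_
  have a0 : ∀ᵐ x : Fin n → ℝ, ∀ i, x i ≠ 0 := ae_all_iff.2 fun i => Measure.ae_eval_ne _ i 0
  have a1 : ∀ᵐ x : Fin n → ℝ, ∀ i, x i ≠ 1 := ae_all_iff.2 fun i => Measure.ae_eval_ne _ i 1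
  filter_upwards [a0, a1] with x b0 b1
  refine propext ⟨fun h => ⟨⟨fun i => (h.1 i).1.le, fun i => (h.1 i).2.le⟩, ?_⟩, fun h => ⟨fun i =>
    ⟨lt_of_le_of_ne (h.1.1 i) (b0 i).symm, lt_of_le_of_ne (h.1.2 i) (b1 i)⟩,
      update_mem_Icc h.1 j (Or.inl rfl), ?_⟩⟩
  · simpa [sum_update] using h.2.2
  · simpa [sum_update] using h.2

theorem vol_ge_box {n : ℕ} {S : Set (Fin n → ℝ)} (hS : volume S ≠ ⊤) (i : Fin n) {η : ℝ}
    (h0 : 0 ≤ η) (h : ∀ x : Fin n → ℝ, (∀ k, x k ∈ Ioo (0 : ℝ) 1) → x i < 1 - η → x ∈ S) :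
    1 - η ≤ (volume S).toReal := by
  by_cases h1 : 1 - η < 0
  · exact h1.le.trans ENNReal.toReal_nonneg
  refine le_trans ?_ (ENNReal.toReal_mono hS (measure_mono
    (s := univ.pi fun k => Ioo (0 : ℝ) (update (fun _ => (1 : ℝ)) i (1 - η) k)) fun x hx => ?_))
  · rw [Real.volume_pi_Ioo_toReal (fun k => by
      by_cases e : k = i
      · subst e; simpa using not_lt.1 h1
      · simp [e])]
    simp [Finset.prod_update_of_mem]
  · refine h x (fun k => ⟨(hx k trivial).1, (hx k trivial).2.trans_le ?_⟩) ?_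
    · by_cases e : k = i
      · subst e; simpa using h0
      · simp [e]
    · simpa using (hx i trivial).2

end Pool.Agent.Lib.MP_4bb67e_lc
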