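import Mathlib
import Pool.Prelude.Def_H_3587d628

/-!
The LW-constant of a convex body, the problem LW-Approx for H-presented polytopes, and `#P`.
-/

set_option autoImplicit false

namespace Pool.Agent.Lib.MP_4bb67e_lc

open MeasureTheory

/-- The volume of a subset of a finite-dimensional Euclidean space. -/
noncomputable def euclVol {W : Type} [NormedAddCommGroup W] [InnerProductSpace ℝ W]
    [FiniteDimensional ℝ W] [MeasurableSpace W] [BorelSpace W] (S : Set W) : ℝ :=
  (volume S).toReal

/-- The orthogonal projection of `K` onto the subspace `W`. -/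
def shadow {V : Type} [NormedAddCommGroup V] [InnerProductSpace ℝ V] [FiniteDimensional ℝ V]
    (W : Submodule ℝ V) (K : Set V) : Set W :=
  W.orthogonalProjectionOnto '' K

/-- The volume, in the Euclidean space `W`, of the orthogonal projection of `K` onto `W`. -/
noncomputable def shadowVol {V : Type} [NormedAddCommGroup V] [InnerProductSpace ℝ V]
    [FiniteDimensional ℝ V] [MeasurableSpace V] [BorelSpace V] (W : Submodule ℝ V) (K : Set V) :
    ℝ :=
  euclVol (shadow W K)

/-- The `(n-1)`-dimensional volume of the orthogonal projection of `K` onto the hyperplane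
orthogonal to `u`. -/
noncomputable def projVol {n : ℕ} (K : Set (EuclideanSpace ℝ (Fin n)))
    (u : EuclideanSpace ℝ (Fin n)) : ℝ :=
  shadowVol (ℝ ∙ u)ᗮ K

/-- The LW-constant: the supremum of `vol(K)^(n-1) / ∏ vol(K | u_i^⊥)` over all frames. -/
noncomputable def LW {n : ℕ} (K : Set (EuclideanSpace ℝ (Fin n))) : ℝ :=
  ⨆ F : OrthonormalBasis (Fin n) ℝ (EuclideanSpace ℝ (Fin n)),
    euclVol K ^ (n - 1) / ∏ i, projVol K (F i)

/-- An instance of LW-Approx (H): the dimension `n`, the rows `(a, b)` of the system `A x ≤ b`,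
and the number `p` of binary digits in unary. -/
abbrev Inst : Type := ℕ × List (List ℚ × ℚ) × List Bool

/-- The polyhedron `{x : A x ≤ b}` of an instance. -/
def polytope (I : Inst) : Set (EuclideanSpace ℝ (Fin I.1)) :=
  {x | ∀ r ∈ I.2.1, ∑ j : Fin I.1, (r.1.getD j 0 : ℝ) * x j ≤ (r.2 : ℝ)}

/-- Legal instances: `n ≥ 2`, rows of length `n`, a bounded polyhedron with nonempty interior,
and `p` written as a string of ones. -/
def Valid (I : Inst) : Prop :=
  2 ≤ I.1 ∧ (∀ r ∈ I.2.1, r.1.length = I.1) ∧ Bornology.IsBounded (polytope I) ∧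
    (interior (polytope I)).Nonempty ∧ ∀ b ∈ I.2.2, b = true

/-- Correct answers: rational numbers within `2^(-p)` of the LW-constant. -/
def IsAnswer (I : Inst) (r : ℚ) : Prop :=
  |(r : ℝ) - LW (polytope I)| ≤ 1 / 2 ^ I.2.2.length

/-- The class `#P`: functions counting the witnesses accepted by a polynomial-time predicate. -/
def SharpP : Set (List Bool → ℕ) :=
  {f | ∃ (p : Polynomial ℕ) (R : List Bool × List Bool → Bool), N68a2faeb.IsPolyTime R ∧
    ∀ x, f x = (Finset.univ.filter fun w : Fin (p.eval x.length) → Bool =>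
      R (x, List.ofFn w)).card}

end Pool.Agent.Lib.MP_4bb67e_lc
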