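import Pool.Agent.Lib.MP_4bb67e_lc.Defs

/-!
The problem LW-Approx for V-presented polytopes.
-/

set_option autoImplicit false

namespace Pool.Agent.Lib.MP_4bb67e_lc

/-- An instance of LW-Approx (V): the dimension `n`, a list of rational points, and the number `p`
of binary digits in unary. -/
abbrev InstV : Type := ℕ × List (List ℚ) × List Bool

/-- The point of `ℝ^n` with a given list of coordinates. -/
def point (n : ℕ) (v : List ℚ) : EuclideanSpace ℝ (Fin n) :=
  WithLp.toLp 2 fun j => (v.getD j 0 : ℝ)

/-- The convex hull of the points of an instance. -/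
def polytopeV (I : InstV) : Set (EuclideanSpace ℝ (Fin I.1)) :=
  convexHull ℝ {x | ∃ v ∈ I.2.1, x = point I.1 v}

/-- Legal instances: `n ≥ 2`, points with `n` coordinates whose convex hull has nonempty
interior, and `p` written as a string of ones. -/
def ValidV (I : InstV) : Prop :=
  2 ≤ I.1 ∧ (∀ v ∈ I.2.1, v.length = I.1) ∧ (interior (polytopeV I)).Nonempty ∧
    ∀ b ∈ I.2.2, b = true

/-- Correct answers: rational numbers within `2^(-p)` of the LW-constant. -/
def IsAnswerV (I : InstV) (r : ℚ) : Prop :=
  |(r : ℝ) - LW (polytopeV I)| ≤ 1 / 2 ^ I.2.2.length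

end Pool.Agent.Lib.MP_4bb67e_lc
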