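import Pool.Agent.Lib.MP_4bb67e_lc.Cube

/-!
Finite differences of the volumes of the cut cube recover alternating counts of subset sums.
-/

set_option autoImplicit false

namespace Pool.Agent.Lib.MP_4bb67e_lc

open Finset

/-- The alternating sum of `g` over all subset sums. -/
def Alt {M : Type} [AddMonoid M] : List M → (M → ℤ) → ℤ
  | [], g => g 0
  | x :: a, g => Alt a (fun s => g (s + x)) - Alt a g

/-- The coefficients of the iterated difference. -/
def cf (L k : ℕ) : ℤ := (-1) ^ (L - k) * L.choose k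

/-- The iterated difference. -/
noncomputable def DD (L : ℕ) (F : ℝ → ℝ) (b : ℝ) : ℝ :=
  ∑ k ∈ range (L + 1), (cf L k : ℝ) * F (b - k)

/-- The functional detecting the subset sum `t`. -/
noncomputable def Φ (L t : ℕ) (F : ℝ → ℝ) : ℝ := DD L F t - DD L F (t + L)

theorem add_le_of_dvd {L s b : ℕ} (hs : L ∣ s) (hb : L ∣ b) (h : s < b) : s + L ≤ b :=
  Nat.le_of_lt_add_of_dvd (by omega) (dvd_add hs (dvd_refl L)) hb

theorem DD_T {L r : ℕ} (h1 : 1 ≤ r) (h2 : r ≤ L) {s b : ℕ} (hs : L ∣ s) (hb : L ∣ b) :
    DD L (fun y => T r (s - y)) b = if r = L ∧ b ≤ s then 1 else 0 := by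
  unfold DD
  by_cases h : b ≤ s
  · have h3 : (b : ℝ) ≤ s := by exact_mod_cast h
    have h4 := fwdDiff_iter_eq_sum_shift (1 : ℝ) (fun y : ℝ => y ^ r) L (s - b)
    have h5 : ∑ k ∈ range (L + 1), (cf L k : ℝ) * T r (s - (b - k)) =
        (fwdDiff (1 : ℝ))^[L] (fun y : ℝ => y ^ r) (s - b) / r.factorial := by
      rw [h4, sum_div]
      refine sum_congr rfl fun k _ => ?_
      have e : (s : ℝ) - (b - k) = s - b + k := by ring
      have e2 : T r (s - b + k) = (s - b + k) ^ r / r.factorial := by
        unfold T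
        split_ifs with h6
        · rfl
        · have : (s : ℝ) - b + k = 0 := le_antisymm (not_lt.1 h6) (by positivity)
          rw [this, zero_pow (by omega), zero_div]
      rw [e, e2]
      simp [cf, mul_div_assoc]
    rw [h5]
    split_ifs with h6
    · obtain ⟨rfl, -⟩ := h6
      rw [fwdDiff_iter_eq_factorial]
      simp [Nat.factorial_ne_zero]
    · rw [fwdDiff_iter_pow_eq_zero_of_lt (by omega)]
      simp
  · rw [if_neg (fun h' => h h'.2)]
    refine sum_eq_zero fun k hk => ?_
    have h3 : s + L ≤ b := add_le_of_dvd hs hb (by omega)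
    have h4 : ((s + k : ℕ) : ℝ) ≤ b := by
      have := mem_range.1 hk
      exact_mod_cast (by omega : s + k ≤ b)
    push_cast at h4
    simp only [T]
    rw [if_neg (by linarith), mul_zero]

theorem Φ_lin (L t : ℕ) (F G : ℝ → ℝ) (c : ℝ) :
    Φ L t (fun b => (F b - G b) / c) = (Φ L t F - Φ L t G) / c := by
  simp only [Φ, DD, ← mul_div_assoc, ← sum_div, mul_sub, sum_sub_distrib]
  ring

theorem Φ_JR {L t : ℕ} (ht : L ∣ t) : ∀ (a : List ℕ) (r s : ℕ), (∀ x ∈ a, 0 < x ∧ L ∣ x) →
    L ∣ s → 1 ≤ r + a.length → r + a.length ≤ L →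
    Φ L t (fun b => JR (a.map (fun x : ℕ => (x : ℝ))) r (b - s)) = if r + a.length = L then
      (Alt a (fun s' => if s + s' = t then 1 else 0) : ℝ) / a.prod else 0 := by
  intro a
  induction a with
  | nil =>
    intro r s _ hs h1 h2
    simp only [List.length_nil, add_zero] at h1 h2
    have e := DD_T h1 h2 hs (dvd_add ht (dvd_refl L))
    push_cast at e
    simp only [List.map_nil, JR, neg_sub, Φ, DD_T h1 h2 hs ht, e, List.length_nil, add_zero, Alt,
      List.prod_nil, Nat.cast_one, div_one]
    by_cases h : r = L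
    · subst h
      rcases lt_trichotomy s t with h | h | h
      · simp [h.ne, h.not_ge, show ¬ t + r ≤ s by omega]
      · simp [h, show r ≠ 0 by omega]
      · simp [h.ne', h.le, add_le_of_dvd ht hs h]
    · simp [h]
  | cons x a ih =>
    intro r s ha hs h1 h2
    obtain ⟨hx, hx'⟩ := ha x List.mem_cons_self
    have ha' := fun y hy => ha y (List.mem_cons_of_mem _ hy)
    have hx0 : (x : ℝ) ≠ 0 := by positivity
    simp only [List.length_cons] at h1 h2
    have e1 := ih (r + 1) (s + x) ha' (dvd_add hs hx') (by omega) (by omega)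
    have e2 := ih (r + 1) s ha' hs (by omega) (by omega)
    simp only [List.map_cons, JR, if_neg hx0, sub_sub]
    push_cast at e1
    rw [Φ_lin, e1, e2, List.length_cons, show r + (a.length + 1) = r + 1 + a.length by omega]
    split_ifs
    · simp only [Alt, List.prod_cons, add_assoc, add_comm x]
      push_cast
      rw [← sub_div, div_div, mul_comm]
    · simp

theorem JR_set : ∀ (a : List ℝ) (j : ℕ), j < a.length → ∀ r b,
    JR (a.set j 0) r b = JR (a.eraseIdx j) r b
  | [], _, h, _, _ => by simp at h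
  | _ :: _, 0, _, _, _ => by simp [JR]
  | x :: a, j + 1, h, r, b => by
    simp only [List.set_cons_succ, List.eraseIdx_cons_succ, JR,
      JR_set a j (by simpa using h)]

end Pool.Agent.Lib.MP_4bb67e_lc
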