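import Pool.Agent.Lib.MP_4bb67e_lc.FrameV

/-!
The LW-constant of the distorted polytope to first order.
-/

set_option autoImplicit false

namespace Pool.Agent.Lib.MP_4bb67e_lc

open MeasureTheory Set Function

theorem log_approx' {v δ : ℝ} (h0 : 0 ≤ v) (h1 : v ≤ δ) : |Real.log (1 + v) - v| ≤ δ ^ 2 := by
  have a1 : Real.log (1 + v) ≤ v := by
    have := Real.log_le_sub_one_of_pos (show 0 < 1 + v by linarith)
    linarith
  have a2 : 1 - (1 + v)⁻¹ ≤ Real.log (1 + v) := Real.one_sub_inv_le_log_of_pos (by linarith)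
  have a3 : (1 + v)⁻¹ ≤ 1 - v + v ^ 2 := by
    rw [inv_le_iff_one_le_mul₀ (by linarith)]
    have : 0 ≤ v ^ 3 := by positivity
    nlinarith
  have a4 : v ^ 2 ≤ δ ^ 2 := pow_le_pow_left₀ h0 h1 2
  rw [abs_le]
  constructor <;> nlinarith [sq_nonneg δ]

theorem ratio_approx' {m : ℕ} {v δ : ℝ} {f : Fin (m + 1) → ℝ} (h0 : 0 ≤ v) (h1 : v ≤ δ)
    (hf0 : ∀ j, 0 ≤ f j) (hf1 : ∀ j, f j ≤ δ) (h3 : 2 * (m + 1) * δ ≤ 1) :
    |(1 + v) ^ m / ∏ j, (1 + f j) - (1 + m * v - ∑ j, f j)| ≤ 6 * (m + 1) ^ 2 * δ ^ 2 := by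
  have hδ : 0 ≤ δ := h0.trans h1
  have hm : (0 : ℝ) ≤ m := Nat.cast_nonneg m
  set z := m * Real.log (1 + v) - ∑ j, Real.log (1 + f j) with hz
  have e : (1 + v) ^ m / ∏ j, (1 + f j) = Real.exp z := by
    rw [hz, Real.exp_sub, Real.exp_sum, Real.exp_nat_mul, Real.exp_log (by linarith)]
    congr 1
    exact Finset.prod_congr rfl fun j _ => (Real.exp_log (by linarith [hf0 j])).symm
  have a1 := abs_le.1 (log_approx' h0 h1)
  have a2 : |∑ j, (Real.log (1 + f j) - f j)| ≤ (m + 1) * δ ^ 2 := by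
    refine (Finset.abs_sum_le_sum_abs _ _).trans ?_
    simpa using Finset.sum_le_card_nsmul Finset.univ _ _
      (fun j _ => log_approx' (hf0 j) (hf1 j))
  rw [Finset.sum_sub_distrib, abs_le] at a2
  have a3 : 0 ≤ ∑ j, f j := Finset.sum_nonneg fun j _ => hf0 j
  have a4 : ∑ j, f j ≤ (m + 1) * δ := by
    simpa using Finset.sum_le_card_nsmul Finset.univ _ _ (fun j _ => hf1 j)
  have a5 : |z - (m * v - ∑ j, f j)| ≤ 2 * (m + 1) * δ ^ 2 := by
    rw [abs_le, hz]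
    constructor <;> nlinarith [sq_nonneg δ]
  have a6 : |z| ≤ 2 * (m + 1) * δ := by
    have b1 : m * v ≤ (m + 1) * δ := by nlinarith
    have b2 : 0 ≤ m * v := by positivity
    have b3 : 2 * (m + 1) * δ ^ 2 ≤ (m + 1) * δ := by
      nlinarith [mul_nonneg hδ hm, mul_nonneg (mul_nonneg hδ hm) hδ]
    rw [abs_le] at a5 ⊢
    constructor <;> linarith [a5.1, a5.2]
  have a7 := Real.abs_exp_sub_one_sub_id_le (a6.trans h3)
  have a8 : z ^ 2 ≤ (2 * (m + 1) * δ) ^ 2 := by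
    rw [← sq_abs]
    exact pow_le_pow_left₀ (abs_nonneg _) a6 2
  have a9 : 2 * (m + 1) * δ ^ 2 ≤ 2 * (m + 1) ^ 2 * δ ^ 2 := by
    nlinarith [mul_nonneg (sq_nonneg δ) (by nlinarith : (0 : ℝ) ≤ (m + 1) ^ 2 - (m + 1))]
  rw [e]
  rw [abs_le] at a5 a7 ⊢
  constructor <;> nlinarith [a5.1, a5.2, a7.1, a7.2]

variable {m : ℕ}

/-- The first order term. -/
noncomputable def gg (d : Fin m → ℝ) (c : ℝ) : ℝ :=
  ∑ σ : Fin m → Bool, max (c + dot σ d) 0 * ∑ j, sg (σ j)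

/-- The extra vertex. -/
noncomputable def apex (d : Fin m → ℝ) (c W : ℝ) : Fin (m + 1) → ℝ :=
  Fin.cons (1 + c / W) fun j => d j / W

theorem sum_cons_bool {A : Type} [AddCommMonoid A] (g : (Fin (m + 1) → Bool) → A) :
    ∑ σ, g σ = ∑ σ : Fin m → Bool, g (Fin.cons true σ) + ∑ σ : Fin m → Bool, g (Fin.cons false σ) := by
  rw [← (Fin.consEquiv fun _ => Bool).sum_comp, Fintype.sum_prod_type, Fintype.sum_bool]
  rfl

theorem dot_cons (b : Bool) (σ : Fin m → Bool) (x : Fin (m + 1) → ℝ) :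
    dot (Fin.cons b σ : Fin (m + 1) → Bool) x = sg b * x 0 + dot σ fun j => x j.succ := by
  simp [dot, Fin.sum_univ_succ]

theorem first_term {d : Fin m → ℝ} {c W ρ : ℝ} (hW : 0 < W) (h : Near (apex d c W) ρ) :
    m * (Phi (apex d c W) / 2 ^ (m + 1)) - ∑ i, PhiF (apex d c W) i / 2 ^ m =
      gg d c / (W * 2 ^ (m + 1)) := by
  have e1 : m * Phi (apex d c W) - 2 * ∑ i, PhiF (apex d c W) i =
      ∑ σ : Fin (m + 1) → Bool, max (dot σ (apex d c W) - 1) 0 * (∑ i, sg (σ i) - 1) := by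
    unfold Phi PhiF
    rw [Finset.sum_comm, Finset.mul_sum, Finset.mul_sum, ← Finset.sum_sub_distrib]
    refine Finset.sum_congr rfl fun σ _ => ?_
    have : ∀ i, (if σ i = false then max (dot σ (apex d c W) - 1) 0 else 0) =
        max (dot σ (apex d c W) - 1) 0 * ((1 - sg (σ i)) / 2) := fun i => by
      cases σ i <;> simp [sg]
    simp only [this, ← Finset.mul_sum, ← Finset.sum_div, Finset.sum_sub_distrib,
      Finset.sum_const, Finset.card_univ, Fintype.card_fin, nsmul_eq_mul]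
    push_cast
    ring
  have e2 : ∑ σ : Fin (m + 1) → Bool, max (dot σ (apex d c W) - 1) 0 * (∑ i, sg (σ i) - 1) =
      gg d c / W := by
    rw [sum_cons_bool, Finset.sum_eq_zero (s := Finset.univ)
      (f := fun σ : Fin m → Bool => max (dot (Fin.cons false σ : Fin (m + 1) → Bool)
        (apex d c W) - 1) 0 * (∑ i, sg ((Fin.cons false σ : Fin (m + 1) → Bool) i) - 1))
      (fun σ _ => by
        rw [max_eq_right (by linarith [h.dot_false (σ := Fin.cons false σ) rfl, h.small]),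
          zero_mul]), add_zero, gg, Finset.sum_div]
    refine Finset.sum_congr rfl fun σ _ => ?_
    have a1 : dot (Fin.cons true σ : Fin (m + 1) → Bool) (apex d c W) - 1 = (c + dot σ d) / W := by
      rw [dot_cons]
      simp only [apex, sg, dot, Fin.cons_zero, Fin.cons_succ, if_true, add_div, Finset.sum_div,
        mul_div_assoc]
      ring
    rw [a1, Fin.sum_univ_succ, ← zero_div W, max_div_div_right hW.le]
    simp only [Fin.cons_zero, Fin.cons_succ, show sg true = 1 from rfl, add_sub_cancel_left,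
      zero_div]
    ring
  rw [← Finset.sum_div, ← div_div, ← e2, ← e1]
  ring

theorem num1 {x s : ℝ} (x2 : x ≤ 2) (s0 : 0 ≤ s) (s1 : 4 * s ≤ 1) :
    x ≤ (x + 4 * s) * (1 - s) := by
  nlinarith [mul_nonneg s0 (sub_nonneg.2 x2), mul_nonneg s0 (sub_nonneg.2 s1)]

theorem num2 {a b η : ℝ} (a0 : 0 ≤ a) (b0 : 0 ≤ b) (h : a + b ≤ η) :
    1 - η ≤ (1 - a) * (1 - b) := by
  nlinarith [mul_nonneg a0 b0]

theorem num3 {κ x y L e s : ℝ} (hκ : 0 < κ) (s0 : 0 ≤ s) (r : |x - y| ≤ e) (l1 : κ * x ≤ L)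
    (l2 : L ≤ κ * (x + s)) : |L - κ * y| ≤ κ * (e + s) := by
  rw [abs_le] at r ⊢
  have a := mul_le_mul_of_nonneg_left r.1 hκ.le
  have b := mul_le_mul_of_nonneg_left r.2 hκ.le
  have c := mul_nonneg hκ.le s0
  constructor <;> linarith

theorem num4 {n ρ : ℝ} (hn : 0 ≤ n) (hρ : 0 ≤ ρ) (h : 4 * (n + 1) * ρ ≤ 1) :
    6 * (n + 1) ^ 2 * ρ ^ 2 ≤ 1 / 2 ∧ ρ ≤ 1 / 4 ∧ n * ρ ≤ 1 / 4 ∧ 2 * (n + 1) * ρ ≤ 1 := by
  have h1 : ((n + 1) * ρ) ^ 2 ≤ (1 / 4) ^ 2 := pow_le_pow_left₀ (by positivity) (by linarith) 2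
  have h2 := mul_nonneg hn hρ
  refine ⟨by linarith, by linarith, by linarith, by linarith⟩

theorem LW_first (hm : 0 < m) {d : Fin m → ℝ} {c W ρ : ℝ} (hW : 0 < W)
    (h : Near (apex d c W) ρ) {T R τ η : ℝ} (hT : 0 < T) (hR : 1 ≤ R) (hτ : 0 < τ)
    (h2 : m / R ≤ τ / 2) (h3 : (4 / τ) ^ (m + 1) ≤ R)
    (h4 : 2 ^ m * ρ ^ 2 + (2 * (m + 1 : ℕ) ^ 3 * τ ^ 2 + m / R) ≤ η) (h5 : 4 * (m + 1) * η ≤ 1)
    (h6 : 4 * (m + 1) * ρ ≤ 1) :
    0 ≤ LW (body (scl T R) (apex d c W)) ∧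
    |LW (body (scl T R) (apex d c W)) -
      m.factorial / (m + 1) ^ m * (1 + gg d c / (W * 2 ^ (m + 1)))| ≤
      m.factorial / (m + 1) ^ m * (6 * (m + 1) ^ 2 * ρ ^ 2 + 4 * (m + 1) * η) := by
  have hρ := h.nonneg
  have hm0 : (0 : ℝ) ≤ m := Nat.cast_nonneg m
  have b1 : 0 ≤ 2 ^ m * ρ ^ 2 := by positivity
  have b2 : 0 ≤ 2 * ((m + 1 : ℕ) : ℝ) ^ 3 * τ ^ 2 := by positivity
  have b3 : 0 ≤ m / R := by positivity
  have hη : 0 ≤ η := by linarith
  have b4 : η ≤ 1 / 4 := (num4 hm0 hη h5).2.1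
  obtain ⟨l1, l2⟩ := h.LW_bounds hm hT hR hτ (by linarith) h2 h3 (by linarith) (by linarith)
  set a := apex d c W with ha
  have hκ : (0 : ℝ) < m.factorial / (m + 1) ^ m := by positivity
  have e : ((2 ^ (m + 1) + Phi a) / (m + 1).factorial) ^ m / ∏ i, Pv a i =
      m.factorial / (m + 1) ^ m *
        ((1 + Phi a / 2 ^ (m + 1)) ^ m / ∏ i, (1 + PhiF a i / 2 ^ m)) := by
    have e1 : ∀ i, Pv a i = 2 ^ m / m.factorial * (1 + PhiF a i / 2 ^ m) := fun i => by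
      unfold Pv
      field_simp
    have e2 : (2 ^ (m + 1) + Phi a) / (m + 1).factorial =
        2 ^ (m + 1) / ((m + 1) * m.factorial) * (1 + Phi a / 2 ^ (m + 1)) := by
      rw [Nat.factorial_succ]
      push_cast
      field_simp
    have e3 : (0 : ℝ) < ∏ i, (1 + PhiF a i / 2 ^ m) := Finset.prod_pos fun i _ => by
      have := PhiF_nonneg a i
      positivity
    simp only [e1, e2, Finset.prod_mul_distrib, Fin.prod_const, mul_pow, div_pow]
    field_simp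
    ring
  have r := ratio_approx' (v := Phi a / 2 ^ (m + 1)) (δ := ρ) (f := fun i => PhiF a i / 2 ^ m)
    (div_nonneg (Phi_nonneg a) (by positivity))
    (by rw [div_le_iff₀ (by positivity), mul_comm]; exact h.Phi_le)
    (fun i => div_nonneg (PhiF_nonneg a i) (by positivity))
    (fun i => by rw [div_le_iff₀ (by positivity), mul_comm]; exact h.PhiF_le i) (num4 hm0 hρ h6).2.2.2
  have r1 : m * (Phi a / 2 ^ (m + 1)) - ∑ i, PhiF a i / 2 ^ m ≤ 1 / 4 := by
    have c1 : Phi a / 2 ^ (m + 1) ≤ ρ := by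
      rw [div_le_iff₀ (by positivity), mul_comm]
      exact h.Phi_le
    have c2 : 0 ≤ ∑ i, PhiF a i / 2 ^ m :=
      Finset.sum_nonneg fun i _ => div_nonneg (PhiF_nonneg a i) (by positivity)
    linarith [mul_le_mul_of_nonneg_left c1 hm0, (num4 hm0 hρ h6).2.2.1]
  rw [add_sub_assoc, first_term hW h] at r
  rw [first_term hW h] at r1
  rw [e] at l1 l2
  have x0 : 0 ≤ (1 + Phi a / 2 ^ (m + 1)) ^ m / ∏ i, (1 + PhiF a i / 2 ^ m) := by
    have := Phi_nonneg a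
    refine div_nonneg (by positivity) (Finset.prod_nonneg fun i _ => ?_)
    have := PhiF_nonneg a i
    positivity
  generalize (1 + Phi a / 2 ^ (m + 1)) ^ m / ∏ i, (1 + PhiF a i / 2 ^ m) = x at *
  have r2 := (num4 hm0 hρ h6).1
  have x2 : x ≤ 2 := by linarith [(abs_le.1 r).2]
  have y1 : 1 - (m + 1) * η ≤
      ((1 - 2 ^ m * ρ ^ 2) * (1 - (2 * (m + 1 : ℕ) ^ 3 * τ ^ 2 + m / R))) ^ (m + 1) := by
    have c1 := num2 b1 (add_nonneg b2 b3) h4
    have c2 := one_add_mul_le_pow (a := -η) (by linarith) (m + 1)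
    rw [Nat.cast_succ, mul_neg, ← sub_eq_add_neg, ← sub_eq_add_neg] at c2
    exact c2.trans (pow_le_pow_left₀ (by linarith) c1 _)
  have y2 : LW (body (scl T R) a) ≤ m.factorial / (m + 1) ^ m * (x + 4 * (m + 1) * η) := by
    refine l2.trans ((div_le_div_of_nonneg_left (by positivity) (by linarith) y1).trans ?_)
    rw [mul_div_assoc]
    refine mul_le_mul_of_nonneg_left ?_ hκ.le
    rw [div_le_iff₀ (by linarith)]
    rw [mul_assoc] at h5 ⊢
    exact num1 x2 (by positivity) h5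
  exact ⟨le_trans (by positivity) l1, num3 hκ (by positivity) r l1 y2⟩

theorem second_diff (x : ℤ) :
    max ((x : ℝ) + 1) 0 - 2 * max (x : ℝ) 0 + max ((x : ℝ) - 1) 0 = if x = 0 then 1 else 0 := by
  rcases lt_trichotomy x 0 with h | h | h
  · have h1 : (x : ℝ) + 1 ≤ 0 := by exact_mod_cast h
    rw [if_neg h.ne, max_eq_right h1, max_eq_right (by linarith), max_eq_right (by linarith)]
    ring
  · simp [h]
  · have h1 : (1 : ℝ) ≤ x := by exact_mod_cast h
    rw [if_neg h.ne', max_eq_left (by linarith), max_eq_left (by linarith),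
      max_eq_left (by linarith)]
    ring

/-- The integer signed sum. -/
def dotZ (σ : Fin m → Bool) (d : Fin m → ℤ) : ℤ := ∑ j, cond (σ j) 1 (-1) * d j

theorem dotZ_cast (σ : Fin m → Bool) (d : Fin m → ℤ) :
    (dotZ σ d : ℝ) = dot σ fun j => (d j : ℝ) := by
  simp only [dotZ, dot, Int.cast_sum, Int.cast_mul]
  refine Finset.sum_congr rfl fun j _ => ?_
  cases σ j <;> simp [sg]

theorem gg_second (d : Fin m → ℤ) (c : ℤ) :
    gg (fun j => (d j : ℝ)) (c + 1) - 2 * gg (fun j => (d j : ℝ)) c +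
      gg (fun j => (d j : ℝ)) (c - 1) =
      ∑ σ : Fin m → Bool, (if c + dotZ σ d = 0 then 1 else 0) * ∑ j, sg (σ j) := by
  simp only [gg, Finset.mul_sum, ← Finset.sum_sub_distrib, ← Finset.sum_add_distrib]
  refine Finset.sum_congr rfl fun σ _ => Finset.sum_congr rfl fun j _ => ?_
  rw [← second_diff, ← dotZ_cast]
  push_cast
  ring_nf

theorem gg_count (d : Fin m → ℤ) (c M : ℤ) (hM : |c| + ∑ j, |d j| < M) :
    (gg (fun j => ((Fin.cons M d : Fin (m + 1) → ℤ) j : ℝ)) ((c - M : ℤ) + 1) -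
      2 * gg (fun j => ((Fin.cons M d : Fin (m + 1) → ℤ) j : ℝ)) (c - M : ℤ) +
      gg (fun j => ((Fin.cons M d : Fin (m + 1) → ℤ) j : ℝ)) ((c - M : ℤ) - 1)) -
    (gg (fun j => ((Fin.cons M d : Fin (m + 1) → ℤ) j : ℝ)) ((c + M : ℤ) + 1) -
      2 * gg (fun j => ((Fin.cons M d : Fin (m + 1) → ℤ) j : ℝ)) (c + M : ℤ) +
      gg (fun j => ((Fin.cons M d : Fin (m + 1) → ℤ) j : ℝ)) ((c + M : ℤ) - 1)) =
      2 * ∑ σ : Fin m → Bool, if c + dotZ σ d = 0 then 1 else 0 := by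
  have hb : ∀ σ : Fin m → Bool, |c + dotZ σ d| < M := fun σ => by
    refine lt_of_le_of_lt ((abs_add_le _ _).trans (add_le_add le_rfl
      ((Finset.abs_sum_le_sum_abs _ _).trans (Finset.sum_le_sum fun j _ => ?_)))) hM
    cases σ j <;> simp
  have e : ∀ (b : Bool) (σ : Fin m → Bool), dotZ (Fin.cons b σ : Fin (m + 1) → Bool)
      (Fin.cons M d : Fin (m + 1) → ℤ) = cond b 1 (-1) * M + dotZ σ d := fun b σ => by
    simp [dotZ, Fin.sum_univ_succ]
  rw [gg_second, gg_second, sum_cons_bool, sum_cons_bool, Finset.mul_sum,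
    ← Finset.sum_add_distrib, ← Finset.sum_add_distrib, ← Finset.sum_sub_distrib]
  refine Finset.sum_congr rfl fun σ _ => ?_
  have h1 := abs_lt.1 (hb σ)
  simp only [e, Fin.sum_univ_succ, Fin.cons_zero, Fin.cons_succ, cond_true, cond_false]
  rw [if_neg (show ¬ c - M + (-1 * M + dotZ σ d) = 0 by omega),
    if_neg (show ¬ c + M + (1 * M + dotZ σ d) = 0 by omega),
    show c - M + (1 * M + dotZ σ d) = c + dotZ σ d by ring,
    show c + M + (-1 * M + dotZ σ d) = c + dotZ σ d by ring]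
  simp only [sg, if_true, Bool.false_eq_true, if_false]
  ring

end Pool.Agent.Lib.MP_4bb67e_lc
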