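import Pool.Agent.Lib.MP_4bb67e_lc.Slice

/-!
For bodies that nearly fill the unit cube the coordinate frame is optimal.
-/

set_option autoImplicit false

namespace Pool.Agent.Lib.MP_4bb67e_lc

open MeasureTheory Set Function

theorem abs_coord_le {n : ℕ} {u : E n} (hu : ‖u‖ = 1) (j : Fin n) : |u j| ≤ 1 := by
  have := PiLp.norm_apply_le u j
  rwa [hu, Real.norm_eq_abs] at this

theorem exists_perm {n : ℕ} (F : OrthonormalBasis (Fin n) ℝ (E n)) :
    ∃ σ : Equiv.Perm (Fin n), ∀ i, 1 / (n.factorial : ℝ) ≤ |F i (σ i)| := by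
  have h1 := (EuclideanSpace.basisFun (Fin n) ℝ).det_to_matrix_orthonormalBasis F
  rw [Module.Basis.det_apply, Matrix.det_apply] at h1
  have h2 : ∃ σ : Equiv.Perm (Fin n), 1 / (n.factorial : ℝ) ≤ ∏ i, |F i (σ i)| := by
    by_contra h
    push Not at h
    have h3 := (norm_sum_le _ _).trans_lt (Finset.sum_lt_sum_of_nonempty
      (f := fun σ : Equiv.Perm (Fin n) => ‖Equiv.Perm.sign σ •
        ∏ i, (EuclideanSpace.basisFun (Fin n) ℝ).toBasis.toMatrix F (σ i) i‖)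
      (g := fun _ => 1 / (n.factorial : ℝ)) Finset.univ_nonempty (fun σ _ => by
        rcases Int.units_eq_one_or (Equiv.Perm.sign σ) with e | e <;>
          simpa [e, Module.Basis.toMatrix_apply, Finset.abs_prod] using h σ))
    rw [h1] at h3
    simp [Fintype.card_perm, Nat.factorial_ne_zero] at h3
  obtain ⟨σ, hσ⟩ := h2
  refine ⟨σ, fun i => hσ.trans ?_⟩
  rw [← Finset.mul_prod_erase _ _ (Finset.mem_univ i)]
  exact mul_le_of_le_one_right (abs_nonneg _) (Finset.prod_le_one (fun _ _ => abs_nonneg _)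
    (fun j _ => abs_coord_le (F.orthonormal.1 j) _))

theorem cone_ineq {n : ℕ} {u : E n} (hu : ‖u‖ = 1) (k : Fin n) {η : ℝ} (h0 : 0 ≤ η)
    (hη : 2 * η ≤ |u k|) : 1 ≤ |u k| + (1 - η) * ∑ j ∈ Finset.univ.erase k, |u j| := by
  have h1 := abs_coord_le hu k
  have h2 : ∑ j, |u j| ^ 2 = 1 := by
    have := EuclideanSpace.real_norm_sq_eq u
    rw [hu] at this
    simpa using this.symm
  rw [← Finset.add_sum_erase _ _ (Finset.mem_univ k)] at h2
  have h3 : ∑ j ∈ Finset.univ.erase k, |u j| ^ 2 ≤ (∑ j ∈ Finset.univ.erase k, |u j|) ^ 2 :=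
    Finset.sum_sq_le_sq_sum_of_nonneg (fun _ _ => abs_nonneg _)
  have h4 : 0 ≤ ∑ j ∈ Finset.univ.erase k, |u j| := Finset.sum_nonneg (fun _ _ => abs_nonneg _)
  generalize ∑ j ∈ Finset.univ.erase k, |u j| = S at *
  generalize |u k| = w at *
  have h5 : (1 - w) ^ 2 ≤ ((1 - η) * S) ^ 2 := by
    have a : 1 - w ≤ (1 - η) ^ 2 * (1 + w) := by nlinarith
    have b : (1 - w) ^ 2 ≤ (1 - η) ^ 2 * (1 - w ^ 2) := by nlinarith
    have c : (1 - η) ^ 2 * (1 - w ^ 2) ≤ (1 - η) ^ 2 * S ^ 2 :=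
      mul_le_mul_of_nonneg_left (by linarith) (sq_nonneg _)
    rw [mul_pow]; linarith
  have := abs_le_of_sq_le_sq' h5 (mul_nonneg (by linarith) h4)
  linarith [this.2]

theorem vol_prism_le {n : ℕ} (K : Set (Fin n → ℝ)) (j : Fin n) (c : ℝ) :
    volume (prism K j c) ≤ 1 := by
  refine (measure_mono (t := Icc 0 1) fun x hx =>
    ⟨fun i => (hx.1 i).1.le, fun i => (hx.1 i).2.le⟩).trans ?_
  simp [Real.volume_Icc_pi]

theorem vol_proj_ne_top {n : ℕ} {K : Set (Fin n → ℝ)} (hK : IsCompact K) (u : E n) :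
    volume ((ℝ ∙ u)ᗮ.orthogonalProjectionOnto '' (WithLp.ofLp ⁻¹' K)) ≠ ⊤ :=
  (((PiLp.homeomorph 2 (fun _ : Fin n => ℝ)).isCompact_preimage.2 hK).image
    (ContinuousLinearMap.continuous _)).measure_lt_top.ne

theorem projVol_ge {n : ℕ} {K : Set (Fin n → ℝ)} (hK : IsCompact K) {η : ℝ} (h0 : 0 ≤ η)
    (h3 : ∀ j c, c = 0 ∨ c = 1 → 1 - η ≤ (volume (prism K j c)).toReal)
    {u : E n} (hu : ‖u‖ = 1) {k : Fin n} (hk : u k ≠ 0) (hη : 2 * η ≤ |u k|) :
    (volume (prism K k 0)).toReal ≤ projVol (WithLp.ofLp ⁻¹' K) u := by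
  obtain ⟨s, hs, hs'⟩ : ∃ s : ℝ, (s = 1 ∨ s = -1) ∧ 0 < s * u k := by
    rcases lt_or_gt_of_ne hk with h | h
    · exact ⟨-1, Or.inr rfl, by linarith⟩
    · exact ⟨1, Or.inl rfl, by linarith⟩
  have hfin : ∀ j c, volume (prism K j c) ≠ ⊤ := fun j c =>
    ne_top_of_le_ne_top ENNReal.one_ne_top (vol_prism_le K j c)
  have h4 := ENNReal.toReal_mono (vol_proj_ne_top hK u) (proj_lower hu hs hK.measurableSet)
  rw [ENNReal.toReal_sum (fun j _ => ENNReal.mul_ne_top ENNReal.ofReal_ne_top (hfin _ _)),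
    ← Finset.add_sum_erase _ _ (Finset.mem_univ k)] at h4
  simp only [ENNReal.toReal_mul, ENNReal.toReal_ofReal (abs_nonneg _)] at h4
  have h5 : side (s * u k) = 0 := if_pos hs'
  rw [h5] at h4
  have h6 : (1 - η) * ∑ j ∈ Finset.univ.erase k, |u j| ≤
      ∑ j ∈ Finset.univ.erase k, |u j| * (volume (prism K j (side (s * u j)))).toReal := by
    rw [Finset.mul_sum]
    refine Finset.sum_le_sum fun j _ => ?_
    rw [mul_comm]
    refine mul_le_mul_of_nonneg_left (h3 j _ ?_) (abs_nonneg _)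
    unfold side
    split_ifs <;> simp
  have h7 := cone_ineq hu k h0 hη
  have h8 : (volume (prism K k 0)).toReal ≤ 1 := by
    simpa using ENNReal.toReal_mono ENNReal.one_ne_top (vol_prism_le K k 0)
  have h9 := abs_coord_le hu k
  unfold projVol shadowVol shadow euclVol
  nlinarith

theorem LW_eq {n : ℕ} {K : Set (Fin n → ℝ)} (hK : IsCompact K) (h1 : K ⊆ Icc 0 1)
    (h2 : ∀ j, ∀ x ∈ K, update x j 0 ∈ K) {η : ℝ} (h0 : 0 ≤ η)
    (hη : 2 * η ≤ 1 / (n.factorial : ℝ))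
    (h3 : ∀ j c, c = 0 ∨ c = 1 → 1 - η ≤ (volume (prism K j c)).toReal) :
    LW (WithLp.ofLp ⁻¹' K : Set (E n)) =
      (volume K).toReal ^ (n - 1) / ∏ j, (volume (prism K j 0)).toReal := by
  have hf : (0 : ℝ) < 1 / (n.factorial : ℝ) := by positivity
  have hf1 : 1 / (n.factorial : ℝ) ≤ 1 := by
    rw [div_le_one (by positivity)]
    exact_mod_cast n.factorial_pos
  have hv : volume (WithLp.ofLp ⁻¹' K : Set (E n)) = volume K :=
    (PiLp.volume_preserving_ofLp (Fin n)).measure_preimage hK.measurableSet.nullMeasurableSet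
  have hpos : ∀ j, 0 < (volume (prism K j 0)).toReal := fun j => by
    linarith [h3 j 0 (Or.inl rfl)]
  have hle : ∀ F : OrthonormalBasis (Fin n) ℝ (E n),
      (volume K).toReal ^ (n - 1) / ∏ i, projVol (WithLp.ofLp ⁻¹' K) (F i) ≤
        (volume K).toReal ^ (n - 1) / ∏ j, (volume (prism K j 0)).toReal := by
    intro F
    obtain ⟨σ, hσ⟩ := exists_perm F
    refine div_le_div_of_nonneg_left (by positivity) (Finset.prod_pos fun j _ => hpos j) ?_
    rw [← Equiv.prod_comp σ]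
    exact Finset.prod_le_prod (fun j _ => (hpos _).le) fun i _ =>
      projVol_ge hK h0 h3 (F.orthonormal.1 i) (abs_pos.1 (hf.trans_le (hσ i))) (hη.trans (hσ i))
  unfold LW euclVol
  rw [hv]
  refine le_antisymm (ciSup_le hle) (le_ciSup_of_le ⟨_, forall_mem_range.2 hle⟩
    (EuclideanSpace.basisFun (Fin n) ℝ) (le_of_eq ?_))
  congr 1
  refine Finset.prod_congr rfl fun j _ => le_antisymm ?_ ?_
  · refine projVol_ge hK h0 h3 ((EuclideanSpace.basisFun (Fin n) ℝ).orthonormal.1 j) (by simp) ?_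
    simpa using hη.trans hf1
  · rw [EuclideanSpace.basisFun_apply]
    exact ENNReal.toReal_mono (ne_top_of_le_ne_top ENNReal.one_ne_top (vol_prism_le K j 0))
      (proj_upper j hK h1 (h2 j))

end Pool.Agent.Lib.MP_4bb67e_lc
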