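import Pool.Agent.Lib.MP_4bb67e_lc.Proj

/-!
For strongly distorted polytopes the coordinate frame is nearly optimal.
-/

set_option autoImplicit false

namespace Pool.Agent.Lib.MP_4bb67e_lc

open MeasureTheory Set Function

theorem stoch_choice {n : ℕ} {D : Fin n → Fin n → ℝ} (h0 : ∀ i k, 0 ≤ D i k)
    (hc : ∀ k, ∑ i, D i k = 1) (hr : ∀ i, ∑ k, D i k = 1) {θ : ℝ} (hθ : 0 < θ)
    (h : 4 * n ^ 3 * θ < 1) :
    ∃ f : Fin n → Fin n, (∀ k, θ ≤ D (f k) k) ∧ (∑ k, (f k).val + 1 ≤ ∑ i : Fin n, i.val ∨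
      (Bijective f ∧ ∀ k, 1 - 2 * n ^ 3 * θ ≤ D (f k) k)) := by
  have hn : ∀ _k : Fin n, (n : ℝ) * θ ≤ n ^ 3 * θ := fun k => by
    have h1 : (1 : ℝ) ≤ n := by exact_mod_cast k.pos
    exact mul_le_mul_of_nonneg_right (le_self_pow₀ h1 (by norm_num)) hθ.le
  have h3 : 0 ≤ (n : ℝ) ^ 3 * θ := by positivity
  have ex : ∀ k, ∃ i, θ ≤ D i k ∧ ∀ j < i, D j k ≤ θ := by
    intro k
    have hne : (Finset.univ.filter fun i => θ ≤ D i k).Nonempty := by
      by_contra hne
      have h1 : ∀ i, D i k ≤ θ := fun i => le_of_not_ge fun hi => hne ⟨i, by simpa using hi⟩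
      have h2 := Finset.sum_le_card_nsmul Finset.univ _ _ fun i _ => h1 i
      rw [hc] at h2
      simp only [Finset.card_univ, Fintype.card_fin, nsmul_eq_mul] at h2
      linarith [hn k]
    refine ⟨Finset.min' _ hne, (Finset.mem_filter.1 (Finset.min'_mem _ hne)).2, fun j hj => ?_⟩
    exact le_of_not_ge fun hi => absurd (Finset.min'_le _ j (by simpa using hi)) (not_le.2 hj)
  choose f hf hf' using ex
  refine ⟨f, hf, ?_⟩
  rcases lt_or_ge (∑ k, (f k).val) (∑ i : Fin n, i.val) with hs | hs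
  · exact Or.inl hs
  right
  let R : Fin n → ℝ := fun k => ∑ i, if f k < i then D i k else 0
  have R0 : ∀ k, 0 ≤ R k := fun k => Finset.sum_nonneg fun i _ => by
    split_ifs
    · exact h0 _ _
    · exact le_rfl
  have a1 : ∀ k, R k - n * (n * θ) ≤ ∑ i : Fin n, (i.val : ℝ) * D i k - (f k).val := by
    intro k
    have e : ∑ i : Fin n, (i.val : ℝ) * D i k - (f k).val =
        ∑ i : Fin n, ((i.val : ℝ) - (f k).val) * D i k := by
      simp only [sub_mul, Finset.sum_sub_distrib, ← Finset.mul_sum, hc, mul_one]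
    have e2 : (n : ℝ) * (n * θ) = ∑ _i : Fin n, n * θ := by simp
    rw [e, e2, ← Finset.sum_sub_distrib]
    refine Finset.sum_le_sum fun i _ => ?_
    have b0 : 0 ≤ (n : ℝ) * θ := by positivity
    rcases lt_trichotomy (f k) i with hi | hi | hi
    · have b1 : ((f k).val : ℝ) + 1 ≤ i.val := by exact_mod_cast hi
      rw [if_pos hi]
      nlinarith [h0 i k]
    · rw [if_neg (by simp [hi]), hi]
      linarith
    · rw [if_neg (not_lt.2 hi.le)]
      have b1 : ((f k).val : ℝ) ≤ n := by exact_mod_cast (f k).2.le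
      have b2 : (0 : ℝ) ≤ i.val := Nat.cast_nonneg _
      nlinarith [h0 i k, hf' k i hi, mul_nonneg b2 (h0 i k),
        mul_le_mul b1 (hf' k i hi) (h0 i k) (Nat.cast_nonneg n)]
  have a2 : ∑ k, R k ≤ n ^ 3 * θ := by
    have b1 := Finset.sum_le_sum fun k (_ : k ∈ Finset.univ) => a1 k
    rw [Finset.sum_sub_distrib, Finset.sum_sub_distrib,
      Finset.sum_comm (f := fun (k i : Fin n) => (i.val : ℝ) * D i k)] at b1
    simp only [← Finset.mul_sum, hr, mul_one, Finset.sum_const, Finset.card_univ,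
      Fintype.card_fin, nsmul_eq_mul] at b1
    have b2 : ∑ i : Fin n, (i.val : ℝ) ≤ ∑ k, ((f k).val : ℝ) := by exact_mod_cast hs
    linarith
  have a3 : ∀ k, 1 - 2 * n ^ 3 * θ ≤ D (f k) k := by
    intro k
    have b1 : R k ≤ ∑ k, R k := Finset.single_le_sum (fun k _ => R0 k) (Finset.mem_univ k)
    have b2 : ∑ i, D i k ≤
        ∑ i, ((if i = f k then D i k else 0) + (if f k < i then D i k else 0) + θ) := by
      refine Finset.sum_le_sum fun i _ => ?_
      rcases lt_trichotomy (f k) i with hi | hi | hi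
      · rw [if_neg hi.ne', if_pos hi]
        linarith
      · rw [if_pos hi.symm, if_neg (by simp [hi])]
        linarith
      · rw [if_neg hi.ne, if_neg (not_lt.2 hi.le)]
        linarith [hf' k i hi]
    rw [hc, Finset.sum_add_distrib, Finset.sum_add_distrib] at b2
    simp only [Finset.sum_ite_eq', Finset.mem_univ, if_true, Finset.sum_const, Finset.card_univ,
      Fintype.card_fin, nsmul_eq_mul] at b2
    linarith [hn k]
  refine ⟨Finite.injective_iff_bijective.1 fun k k' e => ?_, a3⟩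
  by_contra hne
  have b1 := Finset.sum_le_sum_of_subset_of_nonneg (f := fun j => D (f k) j)
    (Finset.subset_univ {k, k'}) fun j _ _ => h0 _ j
  rw [Finset.sum_pair hne, hr] at b1
  have b2 := a3 k'
  rw [← e] at b2
  linarith [a3 k]

theorem frame_choice {n : ℕ} (F : OrthonormalBasis (Fin n) ℝ (E n)) {τ : ℝ} (hτ : 0 < τ)
    (h : 4 * n ^ 3 * τ ^ 2 < 1) :
    ∃ f : Fin n → Fin n, (∀ k, τ ≤ |F k (f k)|) ∧ (∑ k, (f k).val + 1 ≤ ∑ i : Fin n, i.val ∨
      (Bijective f ∧ ∀ k, 1 - 2 * n ^ 3 * τ ^ 2 ≤ |F k (f k)|)) := by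
  obtain ⟨f, h1, h2⟩ := stoch_choice (D := fun i k => F k i ^ 2) (fun _ _ => sq_nonneg _)
    (fun k => by rw [← EuclideanSpace.real_norm_sq_eq, F.orthonormal.1 k, one_pow])
    (fun i => by simpa [EuclideanSpace.inner_single_right] using
      F.sum_sq_inner_right (EuclideanSpace.single i 1)) (pow_pos hτ 2) h
  refine ⟨f, fun k => ?_, h2.imp id fun h3 => ⟨h3.1, fun k => (h3.2 k).trans ?_⟩⟩
  · exact (le_abs_self τ).trans (sq_le_sq.1 (h1 k))
  · rw [← sq_abs, sq]
    exact mul_le_of_le_one_right (abs_nonneg _) (abs_coord_le (F.orthonormal.1 k) _)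

variable {m : ℕ}

/-- The geometric scales. -/
def scl (T R : ℝ) (i : Fin (m + 1)) : ℝ := T * R ^ i.val

theorem scl_pos {T R : ℝ} (hT : 0 < T) (hR : 1 ≤ R) (i : Fin (m + 1)) : 0 < scl T R i :=
  mul_pos hT (pow_pos (by linarith) _)

theorem bi_ge {T R : ℝ} (hT : 0 < T) (hR : 1 ≤ R) {u : E (m + 1)} (hu : ‖u‖ = 1)
    (i : Fin (m + 1)) : (|u i| - m / R) / scl T R i ≤ |bi (scl T R) u i| := by
  have hR0 : 0 < R := by linarith
  refine Fin.cases ?_ (fun j => ?_) i
  · simp only [bi, Fin.cons_zero]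
    have h1 : |∑ j : Fin m, u j.succ / scl T R j.succ| ≤ m / R / scl T R (0 : Fin (m + 1)) := by
      refine (Finset.abs_sum_le_sum_abs _ _).trans ((Finset.sum_le_card_nsmul _ _ (1 / (T * R))
        fun j _ => ?_).trans (le_of_eq ?_))
      · rw [abs_div, abs_of_pos (scl_pos hT hR _)]
        refine div_le_div₀ zero_le_one (abs_coord_le hu _) (by positivity) ?_
        exact mul_le_mul_of_nonneg_left (le_self_pow₀ hR (by simp)) hT.le
      · simp [scl]
        field_simp
    have h2 := abs_sub_abs_le_abs_add (u 0 / scl T R (0 : Fin (m + 1)))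
      (∑ j : Fin m, u j.succ / scl T R j.succ)
    rw [abs_div, abs_of_pos (scl_pos hT hR _)] at h2
    rw [sub_div]
    linarith
  · simp only [bi, Fin.cons_succ]
    rw [abs_div, abs_of_pos (scl_pos hT hR _)]
    exact div_le_div_of_nonneg_right (sub_le_self _ (by positivity)) (scl_pos hT hR _).le

theorem Near.Pv_bounds {a : Fin (m + 1) → ℝ} {ρ : ℝ} (h : Near a ρ) (i : Fin (m + 1)) :
    2 ^ m / m.factorial ≤ Pv a i ∧ Pv a i ≤ 2 * (2 ^ m / m.factorial) := by
  unfold Pv
  rw [← mul_div_assoc]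
  have h1 : (2 : ℝ) ^ m * ρ ≤ 2 ^ m * 1 := by
    gcongr
    linarith [h.small]
  constructor <;> refine div_le_div_of_nonneg_right ?_ (by positivity) <;>
    linarith [PhiF_nonneg a i, h.PhiF_le i]

theorem Near.prod_ge (hm : 0 < m) {a : Fin (m + 1) → ℝ} {ρ : ℝ} (h : Near a ρ) {T R τ : ℝ}
    (hT : 0 < T) (hR : 1 ≤ R) (hτ : 0 < τ) (h1 : 4 * (m + 1 : ℕ) ^ 3 * τ ^ 2 < 1)
    (h2 : m / R ≤ τ / 2) (h3 : (4 / τ) ^ (m + 1) ≤ R) (h4 : 2 ^ m * ρ ^ 2 ≤ 1)
    (h5 : 2 * (m + 1 : ℕ) ^ 3 * τ ^ 2 + m / R ≤ 1)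
    (F : OrthonormalBasis (Fin (m + 1)) ℝ (E (m + 1))) :
    (∏ i, (∏ k : Fin (m + 1), scl T R k) * (1 / scl T R i * Pv a i)) *
      ((1 - 2 ^ m * ρ ^ 2) * (1 - (2 * (m + 1 : ℕ) ^ 3 * τ ^ 2 + m / R))) ^ (m + 1) ≤
      ∏ k, projVol (body (scl T R) a) (F k) := by
  obtain ⟨f, hf, hf'⟩ := frame_choice F hτ h1
  have ht := scl_pos (m := m) hT hR
  have hA : 0 < ∏ k : Fin (m + 1), scl T R k := Finset.prod_pos fun k _ => ht k
  have hQ : (0 : ℝ) < 2 ^ m / m.factorial := by positivity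
  have hP : ∀ i, 0 < Pv a i := fun i => hQ.trans_le (h.Pv_bounds i).1
  have hR0 : 0 < R := by linarith
  have key : ∀ k (c : ℝ), c ≤ |F k (f k)| - m / R → (∏ k : Fin (m + 1), scl T R k) *
      (c / scl T R (f k) * (Pv a (f k) * (1 - 2 ^ m * ρ ^ 2))) ≤
      projVol (body (scl T R) a) (F k) := by
    intro k c hc
    refine le_trans ?_ (h.projVol_ge hm ht (F.orthonormal.1 k) (f k))
    refine mul_le_mul_of_nonneg_left (mul_le_mul_of_nonneg_right ?_
      (mul_nonneg (hP _).le (by linarith))) hA.le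
    exact (div_le_div_of_nonneg_right hc (ht _).le).trans (bi_ge hT hR (F.orthonormal.1 k) _)
  generalize ∏ k : Fin (m + 1), scl T R k = A at *
  have e1 : 0 ≤ 1 - 2 ^ m * ρ ^ 2 := by linarith
  have e2 : 0 ≤ 1 - (2 * (m + 1 : ℕ) ^ 3 * τ ^ 2 + m / R) := by linarith
  have e3 : 1 - (2 * (m + 1 : ℕ) ^ 3 * τ ^ 2 + m / R) ≤ 1 := sub_le_self _ (by positivity)
  generalize 1 - 2 ^ m * ρ ^ 2 = η at *
  rw [← Fin.prod_const, ← Finset.prod_mul_distrib]
  rcases hf' with hs | ⟨hb, hs⟩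
  · generalize 1 - (2 * (m + 1 : ℕ) ^ 3 * τ ^ 2 + m / R) = η' at *
    generalize hq : (2 : ℝ) ^ m / m.factorial = Q at *
    have hB := h.Pv_bounds
    rw [hq] at hB
    calc ∏ i, A * (1 / scl T R i * Pv a i) * (η * η')
        ≤ ∏ i : Fin (m + 1), A * (2 * Q) * η / T / R ^ i.val := by
          refine Finset.prod_le_prod (fun i _ => by have := hP i; have := ht i; positivity)
            fun i _ => ?_
          calc A * (1 / scl T R i * Pv a i) * (η * η')
              ≤ A * (1 / scl T R i * (2 * Q)) * (η * 1) := by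
                have := ht i
                have := hP i
                gcongr
                exact (hB i).2
            _ = _ := by
                unfold scl
                field_simp
      _ = (A * Q * η / T) ^ (m + 1) * (2 ^ (m + 1) / R ^ (∑ i : Fin (m + 1), i.val)) := by
          rw [Finset.prod_div_distrib, Finset.prod_pow_eq_pow_sum, Fin.prod_const]
          ring
      _ ≤ (A * Q * η / T) ^ (m + 1) * ((τ / 2) ^ (m + 1) / R ^ (∑ k, (f k).val)) := by
          refine mul_le_mul_of_nonneg_left ?_ (by positivity)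
          rw [div_le_div_iff₀ (by positivity) (by positivity)]
          calc 2 ^ (m + 1) * R ^ (∑ k, (f k).val)
              = (τ / 2) ^ (m + 1) * (R ^ (∑ k, (f k).val) * (4 / τ) ^ (m + 1)) := by
                rw [mul_left_comm, ← mul_pow, mul_comm]
                congr 2
                field_simp
                norm_num
            _ ≤ (τ / 2) ^ (m + 1) * (R ^ (∑ k, (f k).val) * R) := by gcongr
            _ ≤ _ := by
                rw [← pow_succ]
                exact mul_le_mul_of_nonneg_left (pow_le_pow_right₀ hR hs) (by positivity)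
      _ = ∏ k, A * Q * η / T * (τ / 2) / R ^ (f k).val := by
          rw [Finset.prod_div_distrib, Finset.prod_pow_eq_pow_sum, Fin.prod_const]
          ring
      _ ≤ _ := by
          refine Finset.prod_le_prod (fun i _ => by positivity) fun k _ => ?_
          refine le_trans ?_ (key k (τ / 2) (by linarith [hf k]))
          calc A * Q * η / T * (τ / 2) / R ^ (f k).val
              = A * (τ / 2 / scl T R (f k) * (Q * η)) := by
                unfold scl
                field_simp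
            _ ≤ _ := by
                have := ht (f k)
                gcongr
                exact (hB _).1
  · rw [← (Equiv.ofBijective f hb).prod_comp]
    refine Finset.prod_le_prod (fun i _ => by
      have := hP (Equiv.ofBijective f hb i)
      have := ht (Equiv.ofBijective f hb i)
      positivity) fun k _ => ?_
    refine le_trans (le_of_eq ?_) (key k (1 - (2 * (m + 1 : ℕ) ^ 3 * τ ^ 2 + m / R))
      (by linarith [hs k]))
    simp only [Equiv.ofBijective_apply]
    ring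

theorem Near.LW_bounds (hm : 0 < m) {a : Fin (m + 1) → ℝ} {ρ : ℝ} (h : Near a ρ) {T R τ : ℝ}
    (hT : 0 < T) (hR : 1 ≤ R) (hτ : 0 < τ) (h1 : 4 * (m + 1 : ℕ) ^ 3 * τ ^ 2 < 1)
    (h2 : m / R ≤ τ / 2) (h3 : (4 / τ) ^ (m + 1) ≤ R) (h4 : 2 ^ m * ρ ^ 2 < 1)
    (h5 : 2 * (m + 1 : ℕ) ^ 3 * τ ^ 2 + m / R < 1) :
    ((2 ^ (m + 1) + Phi a) / (m + 1).factorial) ^ m / ∏ i, Pv a i ≤ LW (body (scl T R) a) ∧
    LW (body (scl T R) a) ≤ ((2 ^ (m + 1) + Phi a) / (m + 1).factorial) ^ m / (∏ i, Pv a i) /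
      ((1 - 2 ^ m * ρ ^ 2) * (1 - (2 * (m + 1 : ℕ) ^ 3 * τ ^ 2 + m / R))) ^ (m + 1) := by
  have ht := scl_pos (m := m) hT hR
  have hA : 0 < ∏ k : Fin (m + 1), scl T R k := Finset.prod_pos fun k _ => ht k
  have hQ : (0 : ℝ) < 2 ^ m / m.factorial := by positivity
  have hP : ∀ i, 0 < Pv a i := fun i => hQ.trans_le (h.Pv_bounds i).1
  have hPP : 0 < ∏ i, Pv a i := Finset.prod_pos fun i _ => hP i
  have e : ∏ i, (∏ k : Fin (m + 1), scl T R k) * (1 / scl T R i * Pv a i) =
      (∏ k : Fin (m + 1), scl T R k) ^ m * ∏ i, Pv a i := by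
    rw [Finset.prod_mul_distrib, Finset.prod_mul_distrib, Fin.prod_const, Finset.prod_div_distrib]
    field_simp
    simp [pow_succ']
  have hge := h.prod_ge hm hT hR hτ h1 h2 h3 h4.le h5.le
  rw [e] at hge
  have hη : 0 < ((1 - 2 ^ m * ρ ^ 2) * (1 - (2 * (m + 1 : ℕ) ^ 3 * τ ^ 2 + m / R))) ^ (m + 1) :=
    pow_pos (mul_pos (by linarith) (by linarith)) _
  generalize ((1 - 2 ^ m * ρ ^ 2) * (1 - (2 * (m + 1 : ℕ) ^ 3 * τ ^ 2 + m / R))) ^ (m + 1) = η
    at *
  have hV : 0 ≤ (2 ^ (m + 1) + Phi a) / (m + 1).factorial :=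
    div_nonneg (add_nonneg (by positivity) (Phi_nonneg a)) (by positivity)
  have hle : ∀ F : OrthonormalBasis (Fin (m + 1)) ℝ (E (m + 1)),
      euclVol (body (scl T R) a) ^ (m + 1 - 1) / ∏ i, projVol (body (scl T R) a) (F i) ≤
        ((2 ^ (m + 1) + Phi a) / (m + 1).factorial) ^ m / (∏ i, Pv a i) / η := by
    intro F
    rw [euclVol_body ht, Nat.add_sub_cancel]
    refine (div_le_div_of_nonneg_left (by positivity) (by positivity) (hge F)).trans (le_of_eq ?_)
    rw [mul_pow]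
    field_simp
  refine ⟨le_ciSup_of_le ⟨_, forall_mem_range.2 hle⟩ (EuclideanSpace.basisFun (Fin (m + 1)) ℝ) ?_,
    ciSup_le hle⟩
  rw [euclVol_body ht, Nat.add_sub_cancel]
  refine le_trans (le_of_eq ?_) (div_le_div_of_nonneg_left (by positivity)
    (lt_of_lt_of_le (by positivity) (hge _)) (e ▸ Finset.prod_le_prod
      (fun i _ => ENNReal.toReal_nonneg) fun i _ => ?_))
  · rw [mul_pow]
    field_simp
  · rw [EuclideanSpace.basisFun_apply]
    exact h.projVol_le hm ht i

end Pool.Agent.Lib.MP_4bb67e_lc
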