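import Pool.Agent.Lib.MP_4bb67e_lc.Slice

/-!
The volume of the convex hull of the cross-polytope and one more point.
-/

set_option autoImplicit false

namespace Pool.Agent.Lib.MP_4bb67e_lc

open MeasureTheory Set

variable {ι : Type} [Fintype ι] [DecidableEq ι]

/-- The sign of a bit. -/
def sg (b : Bool) : ℝ := if b then 1 else -1

/-- The signed sum of the coordinates. -/
def dot (σ : ι → Bool) (x : ι → ℝ) : ℝ := ∑ j, sg (σ j) * x j

/-- The convex hull of the cross-polytope and the point `p`. -/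
def hull (p : ι → ℝ) : Set (ι → ℝ) := {x | ∃ t ∈ Icc (0 : ℝ) 1, ∑ j, |x j - t * p j| ≤ 1 - t}

/-- The normalised volume added by the point `p`. -/
noncomputable def Phi (p : ι → ℝ) : ℝ := ∑ σ : ι → Bool, max (dot σ p - 1) 0

/-- The closed standard simplex. -/
def spx (ι : Type) [Fintype ι] : Set (ι → ℝ) := {s | (∀ j, 0 ≤ s j) ∧ ∑ j, s j ≤ 1}

/-- The open standard simplex. -/
def spxo (ι : Type) [Fintype ι] : Set (ι → ℝ) := {s | (∀ j, 0 < s j) ∧ ∑ j, s j < 1}

/-- The affine map onto the pyramid over a facet. -/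
def smap (σ : ι → Bool) (p s : ι → ℝ) : ι → ℝ := fun i => (1 - ∑ j, s j) * p i + sg (σ i) * s i

theorem sg_mul_le (b : Bool) (x : ℝ) : sg b * x ≤ |x| := by
  cases b <;> simp [sg, le_abs_self, neg_le_abs]

theorem sg_sq (b : Bool) : sg b * sg b = 1 := by cases b <;> simp [sg]

theorem abs_sg (b : Bool) : |sg b| = 1 := by cases b <;> simp [sg]

theorem sg_decide (x : ℝ) : sg (decide (0 ≤ x)) * x = |x| := by
  by_cases h : 0 ≤ x
  · simp [sg, h, abs_of_nonneg h]
  · simp [sg, h, abs_of_neg (not_le.1 h)]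

omit [DecidableEq ι] in
theorem dot_le (σ : ι → Bool) (x : ι → ℝ) : dot σ x ≤ ∑ j, |x j| :=
  Finset.sum_le_sum fun _ _ => sg_mul_le _ _

omit [DecidableEq ι] in
theorem exists_dot (x : ι → ℝ) : ∃ σ, dot σ x = ∑ j, |x j| :=
  ⟨fun j => decide (0 ≤ x j), Finset.sum_congr rfl fun _ _ => sg_decide _⟩

omit [DecidableEq ι] in
theorem dot_sub (σ : ι → Bool) (x p : ι → ℝ) (t : ℝ) :
    dot σ (fun j => x j - t * p j) = dot σ x - t * dot σ p := by
  simp only [dot, Finset.mul_sum, ← Finset.sum_sub_distrib]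
  exact Finset.sum_congr rfl fun _ _ => by ring

theorem vol_smap (σ : ι → Bool) (p : ι → ℝ) (S : Set (ι → ℝ)) :
    volume (smap σ p '' S) = ENNReal.ofReal |1 - dot σ p| * volume S := by
  let M : Matrix ι ι ℝ := Matrix.diagonal (fun i => sg (σ i)) *
    (1 + Matrix.replicateCol Unit (fun i => -(sg (σ i) * p i)) *
      Matrix.replicateRow Unit (fun _ => (1 : ℝ)))
  have h1 : smap σ p = (fun x => x + p) ∘ Matrix.toLin' M := by
    funext s i
    simp only [smap, Function.comp, Matrix.toLin'_apply, Pi.add_apply, M, ← Matrix.mulVec_mulVec,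
      Matrix.mulVec_diagonal, Matrix.add_mulVec, Matrix.one_mulVec]
    simp only [Matrix.mulVec, dotProduct, Matrix.replicateCol_apply, Matrix.replicateRow_apply,
      one_mul, Finset.univ_unique, Finset.sum_singleton]
    linear_combination (p i * ∑ j, s j) * sg_sq (σ i)
  have h2 : |M.det| = |1 - dot σ p| := by
    rw [Matrix.det_mul, Matrix.det_diagonal, Matrix.det_one_add_replicateCol_mul_replicateRow,
      abs_mul, Finset.abs_prod]
    simp [abs_sg, dotProduct, dot, sub_eq_add_neg]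
  rw [h1, image_comp, image_add_right, measure_preimage_add_right,
    Measure.addHaar_image_linearMap, LinearMap.det_toLin', h2]

omit [DecidableEq ι] in
theorem vol_spxo [Nonempty ι] : volume (spxo ι) = volume (spx ι) := by
  refine le_antisymm (measure_mono fun s hs => ⟨fun j => (hs.1 j).le, hs.2.le⟩)
    (measure_mono_ae ?_)
  have a0 : ∀ᵐ x : ι → ℝ, ∀ i, x i ≠ 0 := ae_all_iff.2 fun i => Measure.ae_eval_ne _ i 0
  let A : AffineSubspace ℝ (ι → ℝ) :=
    { carrier := {s | ∑ j, s j = 1}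
      smul_vsub_vadd_mem' := fun c x y z hx hy hz => by
        simp only [mem_ofPred_eq] at hx hy hz ⊢
        simp [Finset.sum_add_distrib, ← Finset.mul_sum, hx, hy, hz] }
  have a1 : volume (A : Set (ι → ℝ)) = 0 := Measure.addHaar_affineSubspace _ A fun h => by
    have : (0 : ι → ℝ) ∈ A := h ▸ AffineSubspace.mem_top ℝ _ _
    change ∑ _j : ι, (0 : ℝ) = 1 at this
    simp at this
  filter_upwards [a0, measure_eq_zero_iff_ae_notMem.1 a1] with x b0 b1 hx
  exact ⟨fun j => lt_of_le_of_ne (hx.1 j) (b0 j).symm, lt_of_le_of_ne hx.2 b1⟩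

omit [DecidableEq ι] in
theorem hull_cover {p x : ι → ℝ} (hx : x ∈ hull p) :
    (∃ σ, x ∈ smap σ 0 '' spx ι) ∨ ∃ σ, 1 < dot σ p ∧ x ∈ smap σ p '' spx ι := by
  classical
  obtain ⟨t, ⟨h0, h1⟩, ht⟩ := hx
  have key : ∀ σ, dot σ x - 1 ≤ t * (dot σ p - 1) := fun σ => by
    have := (dot_le σ _).trans ht
    rw [dot_sub] at this
    linarith
  by_cases h : ∑ j, |x j| ≤ 1
  · refine Or.inl ⟨fun j => decide (0 ≤ x j), fun j => |x j|, ⟨fun _ => abs_nonneg _, h⟩, ?_⟩
    funext i
    simp only [smap, Pi.zero_apply, mul_zero, zero_add]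
    rw [← sg_decide (x i), ← mul_assoc, sg_sq, one_mul]
  right
  obtain ⟨σ₀, hσ₀⟩ := exists_dot x
  have hv₀ : 1 < dot σ₀ p := by
    by_contra hc
    nlinarith [key σ₀]
  obtain ⟨σ, hσ, hmax⟩ := Finset.exists_max_image (Finset.univ.filter fun σ => 1 < dot σ p)
    (fun σ => (dot σ x - 1) / (dot σ p - 1)) ⟨σ₀, by simpa using hv₀⟩
  have hv : 1 < dot σ p := by simpa using hσ
  set r := (dot σ x - 1) / (dot σ p - 1) with hr
  have r0 : 0 ≤ r := le_trans (div_nonneg (by linarith) (by linarith))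
    (hmax σ₀ (by simpa using hv₀))
  have r1 : r ≤ t := by rw [hr, div_le_iff₀ (by linarith)]; exact key σ
  have r2 : dot σ x - r * dot σ p = 1 - r := by
    have : r * (dot σ p - 1) = dot σ x - 1 := div_mul_cancel₀ _ (by linarith)
    linarith
  have r3 : ∑ j, |x j - r * p j| ≤ 1 - r := by
    obtain ⟨ρ, hρ⟩ := exists_dot (fun j => x j - r * p j)
    rw [← hρ, dot_sub]
    by_cases hc : 1 < dot ρ p
    · have := hmax ρ (by simpa using hc)
      rw [div_le_iff₀ (by linarith)] at this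
      linarith
    · nlinarith [key ρ]
  have r4 : ∀ j, sg (σ j) * (x j - r * p j) = |x j - r * p j| := by
    have := (Finset.sum_eq_sum_iff_of_le (s := Finset.univ)
      (fun j _ => sg_mul_le (σ j) (x j - r * p j))).1 (le_antisymm (dot_le σ _) (by
        change _ ≤ dot σ (fun j => x j - r * p j)
        rw [dot_sub, r2]
        exact r3))
    exact fun j => this j (Finset.mem_univ j)
  have r5 : ∑ j, |x j - r * p j| = 1 - r := by
    rw [← r2, ← dot_sub]
    exact Finset.sum_congr rfl fun j _ => (r4 j).symm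
  refine ⟨σ, hv, fun j => |x j - r * p j|, ⟨fun _ => abs_nonneg _, by linarith⟩, ?_⟩
  funext i
  simp only [smap]
  rw [r5, ← r4, ← mul_assoc, sg_sq]
  ring

/-- The pieces of the decomposition. -/
def piece (p : ι → ℝ) (k : Bool × (ι → Bool)) (S : Set (ι → ℝ)) : Set (ι → ℝ) :=
  smap k.2 (if k.1 then p else 0) '' S

omit [DecidableEq ι] in
theorem piece_spec {p x : ι → ℝ} {k : Bool × (ι → Bool)} (hx : x ∈ piece p k (spxo ι)) :
    ∃ τ : ℝ, 0 ≤ τ ∧ τ ≤ 1 ∧ (k.1 = true ↔ 0 < τ) ∧ (∀ j, 0 < sg (k.2 j) * (x j - τ * p j)) ∧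
      ∑ j, |x j - τ * p j| ≤ 1 - τ ∧ (0 < τ → dot k.2 x - τ * dot k.2 p = 1 - τ) := by
  obtain ⟨b, σ⟩ := k
  obtain ⟨s, ⟨h1, h2⟩, rfl⟩ := hx
  have h3 : 0 ≤ ∑ j, s j := Finset.sum_nonneg fun j _ => (h1 j).le
  have h4 : ∀ j, |sg (σ j) * s j| = s j := fun j => by
    rw [abs_mul, abs_sg, one_mul, abs_of_pos (h1 j)]
  have h5 : ∀ j, sg (σ j) * (sg (σ j) * s j) = s j := fun j => by
    rw [← mul_assoc, sg_sq, one_mul]
  cases b
  · refine ⟨0, le_rfl, zero_le_one, by simp, fun j => ?_, ?_, fun h => absurd h (lt_irrefl _)⟩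
    · simpa [smap, h5] using h1 j
    · simpa [smap, h4] using h2.le
  · refine ⟨1 - ∑ j, s j, by linarith, by linarith, by simpa using h2, fun j => ?_, ?_,
      fun _ => ?_⟩
    · simpa [smap, h5] using h1 j
    · simp [smap, h4]
    · rw [← dot_sub]
      simp [smap, dot, h5]

theorem vol_hull_aux [Nonempty ι] (p : ι → ℝ) :
    volume (hull p) = ENNReal.ofReal (2 ^ Fintype.card ι + Phi p) * volume (spx ι) := by
  classical
  let I : Finset (Bool × (ι → Bool)) := Finset.univ.filter fun k => k.1 = true → 1 < dot k.2 p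
  have hI : ∀ k ∈ I, k.1 = true → 1 < dot k.2 p := fun k hk => (Finset.mem_filter.1 hk).2
  have hne : ∀ k ∈ I, 1 - dot k.2 (if k.1 then p else 0) ≠ 0 := by
    rintro ⟨b, σ⟩ hk
    cases b
    · simp [dot]
    · have := hI _ hk rfl
      simp only [if_true] at this ⊢
      linarith
  have hsum : ∑ k ∈ I, ENNReal.ofReal |1 - dot k.2 (if k.1 then p else 0)| =
      ENNReal.ofReal (2 ^ Fintype.card ι + Phi p) := by
    rw [← ENNReal.ofReal_sum_of_nonneg fun _ _ => abs_nonneg _, Finset.sum_filter,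
      Fintype.sum_prod_type, Fintype.sum_bool, add_comm]
    congr 2
    · simp [dot]
    · refine Finset.sum_congr rfl fun σ _ => ?_
      simp only [if_true, forall_const]
      split_ifs with h
      · rw [abs_sub_comm, abs_of_pos (by linarith), max_eq_left (by linarith)]
      · rw [max_eq_right (by linarith)]
  have hv : ∀ S, ∑ k ∈ I, volume (piece p k S) =
      ENNReal.ofReal (2 ^ Fintype.card ι + Phi p) * volume S := fun S => by
    rw [← hsum, Finset.sum_mul]
    exact Finset.sum_congr rfl fun k _ => vol_smap _ _ _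
  refine le_antisymm ?_ ?_
  · rw [← hv]
    refine le_trans (measure_mono fun x hx => ?_) (measure_biUnion_finset_le I _)
    simp only [mem_iUnion]
    rcases hull_cover hx with ⟨σ, h⟩ | ⟨σ, h1, h⟩
    · exact ⟨(false, σ), by simp [I], h⟩
    · exact ⟨(true, σ), by simp [I, h1], h⟩
  have hm : ∀ k ∈ I, MeasurableSet (piece p k (spxo ι)) := by
    intro k hk
    have h1 : MeasurableSet (spxo ι) := by
      refine MeasurableSet.inter (s₁ := {s : ι → ℝ | ∀ j, 0 < s j}) ?_
        (measurableSet_lt (f := fun s : ι → ℝ => ∑ j, s j) (by fun_prop) measurable_const)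
      rw [ofPred_forall]
      exact MeasurableSet.iInter fun i => measurableSet_lt measurable_const (by fun_prop)
    refine h1.image_of_continuousOn_injOn (Continuous.continuousOn (by unfold smap; fun_prop)) ?_
    intro s _ s' _ e
    have e1 : dot k.2 (smap k.2 (if k.1 then p else 0) s) =
        dot k.2 (smap k.2 (if k.1 then p else 0) s') := by rw [e]
    have e2 : ∀ s, dot k.2 (smap k.2 (if k.1 then p else 0) s) =
        (1 - ∑ j, s j) * dot k.2 (if k.1 then p else 0) + ∑ j, s j := fun s => by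
      simp only [dot, smap, mul_add, Finset.sum_add_distrib, ← mul_assoc, sg_sq, one_mul,
        Finset.mul_sum]
      congr 1
      exact Finset.sum_congr rfl fun _ _ => by ring
    rw [e2, e2] at e1
    have e3 : ∑ j, s j = ∑ j, s' j := mul_right_cancel₀ (hne k hk) (by linarith)
    funext i
    have e4 := congrFun e i
    simp only [smap, e3, add_right_inj] at e4
    exact mul_left_cancel₀ (by cases k.2 i <;> simp [sg]) e4
  have hlt : ∀ k ∈ I, ∀ x : ι → ℝ, ∀ τ τ' : ℝ, 0 ≤ τ → τ < τ' → ∑ j, |x j - τ * p j| ≤ 1 - τ →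
      (k.1 = true ↔ 0 < τ') → (0 < τ' → dot k.2 x - τ' * dot k.2 p = 1 - τ') → False := by
    intro k hk x τ τ' h0 h1 h2 h3 h4
    have a1 := hI k hk (h3.2 (by linarith))
    have a2 := h4 (by linarith)
    have a3 := (dot_le k.2 _).trans h2
    rw [dot_sub] at a3
    nlinarith
  have hd : (I : Set (Bool × (ι → Bool))).PairwiseDisjoint fun k => piece p k (spxo ι) := by
    intro k hk k' hk' hkk
    refine Set.disjoint_left.2 fun x hx hx' => hkk ?_
    obtain ⟨τ, a0, -, a1, a2, a3, a4⟩ := piece_spec hx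
    obtain ⟨τ', b0, -, b1, b2, b3, b4⟩ := piece_spec hx'
    rcases lt_trichotomy τ τ' with h | h | h
    · exact (hlt k' hk' x τ τ' a0 h a3 b1 b4).elim
    · subst h
      refine Prod.ext (Bool.eq_iff_iff.2 (a1.trans b1.symm)) (funext fun j => ?_)
      have c1 := a2 j
      have c2 := b2 j
      revert c1 c2
      cases k.2 j <;> cases k'.2 j <;> simp [sg] <;> intro c1 <;> linarith
    · exact (hlt k hk x τ' τ b0 h b3 a1 a4).elim
  rw [← vol_spxo, ← hv, ← measure_biUnion_finset hd hm]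
  refine measure_mono fun x hx => ?_
  simp only [mem_iUnion] at hx
  obtain ⟨k, -, hx⟩ := hx
  obtain ⟨τ, a0, a1, -, -, a3, -⟩ := piece_spec hx
  exact ⟨τ, ⟨a0, a1⟩, a3⟩

theorem Phi_nonneg (p : ι → ℝ) : 0 ≤ Phi p := Finset.sum_nonneg fun _ _ => le_max_right _ _

theorem vol_hull [Nonempty ι] (p : ι → ℝ) :
    volume (hull p) = ENNReal.ofReal ((2 ^ Fintype.card ι + Phi p) / (Fintype.card ι).factorial) := by
  have h1 := vol_hull_aux (0 : ι → ℝ)
  have h2 := volume_sum_rpow_le ι (p := 1) le_rfl 1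
  have h3 : hull (0 : ι → ℝ) = {x : ι → ℝ | (∑ i, |x i| ^ (1 : ℝ)) ^ (1 / (1 : ℝ)) ≤ 1} := by
    ext x
    simp only [hull, Pi.zero_apply, mul_zero, sub_zero, mem_ofPred_eq, Real.rpow_one, div_one]
    exact ⟨fun ⟨t, ht, h⟩ => by linarith [ht.1], fun h => ⟨0, by simp, by simpa using h⟩⟩
  have h4 : Phi (0 : ι → ℝ) = 0 := by simp [Phi, dot]
  rw [h3, h2, h4] at h1
  simp only [ENNReal.ofReal_one, one_pow, one_mul, div_one, add_zero, Real.Gamma_nat_eq_factorial,
    show Real.Gamma (1 + 1) = 1 by rw [show (1 : ℝ) + 1 = 2 by norm_num, Real.Gamma_two],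
    mul_one] at h1
  have h5 : volume (spx ι) = ENNReal.ofReal (1 / (Fintype.card ι).factorial) := by
    have hp : ENNReal.ofReal (2 ^ Fintype.card ι) ≠ 0 := by simp
    refine ((ENNReal.mul_right_inj hp ENNReal.ofReal_ne_top).1 ?_).symm
    rw [← h1, ← ENNReal.ofReal_mul (by positivity), mul_one_div]
  rw [vol_hull_aux, h5, ← ENNReal.ofReal_mul (add_nonneg (by positivity) (Phi_nonneg p)),
    mul_one_div]

omit [DecidableEq ι] in
theorem isCompact_hull (p : ι → ℝ) : IsCompact (hull p) := by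
  have h1 : IsCompact (Icc (0 : ℝ) 1 ×ˢ Icc (fun _ : ι => (-1 : ℝ)) (fun _ => 1) ∩
      {z : ℝ × (ι → ℝ) | ∑ j, |z.2 j| ≤ 1 - z.1}) :=
    (isCompact_Icc.prod isCompact_Icc).inter_right (isClosed_le (by fun_prop) (by fun_prop))
  have h2 := h1.image (f := fun z : ℝ × (ι → ℝ) => fun j => z.2 j + z.1 * p j) (by fun_prop)
  refine (Set.ext fun x => ?_ : _ = hull p) ▸ h2
  constructor
  · rintro ⟨⟨t, y⟩, ⟨⟨h3, -⟩, h4⟩, rfl⟩
    exact ⟨t, h3, by simpa using h4⟩
  · rintro ⟨t, h3, h4⟩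
    have h5 : ∀ j, |x j - t * p j| ≤ 1 := fun j => by
      have := Finset.single_le_sum (f := fun j => |x j - t * p j|) (fun _ _ => abs_nonneg _)
        (Finset.mem_univ j)
      linarith [h3.1]
    exact ⟨(t, fun j => x j - t * p j), ⟨⟨h3, fun j => (abs_le.1 (h5 j)).1,
      fun j => (abs_le.1 (h5 j)).2⟩, h4⟩, by simp⟩

end Pool.Agent.Lib.MP_4bb67e_lc
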