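import Pool.Agent.Lib.MP_4bb67e_lc.Hull

/-!
Orthogonal projections of a linear image in terms of oblique projections.
-/

set_option autoImplicit false

namespace Pool.Agent.Lib.MP_4bb67e_lc

open MeasureTheory Set Function

/-- The projection along `w` onto the coordinate hyperplane `x i = 0`. -/
def obl {m : ℕ} (i : Fin (m + 1)) (w x : Fin (m + 1) → ℝ) : Fin m → ℝ :=
  fun j => x (i.succAbove j) - x i * w (i.succAbove j)

theorem obl_cont {m : ℕ} (i : Fin (m + 1)) (w : Fin (m + 1) → ℝ) : Continuous (obl i w) := by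
  unfold obl
  fun_prop

theorem vol_cyl {m : ℕ} (i : Fin (m + 1)) {Q : Set (Fin m → ℝ)} (hQ : MeasurableSet Q) :
    volume {x : Fin (m + 1) → ℝ | x i ∈ Icc (0 : ℝ) 1 ∧ (fun j => x (i.succAbove j)) ∈ Q} =
      volume Q := by
  have h := (volume_preserving_piFinSuccAbove (fun _ : Fin (m + 1) => ℝ) i).measure_preimage
    (s := Icc (0 : ℝ) 1 ×ˢ Q) (measurableSet_Icc.prod hQ).nullMeasurableSet
  rw [Measure.volume_eq_prod, Measure.prod_prod, Real.volume_Icc] at h
  simp only [sub_zero, ENNReal.ofReal_one, one_mul] at h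
  exact h

theorem vol_proj_image {m : ℕ} {u : E (m + 1)} (hu : ‖u‖ = 1)
    (B : (Fin (m + 1) → ℝ) →ₗ[ℝ] (Fin (m + 1) → ℝ)) (hB : Injective B) {v : Fin (m + 1) → ℝ}
    (hv : B v = u.ofLp) {i : Fin (m + 1)} (hi : v i ≠ 0) {S : Set (Fin (m + 1) → ℝ)}
    (hS : IsCompact S) :
    volume ((ℝ ∙ u)ᗮ.orthogonalProjectionOnto '' (WithLp.ofLp ⁻¹' (B '' S))) =
      ENNReal.ofReal |LinearMap.det B| * (ENNReal.ofReal |v i| *
        volume (obl i (fun j => v j / v i) '' S)) := by
  set w : Fin (m + 1) → ℝ := fun j => v j / v i with hw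
  have hQ : IsCompact (obl i w '' S) := hS.image (obl_cont i w)
  have cB : Continuous B := B.continuous_of_finiteDimensional
  set T : Set (Fin (m + 1) → ℝ) :=
    {x | x i ∈ Icc (0 : ℝ) 1 ∧ (fun j => x (i.succAbove j)) ∈ obl i w '' S} with hT
  have mT : MeasurableSet T :=
    (measurable_pi_apply i measurableSet_Icc).inter
      ((show Measurable fun (x : Fin (m + 1) → ℝ) j => x (i.succAbove j) by fun_prop)
        hQ.measurableSet)
  have mT2 : MeasurableSet (B '' (shear v i 0 '' T)) :=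
    (mT.image_of_continuousOn_injOn (Continuous.continuousOn (by unfold shear; fun_prop))
      (shear_inj hi 0).injOn).image_of_continuousOn_injOn cB.continuousOn hB.injOn
  have key : ∀ (x y : Fin (m + 1) → ℝ), (fun j => y (i.succAbove j)) = obl i w x →
      update y i 0 = x - (x i / v i) • v := by
    intro x y h
    funext k
    refine i.succAboveCases ?_ (fun j => ?_) k
    · simp [hi]
    · rw [update_of_ne (Fin.succAbove_ne i j), congrFun h j]
      simp only [obl, hw, Pi.sub_apply, Pi.smul_apply, smul_eq_mul]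
      ring
  have hc : IsCompact (WithLp.ofLp ⁻¹' (B '' S) : Set (E (m + 1))) :=
    (PiLp.homeomorph 2 (fun _ : Fin (m + 1) => ℝ)).isCompact_preimage.2 (hS.image cB)
  rw [← vol_cyl i hQ.measurableSet, ← vol_shear v i 0, ← Measure.addHaar_image_linearMap,
    vol_eq_lintegral hu mT2,
    ← lintegral_indicator_one (hc.image (ContinuousLinearMap.continuous _)).measurableSet]
  refine lintegral_congr fun q => ?_
  by_cases hq : q ∈ (ℝ ∙ u)ᗮ.orthogonalProjectionOnto '' (WithLp.ofLp ⁻¹' (B '' S))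
  · rw [indicator_of_mem hq]
    obtain ⟨y, ⟨x, hx, hxy⟩, hyq⟩ := hq
    obtain ⟨c, hc⟩ : ∃ c : ℝ, (q : E (m + 1)).ofLp = B x + c • u.ofLp := by
      have h1 := Submodule.sub_starProjection_mem_orthogonal (K := (ℝ ∙ u)ᗮ) y
      rw [Submodule.orthogonal_orthogonal, Submodule.mem_span_singleton] at h1
      obtain ⟨c, hc⟩ := h1
      refine ⟨-c, ?_⟩
      have h2 : (q : E (m + 1)) = y - c • u := by
        rw [hc, ← hyq]
        simp
      rw [h2, hxy]
      simp [sub_eq_add_neg]
    have e : {t : ℝ | (q : E (m + 1)).ofLp + t • u.ofLp ∈ B '' (shear v i 0 '' T)} =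
        Icc (-(c + x i / v i)) (1 - (c + x i / v i)) := by
      ext t
      simp only [mem_ofPred_eq, mem_Icc]
      constructor
      · rintro ⟨_, ⟨z, hz, rfl⟩, h⟩
        rw [hc, ← hv, ← map_smul, ← map_smul, ← map_add, ← map_add] at h
        have h1 := congrFun (hB h) i
        simp only [shear, Pi.add_apply, update_self, Pi.smul_apply, smul_eq_mul] at h1
        have h2 : z i = c + x i / v i + t := by
          field_simp
          linarith
        constructor <;> linarith [hz.1.1, hz.1.2]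
      · intro h
        refine ⟨_, ⟨i.insertNth (c + x i / v i + t) (obl i w x),
          ⟨by rw [Fin.insertNth_apply_same]; constructor <;> linarith [h.1, h.2],
            ⟨x, hx, by funext j; rw [Fin.insertNth_apply_succAbove]⟩⟩, rfl⟩, ?_⟩
        rw [shear, key x _ (by funext j; rw [Fin.insertNth_apply_succAbove]),
          Fin.insertNth_apply_same, hc, ← hv, ← map_smul, ← map_smul, ← map_add, ← map_add]
        congr 1
        module
    rw [e, Real.volume_Icc, show 1 - (c + x i / v i) - -(c + x i / v i) = 1 by ring]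
    simp
  · rw [indicator_of_notMem hq]
    refine (measure_mono_null (fun t ht => ?_) measure_empty).symm
    obtain ⟨_, ⟨z, ⟨-, x, hx, hxz⟩, rfl⟩, h⟩ := ht
    refine hq ⟨_, ⟨x, hx, ?_⟩, proj_eq q (t - z i + x i / v i)⟩
    rw [shear, key x z hxz.symm, map_add, map_sub, map_smul, map_smul, hv] at h
    change B x = (q : E (m + 1)).ofLp + (t - z i + x i / v i) • u.ofLp
    rw [eq_sub_of_add_eq h.symm]
    module

theorem hull_obl_sub {m : ℕ} (i : Fin (m + 1)) (w a : Fin (m + 1) → ℝ) :
    hull (obl i w a) ⊆ obl i w '' hull a := by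
  rintro y ⟨t, ht, h⟩
  refine ⟨fun k => t * a k +
      i.insertNth (α := fun _ => ℝ) (0 : ℝ) (fun j => y j - t * obl i w a j) k,
    ⟨t, ht, ?_⟩, ?_⟩
  · rw [Fin.sum_univ_succAbove _ i]
    simpa using h
  · funext j
    simp [obl]
    ring

theorem hull_obl_sub' {m : ℕ} (i : Fin (m + 1)) (w a : Fin (m + 1) → ℝ) :
    hull (fun j => -w (i.succAbove j)) ⊆ obl i w '' hull a := by
  rintro y ⟨t, ht, h⟩
  refine ⟨i.insertNth t (fun j => y j - t * -w (i.succAbove j)), ⟨0, by simp, ?_⟩, ?_⟩
  · rw [Fin.sum_univ_succAbove _ i]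
    simp only [Fin.insertNth_apply_same, zero_mul, sub_zero, Fin.insertNth_apply_succAbove,
      abs_of_nonneg ht.1]
    linarith
  · funext j
    simp [obl]

theorem obl_hull_sub {m : ℕ} (i : Fin (m + 1)) {w : Fin (m + 1) → ℝ}
    (hw : ∑ j, |w (i.succAbove j)| ≤ 1) (a : Fin (m + 1) → ℝ) :
    obl i w '' hull a ⊆ hull (obl i w a) := by
  rintro _ ⟨x, ⟨t, ht, h⟩, rfl⟩
  refine ⟨t, ht, le_trans ?_ h⟩
  rw [Fin.sum_univ_succAbove _ i]
  have h1 : ∀ j, |obl i w x j - t * obl i w a j| ≤
      |x (i.succAbove j) - t * a (i.succAbove j)| + |x i - t * a i| * |w (i.succAbove j)| := by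
    intro j
    rw [← abs_mul]
    refine le_trans (le_of_eq ?_) (abs_sub _ _)
    simp only [obl]
    congr 1
    ring
  refine (Finset.sum_le_sum fun j _ => h1 j).trans ?_
  rw [Finset.sum_add_distrib, ← Finset.mul_sum]
  linarith [mul_le_of_le_one_right (abs_nonneg (x i - t * a i)) hw]

variable {ι : Type} [Fintype ι] [DecidableEq ι]

omit [DecidableEq ι] in
theorem convex_hull (p : ι → ℝ) : Convex ℝ (hull p) := by
  rintro x ⟨t, ht, h⟩ y ⟨s, hs, h'⟩ α β hα hβ hαβ
  refine ⟨α * t + β * s, ⟨by nlinarith [ht.1, hs.1], by nlinarith [ht.2, hs.2]⟩, ?_⟩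
  have h1 : ∀ j, |(α • x + β • y) j - (α * t + β * s) * p j| ≤
      α * |x j - t * p j| + β * |y j - s * p j| := by
    intro j
    rw [← abs_of_nonneg hα, ← abs_mul, abs_of_nonneg hα, ← abs_of_nonneg hβ, ← abs_mul,
      abs_of_nonneg hβ]
    refine le_trans (le_of_eq ?_) (abs_add_le _ _)
    simp only [Pi.add_apply, Pi.smul_apply, smul_eq_mul]
    congr 1
    ring
  refine (Finset.sum_le_sum fun j _ => h1 j).trans ?_
  rw [Finset.sum_add_distrib, ← Finset.mul_sum, ← Finset.mul_sum]
  nlinarith [mul_le_mul_of_nonneg_left h hα, mul_le_mul_of_nonneg_left h' hβ]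

/-- The vertices. -/
def verts (p : ι → ℝ) : Set (ι → ℝ) := {x | x = p ∨ ∃ j b, x = Pi.single j (sg b)}

theorem convexHull_verts [Nonempty ι] (p : ι → ℝ) : convexHull ℝ (verts p) = hull p := by
  refine Subset.antisymm (convexHull_min ?_ (convex_hull p)) ?_
  · rintro x (rfl | ⟨j, b, rfl⟩)
    · exact ⟨1, by simp, by simp⟩
    · refine ⟨0, by simp, ?_⟩
      rw [Finset.sum_eq_single j (fun k _ hk => by simp [hk]) (by simp)]
      simp [abs_sg]
  rintro x ⟨t, ht, h⟩
  have hC := convex_convexHull ℝ (verts p)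
  have h1 : ∀ j b, Pi.single j (sg b) ∈ convexHull ℝ (verts p) := fun j b =>
    subset_convexHull ℝ _ (Or.inr ⟨j, b, rfl⟩)
  have h0 : (0 : ι → ℝ) ∈ convexHull ℝ (verts p) := by
    obtain ⟨j⟩ := ‹Nonempty ι›
    have := hC (h1 j true) (h1 j false) (a := 1 / 2) (b := 1 / 2) (by norm_num) (by norm_num)
      (by norm_num)
    refine (?_ : _ = (0 : ι → ℝ)) ▸ this
    rw [← smul_add, ← Pi.single_add]
    simp [sg]
  have h2 := hC.sum_mem (t := (Finset.univ : Finset (Option (Option ι))))
    (w := fun k => k.elim t fun k => k.elim (1 - t - ∑ j, |x j - t * p j|) fun j => |x j - t * p j|)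
    (z := fun k => k.elim p fun k => k.elim 0 fun j =>
      Pi.single j (sg (decide (0 ≤ x j - t * p j)))) ?_ ?_ ?_
  · refine (?_ : _ = x) ▸ h2
    funext k
    simp only [Fintype.sum_option, Option.elim, zero_add, Pi.smul_apply, Pi.zero_apply, mul_zero,
      smul_eq_mul, Finset.sum_apply]
    rw [Finset.sum_eq_single k (fun j _ hj => by simp [Ne.symm hj]) (by simp), Pi.single_eq_same,
      ← sg_decide (x k - t * p k), mul_right_comm, sg_sq]
    ring
  · rintro (_ | _ | j) _
    · exact ht.1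
    · simp only [Option.elim]
      linarith
    · exact abs_nonneg _
  · simp [Fintype.sum_option]
  · rintro (_ | _ | j) _
    · exact subset_convexHull ℝ _ (Or.inl rfl)
    · exact h0
    · exact h1 _ _

end Pool.Agent.Lib.MP_4bb67e_lc
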