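import Pool.Agent.Lib.MP_4bb67e_lc.Obl
import Pool.Agent.Lib.MP_4bb67e_lc.Frame

/-!
Bounds for the projections of the distorted polytope.
-/

set_option autoImplicit false

namespace Pool.Agent.Lib.MP_4bb67e_lc

open MeasureTheory Set Function

variable {m : ℕ}

/-- The triangular distortion. -/
noncomputable def bf (t : Fin (m + 1) → ℝ) : (Fin (m + 1) → ℝ) →ₗ[ℝ] (Fin (m + 1) → ℝ) :=
  Matrix.toLin' (Matrix.of fun i j => if i = j then t i else if i = 0 then -t 0 else 0)

theorem bf_zero (t x : Fin (m + 1) → ℝ) : bf t x 0 = t 0 * (x 0 - ∑ j : Fin m, x j.succ) := by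
  rw [mul_sub, Finset.mul_sum]
  simp [bf, Matrix.mulVec, dotProduct, Fin.sum_univ_succ, (Fin.succ_ne_zero _).symm,
    sub_eq_add_neg]

theorem bf_succ (t x : Fin (m + 1) → ℝ) (j : Fin m) : bf t x j.succ = t j.succ * x j.succ := by
  simp [bf, Matrix.mulVec, dotProduct, Fin.succ_ne_zero]

theorem det_bf (t : Fin (m + 1) → ℝ) : LinearMap.det (bf t) = ∏ i, t i := by
  rw [bf, LinearMap.det_toLin', Matrix.det_of_isUpperTriangular]
  · simp
  · intro i j h
    have h1 : j < i := h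
    have h2 : i ≠ 0 := fun e => by simp [e] at h1
    simp [h1.ne', h2]

/-- The inverse of the distortion. -/
noncomputable def bi (t u : Fin (m + 1) → ℝ) : Fin (m + 1) → ℝ :=
  Fin.cons (u 0 / t 0 + ∑ j : Fin m, u j.succ / t j.succ) fun j => u j.succ / t j.succ

theorem bf_bi {t : Fin (m + 1) → ℝ} (ht : ∀ i, 0 < t i) (u : Fin (m + 1) → ℝ) :
    bf t (bi t u) = u := by
  funext i
  refine Fin.cases ?_ (fun j => ?_) i
  · rw [bf_zero]
    simp only [bi, Fin.cons_zero, Fin.cons_succ, add_sub_cancel_right]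
    exact mul_div_cancel₀ _ (ht 0).ne'
  · rw [bf_succ]
    simp only [bi, Fin.cons_succ]
    exact mul_div_cancel₀ _ (ht _).ne'

theorem bf_inj {t : Fin (m + 1) → ℝ} (ht : ∀ i, 0 < t i) : Injective (bf t) :=
  (LinearMap.injective_iff_surjective (f := bf t)).2 fun u => ⟨_, bf_bi ht u⟩

/-- The polytope. -/
def body (t a : Fin (m + 1) → ℝ) : Set (E (m + 1)) := WithLp.ofLp ⁻¹' (bf t '' hull a)

/-- The part of `Phi` coming from sign vectors that are negative at `i`. -/
noncomputable def PhiF (a : Fin (m + 1) → ℝ) (i : Fin (m + 1)) : ℝ :=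
  ∑ σ : Fin (m + 1) → Bool, if σ i = false then max (dot σ a - 1) 0 else 0

/-- The smallest oblique projections. -/
noncomputable def Pv (a : Fin (m + 1) → ℝ) (i : Fin (m + 1)) : ℝ :=
  (2 ^ m + PhiF a i) / m.factorial

theorem sum_false (i : Fin (m + 1)) (g : (Fin (m + 1) → Bool) → ℝ) :
    ∑ σ : Fin (m + 1) → Bool, (if σ i = false then g σ else 0) =
      ∑ σ : Fin m → Bool, g (i.insertNth false σ) := by
  rw [← (Fin.insertNthEquiv (fun _ => Bool) i).sum_comp, Fintype.sum_prod_type, Fintype.sum_bool]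
  simp [Fin.insertNthEquiv]

theorem dot_insert (i : Fin (m + 1)) (σ : Fin m → Bool) (x : Fin (m + 1) → ℝ) :
    dot (i.insertNth false σ) x = -x i + dot σ fun j => x (i.succAbove j) := by
  unfold dot
  rw [Fin.sum_univ_succAbove _ i]
  simp [sg]

theorem Phi_obl (i : Fin (m + 1)) {w : Fin (m + 1) → ℝ} (hw : w i = 1) (a : Fin (m + 1) → ℝ) :
    Phi (obl i w a) =
      ∑ σ : Fin (m + 1) → Bool, if σ i = false then max (dot σ a - a i * dot σ w - 1) 0 else 0 := by
  rw [sum_false i fun σ => max (dot σ a - a i * dot σ w - 1) 0]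
  refine Finset.sum_congr rfl fun σ _ => ?_
  rw [dot_insert, dot_insert, hw]
  unfold obl
  rw [dot_sub]
  congr 1
  ring

/-- The extra vertex is close to the first unit vector. -/
structure Near (a : Fin (m + 1) → ℝ) (ρ : ℝ) : Prop where
  pos : ∀ j : Fin m, 0 ≤ a j.succ
  le : |a 0 - 1| + ∑ j : Fin m, a j.succ ≤ ρ
  small : ρ ≤ 1 / 2

theorem Near.dot_tail {a : Fin (m + 1) → ℝ} {ρ : ℝ} (h : Near a ρ) (σ : Fin (m + 1) → Bool) :
    dot σ a ≤ sg (σ 0) * a 0 + ∑ j : Fin m, a j.succ := by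
  unfold dot
  rw [Fin.sum_univ_succ]
  refine add_le_add le_rfl (Finset.sum_le_sum fun j _ => (sg_mul_le _ _).trans ?_)
  rw [abs_of_nonneg (h.pos j)]

theorem Near.dot_false {a : Fin (m + 1) → ℝ} {ρ : ℝ} (h : Near a ρ) {σ : Fin (m + 1) → Bool}
    (h0 : σ 0 = false) : dot σ a ≤ ρ - 1 := by
  have h1 := h.dot_tail σ
  simp only [h0, sg, Bool.false_eq_true, if_false] at h1
  linarith [h.le, neg_le_abs (a 0 - 1)]

theorem Near.nonneg {a : Fin (m + 1) → ℝ} {ρ : ℝ} (h : Near a ρ) : 0 ≤ ρ :=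
  le_trans (add_nonneg (abs_nonneg _) (Finset.sum_nonneg fun j _ => h.pos j)) h.le

theorem Near.mx_le {a : Fin (m + 1) → ℝ} {ρ : ℝ} (h : Near a ρ) (σ : Fin (m + 1) → Bool) :
    max (dot σ a - 1) 0 ≤ ρ := by
  refine max_le ?_ h.nonneg
  cases h0 : σ 0
  · linarith [h.dot_false h0]
  · have h1 := h.dot_tail σ
    simp only [h0, sg, if_true] at h1
    linarith [h.le, le_abs_self (a 0 - 1)]

theorem Near.le_rho {a : Fin (m + 1) → ℝ} {ρ : ℝ} (h : Near a ρ) (j : Fin m) : a j.succ ≤ ρ := by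
  have := Finset.single_le_sum (f := fun j : Fin m => a j.succ) (fun j _ => h.pos j)
    (Finset.mem_univ j)
  linarith [h.le, abs_nonneg (a 0 - 1)]

theorem PhiF_nonneg (a : Fin (m + 1) → ℝ) (i : Fin (m + 1)) : 0 ≤ PhiF a i :=
  Finset.sum_nonneg fun _ _ => by split_ifs <;> simp

theorem Near.PhiF_le {a : Fin (m + 1) → ℝ} {ρ : ℝ} (h : Near a ρ) (i : Fin (m + 1)) :
    PhiF a i ≤ 2 ^ m * ρ := by
  rw [PhiF, sum_false i fun σ => max (dot σ a - 1) 0]
  simpa using Finset.sum_le_card_nsmul Finset.univ _ _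
    fun (σ : Fin m → Bool) _ => h.mx_le (i.insertNth false σ)

theorem Near.Phi_le {a : Fin (m + 1) → ℝ} {ρ : ℝ} (h : Near a ρ) : Phi a ≤ 2 ^ (m + 1) * ρ := by
  simpa [Phi] using Finset.sum_le_card_nsmul Finset.univ _ _
    fun (σ : Fin (m + 1) → Bool) _ => h.mx_le σ

theorem Near.PhiF_zero {a : Fin (m + 1) → ℝ} {ρ : ℝ} (h : Near a ρ) : PhiF a 0 = 0 :=
  Finset.sum_eq_zero fun σ _ => by
    split_ifs with h0
    · exact max_eq_right (by linarith [h.dot_false h0, h.small])
    · rfl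

theorem Near.Phi_obl_ge {a : Fin (m + 1) → ℝ} {ρ : ℝ} (h : Near a ρ) (i : Fin (m + 1))
    {w : Fin (m + 1) → ℝ} (hw : w i = 1) (h1 : ∑ j, |w (i.succAbove j)| ≤ 1 + 2 ^ m * ρ) :
    PhiF a i - 2 ^ m * (ρ * (2 ^ m * ρ)) ≤ Phi (obl i w a) := by
  have hρ := h.nonneg
  have h2 : 0 ≤ ρ * (2 ^ m * ρ) := by positivity
  refine Fin.cases (motive := fun k => k = i → PhiF a i - 2 ^ m * (ρ * (2 ^ m * ρ)) ≤
    Phi (obl i w a)) ?_ (fun j => ?_) i rfl
  · rintro rfl
    rw [h.PhiF_zero]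
    have : 0 ≤ 2 ^ m * (ρ * (2 ^ m * ρ)) := by positivity
    linarith [Phi_nonneg (obl 0 w a)]
  · rintro rfl
    rw [Phi_obl _ hw, PhiF, sum_false _ fun σ => max (dot σ a - 1) 0,
      sum_false _ fun σ => max (dot σ a - a j.succ * dot σ w - 1) 0]
    have h3 : (2 : ℝ) ^ m * (ρ * (2 ^ m * ρ)) = ∑ _σ : Fin m → Bool, ρ * (2 ^ m * ρ) := by simp
    rw [h3, ← Finset.sum_sub_distrib]
    refine Finset.sum_le_sum fun σ _ => ?_
    have h4 : dot (j.succ.insertNth false σ) w ≤ 2 ^ m * ρ := by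
      rw [dot_insert, hw]
      linarith [dot_le σ fun k => w (j.succ.succAbove k)]
    have h5 : a j.succ * dot (j.succ.insertNth false σ) w ≤ ρ * (2 ^ m * ρ) :=
      (mul_le_mul_of_nonneg_left h4 (h.pos j)).trans
        (mul_le_mul_of_nonneg_right (h.le_rho j) (by positivity))
    rw [sub_le_iff_le_add]
    refine max_le ?_ (add_nonneg (le_max_right _ _) h2)
    linarith [le_max_left (dot (j.succ.insertNth false σ) a -
      a j.succ * dot (j.succ.insertNth false σ) w - 1) 0]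

theorem vol_hull_real (hm : 0 < m) (p : Fin m → ℝ) :
    (volume (hull p)).toReal = (2 ^ m + Phi p) / m.factorial := by
  have : Nonempty (Fin m) := ⟨⟨0, hm⟩⟩
  rw [vol_hull, Fintype.card_fin, ENNReal.toReal_ofReal]
  exact div_nonneg (add_nonneg (by positivity) (Phi_nonneg p)) (by positivity)

theorem Near.vol_obl_ge (hm : 0 < m) {a : Fin (m + 1) → ℝ} {ρ : ℝ} (h : Near a ρ)
    (i : Fin (m + 1)) {w : Fin (m + 1) → ℝ} (hw : w i = 1) :
    Pv a i * (1 - 2 ^ m * ρ ^ 2) ≤ (volume (obl i w '' hull a)).toReal := by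
  have hfin : volume (obl i w '' hull a) ≠ ⊤ :=
    ((isCompact_hull a).image (obl_cont i w)).measure_lt_top.ne
  have hρ := h.nonneg
  have key : ∀ p : Fin m → ℝ, hull p ⊆ obl i w '' hull a →
      PhiF a i - 2 ^ m * (ρ * (2 ^ m * ρ)) ≤ Phi p →
      Pv a i * (1 - 2 ^ m * ρ ^ 2) ≤ (volume (obl i w '' hull a)).toReal := by
    intro p h1 h2
    refine le_trans ?_ (ENNReal.toReal_mono hfin (measure_mono h1))
    rw [vol_hull_real hm, Pv, div_mul_eq_mul_div]
    refine div_le_div_of_nonneg_right ?_ (by positivity)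
    have : 0 ≤ PhiF a i * (2 ^ m * ρ ^ 2) := mul_nonneg (PhiF_nonneg a i) (by positivity)
    nlinarith
  by_cases h1 : ∑ j, |w (i.succAbove j)| ≤ 1 + 2 ^ m * ρ
  · exact key _ (hull_obl_sub i w a) (h.Phi_obl_ge i hw h1)
  · refine key _ (hull_obl_sub' i w a) ?_
    obtain ⟨σ, hσ⟩ := exists_dot fun j => -w (i.succAbove j)
    have h2 := Finset.single_le_sum (f := fun σ : Fin m → Bool =>
      max (dot σ (fun j => -w (i.succAbove j)) - 1) 0) (fun _ _ => le_max_right _ _)
      (Finset.mem_univ σ)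
    simp only [abs_neg] at hσ
    have h3 : 0 ≤ 2 ^ m * (ρ * (2 ^ m * ρ)) := by positivity
    have h4 := le_max_left (dot σ (fun j => -w (i.succAbove j)) - 1) 0
    unfold Phi
    linarith [h.PhiF_le i, not_le.1 h1]

theorem projVol_body {t : Fin (m + 1) → ℝ} (ht : ∀ i, 0 < t i) (a : Fin (m + 1) → ℝ)
    {u : E (m + 1)} (hu : ‖u‖ = 1) {v : Fin (m + 1) → ℝ} (hv : bf t v = u.ofLp)
    {i : Fin (m + 1)} (hi : v i ≠ 0) : projVol (body t a) u =
      (∏ k, t k) * (|v i| * (volume (obl i (fun j => v j / v i) '' hull a)).toReal) := by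
  unfold projVol shadowVol shadow euclVol body
  rw [vol_proj_image hu _ (bf_inj ht) hv hi (isCompact_hull a), det_bf, ENNReal.toReal_mul,
    ENNReal.toReal_mul, ENNReal.toReal_ofReal (abs_nonneg _), ENNReal.toReal_ofReal (abs_nonneg _),
    abs_of_pos (Finset.prod_pos fun k _ => ht k)]

theorem Near.projVol_ge (hm : 0 < m) {a : Fin (m + 1) → ℝ} {ρ : ℝ} (h : Near a ρ)
    {t : Fin (m + 1) → ℝ} (ht : ∀ i, 0 < t i) {u : E (m + 1)} (hu : ‖u‖ = 1) (i : Fin (m + 1)) :
    (∏ k, t k) * (|bi t u i| * (Pv a i * (1 - 2 ^ m * ρ ^ 2))) ≤ projVol (body t a) u := by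
  by_cases hi : bi t u i = 0
  · rw [hi, abs_zero, zero_mul, mul_zero]
    exact ENNReal.toReal_nonneg
  rw [projVol_body ht a hu (bf_bi ht u) hi]
  exact mul_le_mul_of_nonneg_left (mul_le_mul_of_nonneg_left (h.vol_obl_ge hm i (div_self hi))
    (abs_nonneg _)) (Finset.prod_pos fun k _ => ht k).le

theorem Near.projVol_le (hm : 0 < m) {a : Fin (m + 1) → ℝ} {ρ : ℝ} (h : Near a ρ)
    {t : Fin (m + 1) → ℝ} (ht : ∀ i, 0 < t i) (i : Fin (m + 1)) :
    projVol (body t a) (EuclideanSpace.single i 1) ≤ (∏ k, t k) * (1 / t i * Pv a i) := by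
  let w : Fin (m + 1) → ℝ := fun k => if k = 0 ∨ k = i then 1 else 0
  have hw : w i = 1 := by simp [w]
  have hv : bf t (fun k => w k / t i) = (EuclideanSpace.single i (1 : ℝ)).ofLp := by
    funext k
    refine Fin.cases ?_ (fun j => ?_) k
    · rw [bf_zero]
      refine Fin.cases (motive := fun i' => i' = i → t 0 * (w 0 / t i - ∑ j : Fin m,
        w j.succ / t i) = (EuclideanSpace.single i (1 : ℝ)).ofLp 0) ?_ (fun j => ?_) i rfl
      · rintro rfl
        simp [w, (ht 0).ne']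
      · rintro rfl
        simp [w, ite_div, (Fin.succ_ne_zero j).symm]
    · rw [bf_succ]
      by_cases e : j.succ = i
      · subst e
        simp [w, (ht _).ne']
      · simp [w, e]
  have hi : w i / t i ≠ 0 := by rw [hw]; exact (one_div_pos.2 (ht i)).ne'
  rw [projVol_body ht a (by simp) hv hi]
  have e : (fun j => w j / t i / (w i / t i)) = w := by
    funext j
    rw [hw]
    field_simp [(ht i).ne']
  rw [e, hw, abs_of_pos (one_div_pos.2 (ht i))]
  refine mul_le_mul_of_nonneg_left (mul_le_mul_of_nonneg_left ?_ (one_div_pos.2 (ht i)).le)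
    (Finset.prod_pos fun k _ => ht k).le
  have h1 : ∑ j, |w (i.succAbove j)| ≤ 1 := by
    calc ∑ j, |w (i.succAbove j)| ≤ ∑ j : Fin m, if i.succAbove j = 0 then (1 : ℝ) else 0 :=
          Finset.sum_le_sum fun j _ => by
            by_cases e : i.succAbove j = 0 <;> simp [w, e]
      _ ≤ ∑ k : Fin (m + 1), if k = 0 then (1 : ℝ) else 0 := by
          rw [Fin.sum_univ_succAbove _ i]
          exact le_add_of_nonneg_left (by split_ifs <;> simp)
      _ = 1 := by simp
  refine (ENNReal.toReal_mono (isCompact_hull _).measure_lt_top.ne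
    (measure_mono (obl_hull_sub i h1 a))).trans ?_
  rw [vol_hull_real hm, Pv, Phi_obl i hw]
  refine div_le_div_of_nonneg_right (add_le_add le_rfl (Finset.sum_le_sum fun σ _ => ?_))
    (by positivity)
  split_ifs with hσ
  swap
  · exact le_rfl
  refine max_le ?_ (le_max_right _ _)
  refine Fin.cases (motive := fun i' => i' = i → dot σ a - a i * dot σ w - 1 ≤
    max (dot σ a - 1) 0) ?_ (fun j => ?_) i rfl
  · rintro rfl
    have h2 : dot σ w = -1 := by simp [dot, w, hσ, sg]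
    have h3 := h.dot_tail σ
    simp only [hσ, sg, Bool.false_eq_true, if_false] at h3
    rw [h2]
    linarith [le_max_right (dot σ a - 1) 0, h.le, h.small, abs_nonneg (a 0 - 1)]
  · rintro rfl
    have h2 : dot σ w = sg (σ 0) - 1 := by
      simp [dot, w, Fin.sum_univ_succ, hσ, sg, sub_eq_add_neg]
    rw [h2]
    cases h0 : σ 0
    · simp only [sg, Bool.false_eq_true, if_false]
      linarith [le_max_right (dot σ a - 1) 0, h.dot_false h0, h.le_rho j, h.small]
    · simp only [sg, if_true]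
      linarith [le_max_left (dot σ a - 1) 0]

theorem euclVol_body {t : Fin (m + 1) → ℝ} (ht : ∀ i, 0 < t i) (a : Fin (m + 1) → ℝ) :
    euclVol (body t a) = (∏ k, t k) * ((2 ^ (m + 1) + Phi a) / (m + 1).factorial) := by
  have hc : IsCompact (bf t '' hull a) :=
    (isCompact_hull a).image (bf t).continuous_of_finiteDimensional
  unfold euclVol body
  rw [(PiLp.volume_preserving_ofLp (Fin (m + 1))).measure_preimage
    hc.measurableSet.nullMeasurableSet, Measure.addHaar_image_linearMap, det_bf,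
    ENNReal.toReal_mul, ENNReal.toReal_ofReal (abs_nonneg _),
    abs_of_pos (Finset.prod_pos fun k _ => ht k), vol_hull_real (Nat.succ_pos m)]

end Pool.Agent.Lib.MP_4bb67e_lc
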