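import Pool.Agent.Lib.MP_4bb67e_lc.Approx
import Pool.Agent.Lib.Common.CookLevin.MorePT

/-!
Oracle queries and the decoding of the answers.
-/

set_option autoImplicit false

namespace Pool.Agent.Lib.MP_4bb67e_lc

open Pool.Agent.Lib.MP_acf5a6_lc Pool.Agent.Lib.Common.CookLevin N487b59b3 Set

/-- A multiple of a unit vector. -/
def unitRow (u : Un) (i : ℕ) (c : ℚ) : List ℚ := (urange u).map (fun j => if j = i then c else 0)

/-- The instance describing the cut cube. -/
def inst (w : List ℕ) (β : ℤ) (p : Un) : Inst :=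
  (w.length, (w.map (fun x : ℕ => ((x : ℤ) : ℚ)), (β : ℚ)) :: (urange (ulen w)).flatMap
    (fun i => [(unitRow (ulen w) i 1, 1), (unitRow (ulen w) i (-1), 0)]),
    (urange p).map (fun _ => true))

theorem sum_unitRow {n : ℕ} (i : Fin n) (c : ℚ) (x : E n) :
    ∑ j : Fin n, ((unitRow ⟨n⟩ i c).getD j 0 : ℝ) * x j = c * x i := by
  rw [Finset.sum_eq_single i (fun j _ hj => by simp [unitRow, urange, Fin.val_ne_of_ne hj])
    (by simp)]
  simp [unitRow, urange]

theorem polytope_inst (w : List ℕ) (β : ℤ) (p : Un) : polytope (inst w β p) =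
    (WithLp.ofLp ⁻¹' cut (fun j : Fin w.length => (w.getD j 0 : ℝ)) β : Set (E w.length)) := by
  refine Set.ext fun (x : E w.length) => ?_
  change (∀ r ∈ (inst w β p).2.1, ∑ j : Fin w.length, (r.1.getD j 0 : ℝ) * x j ≤ (r.2 : ℝ)) ↔
    (0 ≤ x.ofLp ∧ x.ofLp ≤ 1) ∧ ∑ j : Fin w.length, (w.getD j 0 : ℝ) * x j ≤ β
  simp only [inst, List.forall_mem_cons, List.mem_flatMap, urange, ulen, List.mem_range,
    forall_exists_index, and_imp]
  rw [and_comm]
  refine and_congr ⟨fun h => ⟨fun i => ?_, fun i => ?_⟩, fun h r i hi hr => ?_⟩ ?_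
  · have := h _ i i.2 (List.mem_cons_of_mem _ List.mem_cons_self)
    rw [sum_unitRow] at this
    simpa using this
  · have := h _ i i.2 List.mem_cons_self
    rw [sum_unitRow] at this
    simpa using this
  · simp only [List.mem_cons, List.not_mem_nil, or_false] at hr
    rcases hr with rfl | rfl
    · rw [sum_unitRow ⟨i, hi⟩]
      simpa using h.2 ⟨i, hi⟩
    · rw [sum_unitRow ⟨i, hi⟩]
      simpa using h.1 ⟨i, hi⟩
  · simp

theorem valid_inst {w : List ℕ} {β : ℤ} (p : Un) (h2 : 2 ≤ w.length) {δ : ℝ} (hδ : 0 ≤ δ)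
    (hδ1 : δ < 1) {i : Fin w.length}
    (h : ∑ k : Fin w.length, (w.getD k 0 : ℝ) - δ * w.getD i 0 ≤ β) : Valid (inst w β p) := by
  refine ⟨h2, ?_, ?_, ?_, by simp [inst]⟩
  · simp only [inst, List.forall_mem_cons, List.mem_flatMap]
    refine ⟨by simp, ?_⟩
    rintro r ⟨i, _, hr⟩
    simp only [List.mem_cons, List.not_mem_nil, or_false] at hr
    rcases hr with rfl | rfl <;> simp [unitRow, urange, ulen]
  · rw [polytope_inst]
    exact ((PiLp.homeomorph 2 (fun _ : Fin w.length => ℝ)).isCompact_preimage.2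
      (isCompact_cut _ _)).isBounded
  · rw [polytope_inst]
    have ho : IsOpen (WithLp.ofLp ⁻¹' (univ.pi fun _ => Ioo (0 : ℝ) (1 - δ)) : Set (E w.length)) :=
      (isOpen_set_pi finite_univ fun _ _ => isOpen_Ioo).preimage (by fun_prop)
    refine ⟨WithLp.toLp 2 fun _ => (1 - δ) / 2, interior_maximal (fun x hx => ?_) ho
      (fun _ _ => ⟨by simpa using hδ1, by simp only; linarith⟩)⟩
    exact mem_cut (fun _ => Nat.cast_nonneg _) h ⟨fun k => (hx k trivial).1.le,
      fun k => (hx k trivial).2.le.trans (by simpa using hδ)⟩ (hx i trivial).2.le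

theorem isAnswer_inst {w : List ℕ} {β : ℤ} {p : Un} {r : ℚ} (h : IsAnswer (inst w β p) r) :
    |(r : ℝ) - LW (WithLp.ofLp ⁻¹' cut (fun j : Fin w.length => (w.getD j 0 : ℝ)) β :
      Set (E w.length))| ≤ 1 / pow2 p := by
  unfold IsAnswer at h
  rw [polytope_inst] at h
  simpa [inst, urange, pow2] using h

/-- The dimension. -/
def uL (a : List ℕ) : Un := (ulen a).add ⟨2⟩

/-- The scaled weights. -/
def sc (a : List ℕ) : List ℕ := a.map (fun x => (uL a).n * x)

/-- A bound for the scaled weights. -/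
def AA (a : List ℕ) : ℕ := (sc a).sum + (uL a).n

/-- The second largest weight. -/
def MM (a : List ℕ) : ℕ := (uL a).n * (2 * ufact (uL a) * AA a)

/-- The largest weight. -/
def WW (a : List ℕ) : ℕ :=
  (uL a).n * (pow2 ((uL a).add ⟨7⟩) * (uL a).n * (AA a * AA a) * MM a * (sc a).prod)

/-- All weights. -/
def wts (a : List ℕ) : List ℕ := WW a :: MM a :: sc a

/-- The precision. -/
def uP (a : List ℕ) : Un := usz (pow2 ((uL a).add ⟨5⟩) * (wts a).prod)

/-- The central threshold. -/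
def top (a : List ℕ) (t : ℕ) : ℕ := WW a + (MM a + (uL a).n * t)

/-- The oracle queries. -/
def queries (a : List ℕ) (t : ℕ) : List Inst :=
  (urange (((uL a).add (uL a)).add ⟨1⟩)).map
    (fun i : ℕ => inst (wts a) ((top a t : ℤ) + (uL a).n - i) (uP a))

/-- The integer part of `(r + 1) * P`. -/
def zz (P : ℕ) (r : ℚ) : ℕ := (r.num + r.den).toNat * P / r.den

/-- The linear combination of the answers. -/
def comb (a : List ℕ) (ans : List ℚ) : ℤ :=
  ((urange ((uL a).add ⟨1⟩)).map (fun k =>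
    cond ((uL a).n - k).bodd (-1) 1 * (uchoose (uL a) k : ℤ) *
      ((zz (pow2 (uP a)) (ans.getD ((uL a).n + k) 0) : ℤ) -
        zz (pow2 (uP a)) (ans.getD k 0)))).sum

/-- The decoded count. -/
def decode (a : List ℕ) (ans : List ℚ) : ℕ :=
  (2 * ((comb a ans).natAbs * (wts a).prod) + pow2 (uP a) * ((uL a).n - 1)) /
    (2 * (pow2 (uP a) * ((uL a).n - 1)))

section pt

variable {α : Type} [N487b59b3 α]

@[fun_prop] theorem uL_PT {a : α → List ℕ} (ha : PT a) : PT (fun x => uL (a x)) := by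
  unfold uL; fun_prop

@[fun_prop] theorem sc_PT {a : α → List ℕ} (ha : PT a) : PT (fun x => sc (a x)) := by
  unfold sc; fun_prop

@[fun_prop] theorem MM_PT {a : α → List ℕ} (ha : PT a) : PT (fun x => MM (a x)) := by
  unfold MM AA; fun_prop

@[fun_prop] theorem WW_PT {a : α → List ℕ} (ha : PT a) : PT (fun x => WW (a x)) := by
  unfold WW AA; fun_prop

@[fun_prop] theorem wts_PT {a : α → List ℕ} (ha : PT a) : PT (fun x => wts (a x)) := by
  unfold wts; fun_prop

@[fun_prop] theorem uP_PT {a : α → List ℕ} (ha : PT a) : PT (fun x => uP (a x)) := by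
  unfold uP; fun_prop

@[fun_prop] theorem queries_PT {a : α → List ℕ} {t : α → ℕ} (ha : PT a) (ht : PT t) :
    PT (fun x => queries (a x) (t x)) := by
  unfold queries inst unitRow top; fun_prop

@[fun_prop] theorem decode_PT {a : α → List ℕ} {ans : α → List ℚ} (ha : PT a) (ht : PT ans) :
    PT (fun x => decode (a x) (ans x)) := by
  unfold decode comb zz; fun_prop

end pt

theorem zz_spec (P : ℕ) {r : ℚ} (hr : -1 ≤ r) : |(zz P r : ℝ) - (r + 1) * P| ≤ 1 := by
  have hd : (0 : ℝ) < r.den := by exact_mod_cast r.den_pos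
  have h1 : 0 ≤ r.num + r.den := by
    have h2 : (r : ℚ) * r.den = r.num := Rat.mul_den_eq_num r
    have h3 : (0 : ℚ) < r.den := by exact_mod_cast r.den_pos
    have : (0 : ℚ) ≤ r.num + r.den := by nlinarith
    exact_mod_cast this
  have h4 : (((r.num + r.den).toNat * P : ℕ) : ℝ) / r.den = (r + 1) * P := by
    have : (((r.num + r.den).toNat : ℕ) : ℝ) = r.num + r.den := by
      exact_mod_cast congrArg (Int.cast (R := ℝ)) (Int.toNat_of_nonneg h1)
    rw [Nat.cast_mul, this, Rat.cast_def]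
    field_simp
  rw [zz, ← Nat.floor_div_eq_div (K := ℝ), h4]
  have h5 : (0 : ℝ) ≤ (r + 1) * P := by rw [← h4]; positivity
  rw [abs_le]
  constructor <;> linarith [Nat.floor_le h5, Nat.lt_floor_add_one (((r : ℝ) + 1) * P)]

theorem round_eq {X D N : ℕ} (h : |(X : ℝ) - D * N| < D / 2) : (2 * X + D) / (2 * D) = N := by
  rw [abs_lt] at h
  refine Nat.div_eq_of_lt_le ?_ ?_
  · have : (N : ℝ) * (2 * D) ≤ 2 * X + D := by linarith [h.1]
    exact_mod_cast this
  · have : (2 * X + D : ℝ) < (N + 1) * (2 * D) := by linarith [h.2]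
    exact_mod_cast this

theorem Φ_err {L t : ℕ} {F : ℝ → ℝ} {z : ℕ → ℝ} {ε : ℝ}
    (h : ∀ i ≤ 2 * L, |z i - (F (t + L - i) + 1)| ≤ ε) :
    |∑ k ∈ Finset.range (L + 1), (cf L k : ℝ) * (z (L + k) - z k) - Φ L t F| ≤ 2 ^ (L + 1) * ε := by
  rw [Φ, DD, DD, ← Finset.sum_sub_distrib, ← Finset.sum_sub_distrib]
  refine (Finset.abs_sum_le_sum_abs _ _).trans ?_
  refine (Finset.sum_le_sum (g := fun k => (L.choose k : ℝ) * (2 * ε)) fun k hk => ?_).trans ?_
  · have hk' := Finset.mem_range.1 hk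
    have a := abs_le.1 (h (L + k) (by omega))
    have b := abs_le.1 (h k (by omega))
    rw [show (t : ℝ) + L - (L + k : ℕ) = t - k by push_cast; ring] at a
    rw [← mul_sub, ← mul_sub, abs_mul]
    refine mul_le_mul (by simp [cf, abs_mul]) (abs_le.2 ⟨by linarith, by linarith⟩)
      (abs_nonneg _) (by positivity)
  · rw [← Finset.sum_mul, ← Nat.cast_sum, Nat.sum_range_choose]
    push_cast
    exact le_of_eq (by ring)

theorem recover {a : List ℕ} (ha : ∀ x ∈ a, 0 < x) (t : ℕ) :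
    (∀ I ∈ queries a t, Valid I) ∧ ∀ ans, List.Forall₂ IsAnswer (queries a t) ans →
      decode a ans = (Alt a (fun s => if s = t then 1 else 0)).natAbs := by
  have hlen : (wts a).length = (uL a).n := by simp [wts, sc, uL, Un.add, ulen]
  have hL : 2 ≤ (uL a).n := by simp [uL, Un.add]
  have hsc : ∀ x ∈ sc a, 0 < x ∧ (uL a).n ∣ x := by
    intro x hx
    obtain ⟨y, hy, rfl⟩ := List.mem_map.1 hx
    exact ⟨Nat.mul_pos (by omega) (ha y hy), dvd_mul_right _ _⟩
  have hprod : 0 < (sc a).prod := List.prod_pos fun x hx => (hsc x hx).1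
  have hA : (uL a).n ≤ AA a := Nat.le_add_left _ _
  have hf : 0 < ufact (uL a) := Nat.factorial_pos _
  have hM1 : 2 * ufact (uL a) * AA a ≤ MM a := Nat.le_mul_of_pos_left _ (by omega)
  have hM2 : 2 * (uL a).n * AA a ≤ MM a := by
    unfold MM
    nlinarith [Nat.mul_le_mul hf (le_refl ((uL a).n * AA a))]
  have hW1 : 2 * MM a ≤ WW a := by
    have h1 : 0 < pow2 ((uL a).add ⟨7⟩) * (uL a).n * (AA a * AA a) := by
      unfold pow2
      have : 0 < AA a := by omega
      have : 0 < (uL a).n := by omega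
      positivity
    refine Nat.mul_le_mul hL (le_trans ?_ (Nat.le_mul_of_pos_right _ hprod))
    exact Nat.le_mul_of_pos_left _ h1
  have hA2 : 4 * AA a ≤ MM a := le_trans (Nat.mul_le_mul_right _ (by omega)) hM2
  have hM0 : (0 : ℝ) < MM a := by exact_mod_cast (by omega : 0 < MM a)
  have hW0 : (0 : ℝ) < WW a := by exact_mod_cast (by omega : 0 < WW a)
  have hw : ∀ x ∈ wts a, 0 < x ∧ (wts a).length ∣ x := by
    rw [hlen]
    simp only [wts, List.forall_mem_cons]
    exact ⟨⟨by omega, dvd_mul_right _ _⟩, ⟨by omega, dvd_mul_right _ _⟩, hsc⟩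
  have hsum : ∑ k : Fin (wts a).length, ((wts a).getD k 0 : ℝ) = WW a + MM a + (sc a).sum := by
    have : ∑ k : Fin (wts a).length, (wts a).getD k 0 = (wts a).sum := by simp
    rw [← Nat.cast_sum, this]
    simp [wts, add_assoc]
  have hβ : ∀ i ≤ 2 * (uL a).n, (WW a + MM a + (sc a).sum : ℝ) - AA a ≤
      (((top a t : ℤ) + (uL a).n - i : ℤ) : ℝ) := by
    intro i hi
    have h1 : (i : ℝ) ≤ 2 * (uL a).n := by exact_mod_cast hi
    have h2 : (0 : ℝ) ≤ (uL a).n * t := by positivity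
    simp only [AA, top]
    push_cast
    linarith
  have hδ : (0 : ℝ) ≤ AA a / WW a := by positivity
  have hδ4 : (AA a / WW a : ℝ) ≤ 1 / 4 := by
    rw [div_le_div_iff₀ hW0 (by norm_num)]
    exact_mod_cast (by omega : AA a * 4 ≤ 1 * WW a)
  let i₀ : Fin (wts a).length := ⟨0, by omega⟩
  let i₁ : Fin (wts a).length := ⟨1, by omega⟩
  have e₀ : (AA a / WW a : ℝ) * ((wts a).getD i₀ 0 : ℕ) = AA a := div_mul_cancel₀ _ hW0.ne'
  have e₁ : (AA a / MM a : ℝ) * ((wts a).getD i₁ 0 : ℕ) = AA a := div_mul_cancel₀ _ hM0.ne'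
  refine ⟨fun I hI => ?_, fun ans hans => ?_⟩
  · simp only [queries, List.mem_map, urange, List.mem_range, Un.add] at hI
    obtain ⟨i, hi, rfl⟩ := hI
    exact valid_inst (i := i₀) _ (by omega) hδ (by linarith)
      (by rw [hsum, e₀]; exact hβ i (by omega))
  have hP : (0 : ℝ) < pow2 (uP a) := by unfold pow2; positivity
  have hz := Φ_err (L := (wts a).length) (t := top a t)
    (z := fun i => zz (pow2 (uP a)) (ans.getD i 0) / pow2 (uP a))
    (F := fun β => 1 - ((wts a).length - 1) *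
      JR (List.ofFn fun j : Fin (wts a).length => ((wts a).getD j 0 : ℝ)) 0 β +
      ∑ j, JR (List.ofFn (Function.update
        (fun j : Fin (wts a).length => ((wts a).getD j 0 : ℝ)) j 0)) 0 β)
    (ε := 2 / pow2 (uP a) + 8 * (wts a).length ^ 2 * (AA a / WW a) ^ 2) (fun i hi => by
      have h1 : i < (queries a t).length := by simp [queries, urange, Un.add]; omega
      have h2 : i < ans.length := by rw [← hans.length_eq]; exact h1
      have h3' := hans.get h1 h2
      rw [show (queries a t).get ⟨i, h1⟩ = inst (wts a) ((top a t : ℤ) + (uL a).n - i) (uP a) by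
        simp [queries, urange]] at h3'
      have h3 := isAnswer_inst h3'
      rw [List.get_eq_getElem, abs_le] at h3
      obtain ⟨h4, h5⟩ := LW_cut (w := fun j : Fin (wts a).length => ((wts a).getD j 0 : ℝ))
        (β := (((top a t : ℤ) + (uL a).n - i : ℤ) : ℝ)) (i₀ := i₀) (i₁ := i₁) (η := AA a / MM a)
        (fun _ => Nat.cast_nonneg _) (by simp [i₀, i₁])
        (by rw [hsum, e₀]; exact hβ i (by omega)) (by rw [hsum, e₁]; exact hβ i (by omega)) hδ
        (div_le_div_of_nonneg_left (by positivity) hM0 (by exact_mod_cast (by omega)))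
        (by
          rw [← mul_div_assoc, div_le_div_iff₀ hM0 (by positivity), hlen]
          have : 2 * AA a * ((uL a).n).factorial ≤ 1 * MM a := by
            unfold ufact at hM1; linarith
          exact_mod_cast this) hδ4
        (by
          rw [← mul_div_assoc, div_le_one hW0, hlen]
          exact_mod_cast (by omega))
      have h7 : (1 : ℝ) / pow2 (uP a) ≤ 1 := by
        rw [div_le_one hP]
        exact_mod_cast Nat.one_le_two_pow
      have h8 := zz_spec (pow2 (uP a)) (r := ans[i]) (by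
        have : (-1 : ℝ) ≤ ans[i] := by linarith [h3.1]
        exact_mod_cast this)
      have h9 : |(zz (pow2 (uP a)) ans[i] : ℝ) / pow2 (uP a) - (ans[i] + 1)| ≤ 1 / pow2 (uP a) := by
        rw [← mul_div_cancel_right₀ ((ans[i] : ℝ) + 1) hP.ne', ← sub_div, abs_div, abs_of_pos hP]
        gcongr
      rw [List.getD_eq_getElem _ _ h2]
      push_cast at h3 h4 h5
      rw [← hlen] at h3 h4 h5
      rw [abs_le] at h5 h9 ⊢
      have : (2 : ℝ) / pow2 (uP a) = 1 / pow2 (uP a) + 1 / pow2 (uP a) := by ring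
      constructor <;> linarith [h3.1, h3.2, h5.1, h5.2, h9.1, h9.2])
  have hAlt : Alt (wts a) (fun s => if s = top a t then 1 else 0) =
      Alt a (fun s => if s = t then 1 else 0) := by
    have h1 : (sc a).sum ≤ AA a := Nat.le_add_right _ _
    rw [wts, top, Alt_huge (by simp only [List.sum_cons]; omega), Alt_huge (by omega)]
    refine (Alt_map (AddMonoidHom.mulLeft (uL a).n) a _).trans ?_
    simp [show (uL a).n ≠ 0 by omega]
  rw [Φ_first hw (by
    rw [hlen]
    exact dvd_add (dvd_mul_right _ _) (dvd_add (dvd_mul_right _ _) (dvd_mul_right _ _)))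
    (by omega), hAlt, hlen] at hz
  have hc : ∑ k ∈ Finset.range ((uL a).n + 1), (cf (uL a).n k : ℝ) *
      (zz (pow2 (uP a)) (ans.getD ((uL a).n + k) 0) / pow2 (uP a) -
        zz (pow2 (uP a)) (ans.getD k 0) / pow2 (uP a)) = comb a ans / pow2 (uP a) := by
    have e : comb a ans = ∑ k ∈ Finset.range ((uL a).n + 1), cf (uL a).n k *
        ((zz (pow2 (uP a)) (ans.getD ((uL a).n + k) 0) : ℤ) -
          zz (pow2 (uP a)) (ans.getD k 0)) := by
      refine Eq.trans ?_ (Finset.sum_congr rfl (f := fun k => cond ((uL a).n - k).bodd (-1) 1 *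
        (uchoose (uL a) k : ℤ) * ((zz (pow2 (uP a)) (ans.getD ((uL a).n + k) 0) : ℤ) -
          zz (pow2 (uP a)) (ans.getD k 0))) fun k _ => ?_)
      · rfl
      · have : ∀ m : ℕ, (-1 : ℤ) ^ m = cond m.bodd (-1) 1 := fun m => by
          induction m with
          | zero => rfl
          | succ m ih => rw [pow_succ, ih, Nat.bodd_succ]; cases m.bodd <;> rfl
        rw [cf, uchoose, this]
    rw [e]
    push_cast
    rw [Finset.sum_div]
    exact Finset.sum_congr rfl fun k _ => by ring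
  rw [hc] at hz
  refine round_eq ?_
  have hQ : (0 : ℝ) < (wts a).prod := by exact_mod_cast List.prod_pos fun x hx => (hw x hx).1
  have hL' : (2 : ℝ) ≤ (uL a).n := by exact_mod_cast hL
  have h1 : (2 : ℝ) ^ ((uL a).n + 5) * (wts a).prod ≤ pow2 (uP a) := by
    exact_mod_cast (lt_two_pow_sz _).le
  have h2 : (2 : ℝ) ^ ((uL a).n + 7) * (uL a).n ^ 2 * (AA a / WW a) ^ 2 * (wts a).prod = 1 := by
    have h3 : (WW a : ℝ) = (uL a).n * (2 ^ ((uL a).n + 7) * (uL a).n * (AA a * AA a) * MM a *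
        (sc a).prod) := by simp [WW, pow2, Un.add]
    simp only [wts, List.prod_cons, Nat.cast_mul]
    field_simp
    rw [h3]
    ring
  have h3 : 2 ^ ((uL a).n + 1) * (2 / pow2 (uP a) + 8 * ((uL a).n : ℝ) ^ 2 * (AA a / WW a) ^ 2) *
      (wts a).prod ≤ 1 / 4 := by
    have h4 : (2 : ℝ) ^ ((uL a).n + 5) * (wts a).prod / pow2 (uP a) ≤ 1 := (div_le_one hP).2 h1
    have h5 : 2 ^ ((uL a).n + 1) * (2 / pow2 (uP a) + 8 * ((uL a).n : ℝ) ^ 2 * (AA a / WW a) ^ 2) *
        (wts a).prod = (2 : ℝ) ^ ((uL a).n + 5) * (wts a).prod / pow2 (uP a) / 8 +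
        (2 : ℝ) ^ ((uL a).n + 7) * (uL a).n ^ 2 * (AA a / WW a) ^ 2 * (wts a).prod / 8 := by ring
    rw [h5, h2]
    linarith
  have h4 := (abs_abs_sub_abs_le _ _).trans hz
  rw [abs_neg, abs_mul, abs_div, abs_div, abs_of_pos hP, abs_of_pos hQ,
    abs_of_nonneg (by linarith : (0 : ℝ) ≤ (uL a).n - 1)] at h4
  generalize (wts a).prod = Q at h3 h4 hQ ⊢
  push_cast [Nat.cast_sub (show 1 ≤ (uL a).n by omega), Nat.cast_natAbs]
  generalize (2 ^ ((uL a).n + 1) * (2 / pow2 (uP a) + 8 * ((uL a).n : ℝ) ^ 2 *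
    (AA a / WW a) ^ 2)) = ε at h3 h4
  have h5 := mul_le_mul_of_nonneg_right h4 (mul_pos hP hQ).le
  rw [← abs_of_pos (mul_pos hP hQ), ← abs_mul, abs_of_pos (mul_pos hP hQ)] at h5
  refine lt_of_eq_of_lt (congrArg _ ?_) (h5.trans_lt ?_)
  · field_simp
  · nlinarith [mul_le_mul_of_nonneg_right h3 hP.le]

end Pool.Agent.Lib.MP_4bb67e_lc
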