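import Pool.Agent.Lib.MP_4bb67e_lc.Query

/-!
From counting satisfying assignments to alternating counts of subset sums.
-/

set_option autoImplicit false

namespace Pool.Agent.Lib.MP_4bb67e_lc

open Pool.Agent.Lib.MP_acf5a6_lc Pool.Agent.Lib.Common.CookLevin N487b59b3

theorem uzip_cons {γ : Type} (x : γ) (l : List γ) :
    uzip (x :: l) = (x, ⟨0⟩) :: (uzip l).map (fun y => (y.1, ⟨y.2.n + 1⟩)) := by
  simp [uzip, List.zipIdx_succ]

/-- The sum of `g` over all ways of choosing one entry of each pair. -/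
def Cho : List (ℕ × ℕ) → (ℕ → ℤ) → ℤ
  | [], g => g 0
  | p :: ps, g => Cho ps (fun s => g (s + p.1)) + Cho ps (fun s => g (s + p.2))

theorem Cho_zero : ∀ ps : List (ℕ × ℕ), Cho ps (fun _ => 0) = 0
  | [] => rfl
  | _ :: ps => by simp [Cho, Cho_zero ps]

theorem Cho_append : ∀ (ps qs : List (ℕ × ℕ)) (g : ℕ → ℤ),
    Cho (ps ++ qs) g = Cho ps (fun s => Cho qs (fun s' => g (s + s')))
  | [], _, _ => by simp [Cho]
  | _ :: ps, qs, g => by simp [Cho, Cho_append ps, add_right_comm]

theorem Cho_scale (B : ℕ) : ∀ (ps : List (ℕ × ℕ)) (g : ℕ → ℤ),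
    Cho (ps.map (fun p => (B * p.1, B * p.2))) g = Cho ps (fun s => g (B * s))
  | [], _ => by simp [Cho]
  | _ :: ps, g => by simp [Cho, Cho_scale B ps, mul_add]

theorem Cho_bits {γ : Type} : ∀ (l : List γ) (g : ℕ → ℤ),
    Cho ((uzip l).map (fun y => (pow2 y.2, 0))) g = ∑ s ∈ Finset.range (2 ^ l.length), g s
  | [], _ => by simp [Cho, uzip]
  | x :: l, g => by
    have e : (uzip (x :: l)).map (fun y => (pow2 y.2, 0)) = (1, 0) ::
        ((uzip l).map (fun y => (pow2 y.2, 0))).map (fun p => (2 * p.1, 2 * p.2)) := by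
      simp [uzip_cons, pow2, pow_succ, mul_comm]
    have h : ∀ m, ∑ s ∈ Finset.range (m * 2), g s =
        ∑ s ∈ Finset.range m, g (2 * s + 1) + ∑ s ∈ Finset.range m, g (2 * s + 0) := by
      intro m
      induction m with
      | zero => simp
      | succ m ih =>
        rw [add_mul, one_mul, Finset.sum_range_succ, Finset.sum_range_succ, ih,
          Finset.sum_range_succ, Finset.sum_range_succ, mul_comm m 2]
        simp only [add_zero]
        ring
    rw [e, Cho, Cho_scale, Cho_scale, Cho_bits l, Cho_bits l, List.length_cons, pow_succ, h]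

theorem Cho_vars {γ : Type} [DecidableEq γ] (f : γ → Bool → ℕ) : ∀ (V : List γ), V.Nodup →
    ∀ g : ℕ → ℤ, Cho (V.map (fun v => (f v true, f v false))) g =
      ∑ U ∈ V.toFinset.powerset, g (∑ v ∈ V.toFinset, f v (decide (v ∈ U)))
  | [], _, _ => by simp [Cho]
  | v :: V, h, g => by
    have hv : v ∉ V.toFinset := by simpa using (List.nodup_cons.1 h).1
    rw [List.map_cons, Cho, Cho_vars f V h.of_cons, Cho_vars f V h.of_cons, List.toFinset_cons,
      Finset.sum_powerset_insert hv, add_comm]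
    congr 1
    · refine Finset.sum_congr rfl fun U hU => ?_
      rw [Finset.sum_insert hv, add_comm, decide_eq_false
        (fun h' => hv (Finset.mem_powerset.1 hU h'))]
    · refine Finset.sum_congr rfl fun U _ => ?_
      rw [Finset.sum_insert hv, add_comm, decide_eq_true (Finset.mem_insert_self v U)]
      congr 2
      refine Finset.sum_congr rfl fun u hu => ?_
      simp [show u ≠ v from fun e => hv (e ▸ hu)]

/-- The items with their markers. -/
def it2 (ps : List (ℕ × ℕ)) : List (ℕ × ℕ) :=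
  (uzip ps).flatMap (fun x => [(x.1.1, pow2 (x.2.add x.2)), (x.1.2, pow2 (x.2.add x.2))])

/-- The target value of the markers. -/
def mk2 (ps : List (ℕ × ℕ)) : ℕ := ((uzip ps).map (fun x => pow2 (x.2.add x.2))).sum

theorem Alt_it2 : ∀ (ps : List (ℕ × ℕ)) (g : ℕ → ℤ),
    Alt (it2 ps) (fun s => if s.2 = mk2 ps then g s.1 else 0) = (-1) ^ ps.length * Cho ps g
  | [], _ => by simp [it2, mk2, uzip, Alt, Cho]
  | p :: ps, g => by
    have e0 : ∀ n : ℕ, 2 ^ (n + 1 + (n + 1)) = 4 * 2 ^ (n + n) := fun n => by ring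
    have e1 : it2 (p :: ps) = (p.1, 1) :: (p.2, 1) :: (it2 ps).map
        ((AddMonoidHom.id ℕ).prodMap (AddMonoidHom.mulLeft 4)) := by
      simp [it2, uzip_cons, pow2, Un.add, List.flatMap_map, List.map_flatMap, e0]
    have e2 : mk2 (p :: ps) = 4 * mk2 ps + 1 := by
      simp [mk2, uzip_cons, pow2, Un.add, e0, Function.comp_def, List.sum_map_mul_left, add_comm]
    have a1 : ∀ m : ℕ, (4 * m + 1 + 1 = 4 * mk2 ps + 1) = False := fun m => by simp; omega
    have a2 : ∀ m : ℕ, (4 * m + 1 = 4 * mk2 ps + 1) = (m = mk2 ps) := fun m => by simp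
    have a3 : ∀ m : ℕ, (4 * m = 4 * mk2 ps + 1) = False := fun m => by simp; omega
    simp only [e1, e2, Alt, Alt_map]
    simp only [AddMonoidHom.coe_prodMap, Prod.snd_add, Prod.fst_add,
      Prod.map_snd, Prod.map_fst, AddMonoidHom.coe_mulLeft, AddMonoidHom.id_apply, a1, a2, a3,
      if_false, Alt_zero]
    rw [Alt_it2 ps (fun s => g (s + p.1)), Alt_it2 ps (fun s => g (s + p.2)), Cho,
      List.length_cons]
    ring

/-- The separator between values and markers. -/
def sepG (ps : List (ℕ × ℕ)) (t : ℕ) : ℕ := ((it2 ps).map (fun x => x.1)).sum + t + 1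

/-- The items of the subset sum problem. -/
def items (ps : List (ℕ × ℕ)) (t : ℕ) : List ℕ := (it2 ps).map (fun x => x.1 + sepG ps t * x.2)

/-- The target of the subset sum problem. -/
def target (ps : List (ℕ × ℕ)) (t : ℕ) : ℕ := t + sepG ps t * mk2 ps

theorem digit_eq {B x y x' y' : ℕ} (hx : x < B) (hx' : x' < B) :
    x + B * y = x' + B * y' ↔ x = x' ∧ y = y' := by
  refine ⟨fun h => ?_, fun h => by rw [h.1, h.2]⟩
  have h1 : x = x' := by
    have := congrArg (· % B) h
    simpa [Nat.mod_eq_of_lt hx, Nat.mod_eq_of_lt hx'] using this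
  exact ⟨h1, Nat.eq_of_mul_eq_mul_left (by omega : 0 < B) (by omega)⟩

theorem Alt_items (ps : List (ℕ × ℕ)) (t : ℕ) :
    Alt (items ps t) (fun s => if s = target ps t then 1 else 0) =
      (-1) ^ ps.length * Cho ps (fun s => if s = t then 1 else 0) := by
  rw [← Alt_it2]
  refine (Alt_map ((AddMonoidHom.id ℕ).coprod (AddMonoidHom.mulLeft (sepG ps t))) _ _).trans
    (Alt_congr _ _ _ fun s hs => ?_)
  have h1 : s.1 < sepG ps t := by
    have := hs.1
    rw [← AddMonoidHom.coe_fst, map_list_sum] at this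
    exact Nat.lt_succ_of_le (le_trans this (Nat.le_add_right _ _))
  have h2 : t < sepG ps t := by unfold sepG; omega
  simp only [AddMonoidHom.coprod_apply, AddMonoidHom.id_apply, AddMonoidHom.coe_mulLeft, target,
    digit_eq h1 h2]
  by_cases h : s.2 = mk2 ps <;> simp [h]

theorem items_pos (ps : List (ℕ × ℕ)) (t : ℕ) : ∀ x ∈ items ps t, 0 < x := by
  simp only [items, it2, List.mem_map, List.mem_flatMap, List.mem_cons, List.not_mem_nil, or_false]
  rintro _ ⟨_, ⟨y, _, rfl | rfl⟩, rfl⟩ <;> unfold sepG pow2 <;> positivity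

/-- The weight of a literal. -/
def wt (K : Un) (φ : List Clause) (l : Lit) : ℕ :=
  ((uzip φ).map (fun x => pow2 (K.mul x.2) * (x.1.filter (fun y => decide (y = l))).length)).sum

/-- The slack items. -/
def slk (K : Un) (φ : List Clause) : List (ℕ × ℕ) :=
  (uzip φ).flatMap (fun x => (uzip x.1).map (fun y => (pow2 (K.mul x.2) * pow2 y.2, 0)))

/-- The target digits. -/
def tgt (K : Un) (φ : List Clause) : ℕ :=
  ((uzip φ).map (fun x => pow2 (K.mul x.2) * pow2 (ulen x.1))).sum

theorem sum_count {V : Finset Var} (ρ : Var → Bool) : ∀ C : Clause, (∀ l ∈ C, l.1 ∈ V) →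
    ∑ v ∈ V, (C.filter (fun y => decide (y = (v, ρ v)))).length = C.countP (ev ρ)
  | [], _ => by simp
  | l :: C, h => by
    have ih := sum_count ρ C (fun l hl => h l (List.mem_cons_of_mem _ hl))
    simp only [← List.countP_eq_length_filter, List.countP_cons, Finset.sum_add_distrib] at ih ⊢
    rw [ih, Finset.sum_eq_single l.1 (fun v _ hv => if_neg (by
      simp only [decide_eq_true_eq]; rintro rfl; exact hv rfl))
      (fun h' => absurd (h l List.mem_cons_self) h')]
    simp [ev, Prod.ext_iff, eq_comm]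

open Classical in
theorem Cho_slk {K : Un} {V : Finset Var} (ρ : Var → Bool) : ∀ φ : List Clause,
    (∀ C ∈ φ, C.length < K.n ∧ ∀ l ∈ C, l.1 ∈ V) →
    Cho (slk K φ) (fun s => if ∑ v ∈ V, wt K φ (v, ρ v) + s = tgt K φ then 1 else 0) =
      if ∀ C ∈ φ, Sat ρ C then 1 else 0
  | [], _ => by simp [slk, wt, tgt, uzip, Cho]
  | C :: φ, h => by
    obtain ⟨hC, hC'⟩ := h C List.mem_cons_self
    have ih := Cho_slk ρ φ (fun C hC => h C (List.mem_cons_of_mem _ hC))
    have e0 : ∀ n : ℕ, 2 ^ (K.n * (n + 1)) = 2 ^ K.n * 2 ^ (K.n * n) := fun n => by ring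
    have e1 : slk K (C :: φ) = (uzip C).map (fun y => (pow2 y.2, 0)) ++
        (slk K φ).map (fun p => (2 ^ K.n * p.1, 2 ^ K.n * p.2)) := by
      simp [slk, uzip_cons, pow2, Un.mul, List.flatMap_map, List.map_flatMap, e0,
        Function.comp_def, mul_assoc]
    have e2 : tgt K (C :: φ) = 2 ^ C.length + 2 ^ K.n * tgt K φ := by
      simp [tgt, uzip_cons, pow2, Un.mul, ulen, e0, Function.comp_def, mul_assoc,
        List.sum_map_mul_left]
    have e3 : ∑ v ∈ V, wt K (C :: φ) (v, ρ v) =
        C.countP (ev ρ) + 2 ^ K.n * ∑ v ∈ V, wt K φ (v, ρ v) := by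
      rw [← sum_count ρ C hC', Finset.mul_sum, ← Finset.sum_add_distrib]
      refine Finset.sum_congr rfl fun v _ => ?_
      simp [wt, uzip_cons, pow2, Un.mul, e0, Function.comp_def, mul_assoc, List.sum_map_mul_left]
    have b1 : C.countP (ev ρ) ≤ C.length := List.countP_le_length
    have b2 : C.length < 2 ^ C.length := Nat.lt_two_pow_self
    have b3 : 2 * 2 ^ C.length ≤ 2 ^ K.n := by
      rw [← pow_succ']
      exact Nat.pow_le_pow_right (by norm_num) hC
    have b4 : Sat ρ C ↔ 0 < C.countP (ev ρ) := by simp [Sat, ev]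
    rw [e1, e2, e3, Cho_append, Cho_bits, Finset.sum_congr rfl
      (g := fun s => if s = 2 ^ C.length - C.countP (ev ρ) then
        (if ∀ C ∈ φ, Sat ρ C then 1 else 0) else 0) (fun s hs => ?_)]
    · simp only [Finset.sum_ite_eq', Finset.mem_range, List.forall_mem_cons, b4]
      by_cases h0 : 0 < C.countP (ev ρ)
      · rw [if_pos (by omega)]; simp [h0]
      · rw [if_neg (by omega), if_neg (fun h => h0 h.1)]
    · have hs' := Finset.mem_range.1 hs
      have e4 : ∀ s' : ℕ, (C.countP (ev ρ) + 2 ^ K.n * ∑ v ∈ V, wt K φ (v, ρ v) + (s + 2 ^ K.n * s') =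
          2 ^ C.length + 2 ^ K.n * tgt K φ) ↔ (C.countP (ev ρ) + s = 2 ^ C.length ∧
            ∑ v ∈ V, wt K φ (v, ρ v) + s' = tgt K φ) := fun s' => by
        rw [← digit_eq (B := 2 ^ K.n) (by omega) (by omega)]
        constructor <;> intro h <;> linarith
      simp only [Cho_scale, e4]
      by_cases h1 : s = 2 ^ C.length - C.countP (ev ρ)
      · rw [if_pos h1, ← ih]
        simp only [show C.countP (ev ρ) + s = 2 ^ C.length by omega, true_and]
      · rw [if_neg h1]
        simp only [show ¬ C.countP (ev ρ) + s = 2 ^ C.length by omega, false_and, if_false,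
          Cho_zero]

/-- The width of a digit. -/
def uK (φ : List Clause) : Un := (ulen (φ.flatMap (fun C => C))).add ⟨1⟩

/-- The pairs attached to a formula. -/
def pairs (V : List Var) (φ : List Clause) : List (ℕ × ℕ) :=
  V.map (fun v => (wt (uK φ) φ (v, true), wt (uK φ) φ (v, false))) ++ slk (uK φ) φ

open Classical in
theorem Alt_count {V : List Var} (hV : V.Nodup) {φ : List Clause}
    (h : ∀ C ∈ φ, ∀ l ∈ C, l.1 ∈ V) :
    (Alt (items (pairs V φ) (tgt (uK φ) φ))
      (fun s => if s = target (pairs V φ) (tgt (uK φ) φ) then 1 else 0)).natAbs =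
      (V.toFinset.powerset.filter (fun U => ∀ C ∈ φ, Sat (fun v => decide (v ∈ U)) C)).card := by
  rw [Alt_items, pairs, Cho_append, Cho_vars (fun v b => wt (uK φ) φ (v, b)) V hV,
    Finset.sum_congr rfl (fun U _ => Cho_slk (K := uK φ) (fun v => decide (v ∈ U)) φ (fun C hC =>
      ⟨Nat.lt_succ_of_le (List.Sublist.length_le (List.sublist_flatten_of_mem
        (List.mem_map.2 ⟨C, hC, rfl⟩))), fun l hl => List.mem_toFinset.2 (h C hC l hl)⟩)),
    Finset.sum_boole]
  simp [Int.natAbs_mul, Int.natAbs_pow]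

section pt

variable {α : Type} [N487b59b3 α]

@[fun_prop] theorem it2_PT {a : α → List (ℕ × ℕ)} (ha : PT a) : PT (fun x => it2 (a x)) := by
  unfold it2; fun_prop

@[fun_prop] theorem items_PT {a : α → List (ℕ × ℕ)} {t : α → ℕ} (ha : PT a) (ht : PT t) :
    PT (fun x => items (a x) (t x)) := by
  unfold items sepG; fun_prop

@[fun_prop] theorem target_PT {a : α → List (ℕ × ℕ)} {t : α → ℕ} (ha : PT a) (ht : PT t) :
    PT (fun x => target (a x) (t x)) := by
  unfold target sepG mk2; fun_prop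

@[fun_prop] theorem uK_PT {φ : α → List Clause} (h : PT φ) : PT (fun x => uK (φ x)) := by
  unfold uK; fun_prop

@[fun_prop] theorem tgt_PT {K : α → Un} {φ : α → List Clause} (hK : PT K) (h : PT φ) :
    PT (fun x => tgt (K x) (φ x)) := by
  unfold tgt; fun_prop

@[fun_prop] theorem wt_PT {K : α → Un} {φ : α → List Clause} {l : α → Lit} (hK : PT K)
    (h : PT φ) (hl : PT l) : PT (fun x => wt (K x) (φ x) (l x)) := by
  unfold wt; fun_prop

@[fun_prop] theorem pairs_PT {V : α → List Var} {φ : α → List Clause} (hV : PT V) (h : PT φ) :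
    PT (fun x => pairs (V x) (φ x)) := by
  unfold pairs slk; fun_prop

end pt

end Pool.Agent.Lib.MP_4bb67e_lc
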