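import Pool.Agent.Lib.MP_4bb67e_lc.DefsV
import Pool.Agent.Lib.MP_4bb67e_lc.FirstV
import Pool.Agent.Lib.MP_4bb67e_lc.Subset

/-!
Oracle queries for V-presented polytopes and the decoding of the answers.
-/

set_option autoImplicit false

namespace Pool.Agent.Lib.MP_4bb67e_lc

open Pool.Agent.Lib.MP_acf5a6_lc Pool.Agent.Lib.Common.CookLevin N487b59b3 Set

/-- The image of a signed unit vector. -/
def rowV (d : List ℕ) (b r : Un) (s : ℤ) (i : Un) : List ℚ :=
  (uzip (0 :: d)).map fun y => ((if y.2.n = i.n then s * (pow2 b * pow2 (r.mul i) : ℕ) else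
    if y.2.n = 0 then -(s * (pow2 b : ℕ)) else 0 : ℤ) : ℚ)

/-- The image of the extra vertex. -/
def apexRow (d : List ℕ) (c : ℤ) (b r : Un) : List ℚ :=
  (uzip (0 :: d)).map fun y => ((if y.2.n = 0 then (pow2 b : ℕ) + c - (d.sum : ℕ) else
    (pow2 (r.mul y.2) * y.1 : ℕ) : ℤ) : ℚ)

/-- The instance describing the distorted polytope. -/
def instV (d : List ℕ) (c : ℤ) (b r p : Un) : InstV :=
  (d.length + 1, apexRow d c b r :: (uzip (0 :: d)).flatMap
    (fun x => [rowV d b r 1 x.2, rowV d b r (-1) x.2]), (urange p).map (fun _ => true))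

theorem point_map (d : List ℕ) (g : ℕ × Un → ℚ) (j : Fin (d.length + 1)) :
    point (d.length + 1) ((uzip (0 :: d)).map g) j = g ((0 :: d).getD j 0, ⟨j⟩) := by
  have hj : j.val < (0 :: d).length := j.2
  generalize 0 :: d = l at hj
  simp [point, uzip, hj]

theorem point_rowV (d : List ℕ) (b r : Un) (s : ℤ) (i : Fin (d.length + 1)) :
    point (d.length + 1) (rowV d b r s ⟨i⟩) =
      WithLp.toLp 2 (bf (scl (pow2 b) (pow2 r)) (Pi.single i (s : ℝ))) := by
  ext k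
  rw [rowV, point_map]
  simp only [bf, Matrix.toLin'_apply, Matrix.mulVec_single, Matrix.col_apply, Matrix.of_apply,
    Pi.smul_apply, MulOpposite.smul_eq_mul_unop, MulOpposite.unop_op, Fin.val_inj,
    Fin.val_eq_zero_iff]
  split_ifs with h1 h2
  · subst h1
    simp [scl, pow2, Un.mul, pow_mul, mul_comm]
  · simp [scl, mul_comm]
  · simp

theorem point_apexRow (d : List ℕ) (c : ℤ) (b r : Un) :
    point (d.length + 1) (apexRow d c b r) = WithLp.toLp 2 (bf (scl (pow2 b) (pow2 r))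
      (apex (fun j : Fin d.length => (d.getD j 0 : ℝ)) c (pow2 b))) := by
  have hW : (pow2 b : ℝ) ≠ 0 := by unfold pow2; positivity
  ext k
  rw [apexRow, point_map]
  refine Fin.cases ?_ (fun j => ?_) k
  · have : ∑ j : Fin d.length, (d.getD j 0 : ℝ) = (d.sum : ℕ) := by
      rw [← Nat.cast_sum]
      simp
    simp only [bf_zero, apex, Fin.cons_zero, Fin.cons_succ, ← Finset.sum_div, this, scl]
    generalize d.sum = S
    simp
    field_simp
  · simp only [bf_succ, apex, Fin.cons_succ, scl]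
    simp [Un.mul, pow2, pow_mul]
    field_simp

theorem polytopeV_instV (d : List ℕ) (c : ℤ) (b r p : Un) : polytopeV (instV d c b r p) =
    body (scl (pow2 b) (pow2 r)) (apex (fun j : Fin d.length => (d.getD j 0 : ℝ)) c (pow2 b)) := by
  let L : (Fin (d.length + 1) → ℝ) →ₗ[ℝ] E (d.length + 1) :=
    (WithLp.linearEquiv 2 ℝ (Fin (d.length + 1) → ℝ)).symm.toLinearMap ∘ₗ
      bf (scl (pow2 b) (pow2 r))
  have e : ∀ a, body (scl (pow2 b) (pow2 r)) a = L '' hull a := fun a => by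
    ext x
    constructor
    · rintro ⟨y, hy, h⟩
      exact ⟨y, hy, congrArg (WithLp.toLp 2) h⟩
    · rintro ⟨y, hy, rfl⟩
      exact ⟨y, hy, rfl⟩
  rw [e, ← convexHull_verts, LinearMap.image_convexHull]
  change convexHull ℝ {x : E (d.length + 1) | ∃ v ∈ (instV d c b r p).2.1,
    x = point (d.length + 1) v} = _
  congr 1
  ext x
  simp only [instV, List.mem_cons, List.mem_flatMap, List.not_mem_nil, or_false, mem_ofPred_eq]
  constructor
  · rintro ⟨v, rfl | ⟨y, hy, h⟩, rfl⟩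
    · exact ⟨_, Or.inl rfl, (point_apexRow d c b r).symm⟩
    · obtain ⟨z, hz, rfl⟩ := List.mem_map.1 hy
      have hi : z.2 < d.length + 1 := by simpa using (List.mem_zipIdx hz).2.1
      rcases h with rfl | rfl
      · exact ⟨_, Or.inr ⟨⟨z.2, hi⟩, true, rfl⟩, ((point_rowV d b r 1 ⟨z.2, hi⟩).trans
          (by simp [sg, L])).symm⟩
      · exact ⟨_, Or.inr ⟨⟨z.2, hi⟩, false, rfl⟩, ((point_rowV d b r (-1) ⟨z.2, hi⟩).trans
          (by simp [sg, L])).symm⟩
  · rintro ⟨y, rfl | ⟨j, s, rfl⟩, rfl⟩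
    · exact ⟨_, Or.inl rfl, (point_apexRow d c b r).symm⟩
    · have hj : ((0 :: d)[j.val], (⟨j⟩ : Un)) ∈ uzip (0 :: d) :=
        List.mem_map.2 ⟨((0 :: d)[j.val], j.val), List.mem_zipIdx_iff_getElem?.2 (by simp), rfl⟩
      cases s
      · exact ⟨_, Or.inr ⟨_, hj, Or.inr rfl⟩, ((point_rowV d b r (-1) j).trans
          (by simp [sg, L])).symm⟩
      · exact ⟨_, Or.inr ⟨_, hj, Or.inl rfl⟩, ((point_rowV d b r 1 j).trans
          (by simp [sg, L])).symm⟩

theorem interior_body {m : ℕ} {t : Fin (m + 1) → ℝ} (ht : ∀ i, 0 < t i) (a : Fin (m + 1) → ℝ) :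
    (interior (body t a)).Nonempty := by
  have hc : ∀ i, Continuous fun u : E (m + 1) => bi t u i := fun i => by
    refine Fin.cases ?_ (fun j => ?_) i
    · simp only [bi, Fin.cons_zero]
      fun_prop
    · simp only [bi, Fin.cons_succ]
      fun_prop
  have ho : IsOpen {u : E (m + 1) | ∑ i, |bi t u i| < 1} :=
    isOpen_lt (continuous_finsetSum _ fun i _ => (hc i).abs) continuous_const
  refine ⟨0, interior_maximal (fun u hu => ?_) ho ?_⟩
  · exact ⟨bi t u, ⟨0, by simp, by simpa using le_of_lt hu⟩, bf_bi ht u⟩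
  · simp [bi, Fin.sum_univ_succ]

theorem validV_instV {d : List ℕ} (hd : 0 < d.length) (c : ℤ) (b r p : Un) :
    ValidV (instV d c b r p) := by
  refine ⟨Nat.succ_le_succ hd, ?_, ?_, by simp [instV]⟩
  · simp only [instV, List.forall_mem_cons, List.mem_flatMap]
    refine ⟨by simp [apexRow, uzip], ?_⟩
    rintro v ⟨i, _, hr⟩
    simp only [List.mem_cons, List.not_mem_nil, or_false] at hr
    rcases hr with rfl | rfl <;> simp [rowV, uzip]
  · rw [polytopeV_instV]
    exact interior_body (scl_pos (by unfold pow2; positivity)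
      (by exact_mod_cast Nat.one_le_two_pow)) _

theorem isAnswerV_instV {d : List ℕ} {c : ℤ} {b r p : Un} {x : ℚ}
    (h : IsAnswerV (instV d c b r p) x) :
    |(x : ℝ) - LW (body (scl (pow2 b) (pow2 r))
      (apex (fun j : Fin d.length => (d.getD j 0 : ℝ)) c (pow2 b)))| ≤ 1 / pow2 p := by
  unfold IsAnswerV at h
  rw [polytopeV_instV] at h
  simpa [instV, urange, pow2] using h

/-- The additional weight. -/
def vM (d : List ℕ) (c : ℤ) : ℕ := c.natAbs + d.sum + 1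

/-- The dimension. -/
def vN (d : List ℕ) : Un := (ulen d).add ⟨2⟩

/-- The exponent of the scale of the perturbation. -/
def vB (d : List ℕ) (c : ℤ) : Un :=
  usz (2048 * ((vN d).n * (vN d).n * (vN d).n * (vN d).n) * pow2 ((vN d).add (vN d)) *
    (vM d c * vM d c))

/-- The normalising factor. -/
def vK (d : List ℕ) (c : ℤ) : ℕ :=
  pow2 (vB d c) * pow2 (vN d) * ((0 :: d).map fun _ => (vN d).n).prod

/-- The precision. -/
def vP (d : List ℕ) (c : ℤ) : Un := usz (64 * vK d c)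

/-- One query. -/
def vQ (d : List ℕ) (c c' : ℤ) : InstV :=
  instV (vM d c :: d) c' (vB d c) (((vB d c).add ⟨2⟩).mul (vN d)) (vP d c)

/-- The oracle queries. -/
def queriesV (d : List ℕ) (c : ℤ) : List InstV :=
  [c - vM d c + 1, c - vM d c, c - vM d c - 1, c + vM d c + 1, c + vM d c, c + vM d c - 1].map
    (vQ d c)

/-- The linear combination of the answers. -/
def combV (P : ℕ) (ans : List ℚ) : ℤ :=
  (zz P (ans.getD 0 0) - 2 * zz P (ans.getD 1 0) + zz P (ans.getD 2 0)) -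
    (zz P (ans.getD 3 0) - 2 * zz P (ans.getD 4 0) + zz P (ans.getD 5 0))

/-- The decoded count. -/
def decodeV (d : List ℕ) (c : ℤ) (ans : List ℚ) : ℕ :=
  (2 * ((combV (pow2 (vP d c)) ans).natAbs * vK d c) +
    2 * pow2 (vP d c) * ufact (ulen (0 :: d))) / (2 * (2 * pow2 (vP d c) * ufact (ulen (0 :: d))))

section pt

variable {α : Type} [N487b59b3 α]

@[fun_prop] theorem instV_PT {d : α → List ℕ} {c : α → ℤ} {b r p : α → Un} (hd : PT d) (hc : PT c)
    (hb : PT b) (hr : PT r) (hp : PT p) : PT (fun x => instV (d x) (c x) (b x) (r x) (p x)) := by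
  unfold instV apexRow rowV; fun_prop

@[fun_prop] theorem vM_PT {d : α → List ℕ} {c : α → ℤ} (hd : PT d) (hc : PT c) :
    PT (fun x => vM (d x) (c x)) := by
  unfold vM; fun_prop

@[fun_prop] theorem vN_PT {d : α → List ℕ} (hd : PT d) : PT (fun x => vN (d x)) := by
  unfold vN; fun_prop

@[fun_prop] theorem vB_PT {d : α → List ℕ} {c : α → ℤ} (hd : PT d) (hc : PT c) :
    PT (fun x => vB (d x) (c x)) := by
  unfold vB; fun_prop

@[fun_prop] theorem vK_PT {d : α → List ℕ} {c : α → ℤ} (hd : PT d) (hc : PT c) :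
    PT (fun x => vK (d x) (c x)) := by
  unfold vK; fun_prop

@[fun_prop] theorem vP_PT {d : α → List ℕ} {c : α → ℤ} (hd : PT d) (hc : PT c) :
    PT (fun x => vP (d x) (c x)) := by
  unfold vP; fun_prop

@[fun_prop] theorem queriesV_PT {d : α → List ℕ} {c : α → ℤ} (hd : PT d) (hc : PT c) :
    PT (fun x => queriesV (d x) (c x)) := by
  unfold queriesV vQ; fun_prop

@[fun_prop] theorem zz_PT {P : α → ℕ} {r : α → ℚ} (hP : PT P) (hr : PT r) :
    PT (fun x => zz (P x) (r x)) := by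
  unfold zz; fun_prop

@[fun_prop] theorem combV_PT {P : α → ℕ} {ans : α → List ℚ} (hP : PT P) (ht : PT ans) :
    PT (fun x => combV (P x) (ans x)) := by
  unfold combV; fun_prop

@[fun_prop] theorem decodeV_PT {d : α → List ℕ} {c : α → ℤ} {ans : α → List ℚ} (hd : PT d)
    (hc : PT c) (ht : PT ans) : PT (fun x => decodeV (d x) (c x) (ans x)) := by
  unfold decodeV; fun_prop

end pt

theorem numV {n X M W : ℝ} (hn : 2 ≤ n) (hX : 1 ≤ X) (hM : 1 ≤ M)
    (hW : 8192 * n ^ 4 * X ^ 2 * M ^ 2 ≤ W) :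
    n ≤ W ∧ 3 * M / W ≤ 1 / 2 ∧ 4 * n * (3 * M / W) ≤ 1 ∧
      4 * n * ((9 * X * M ^ 2 + 3 * n ^ 3) / W ^ 2) ≤ 1 ∧
      W * X * (6 * n ^ 2 * (3 * M / W) ^ 2 + 4 * n * ((9 * X * M ^ 2 + 3 * n ^ 3) / W ^ 2)) ≤
        1 / 64 := by
  have n1 : 1 ≤ n := by linarith
  have a1 : n ≤ n ^ 4 := le_self_pow₀ n1 (by norm_num)
  have a2 : n ^ 2 ≤ n ^ 4 := pow_le_pow_right₀ n1 (by norm_num)
  have a3 : X ≤ X ^ 2 := le_self_pow₀ hX (by norm_num)
  have a4 : M ≤ M ^ 2 := le_self_pow₀ hM (by norm_num)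
  have b1 : n * 1 * M ≤ n ^ 4 * X ^ 2 * M ^ 2 := by gcongr; linarith
  have b2 : n * 1 ≤ n * M := by gcongr
  have b3 : 1 * M ≤ n * M := by gcongr
  have W1 : 1 ≤ W := by linarith
  have W0 : 0 < W := by linarith
  have c1 : n ^ 2 * X * M ^ 2 ≤ n ^ 4 * X ^ 2 * M ^ 2 := by gcongr
  have c2 : n * X ^ 2 * M ^ 2 ≤ n ^ 4 * X ^ 2 * M ^ 2 := by gcongr
  have c3 : n ^ 4 * X * 1 ≤ n ^ 4 * X ^ 2 * M ^ 2 := by gcongr; linarith
  have d : W * X * (6 * n ^ 2 * (3 * M / W) ^ 2 + 4 * n * ((9 * X * M ^ 2 + 3 * n ^ 3) / W ^ 2)) ≤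
      1 / 64 := by
    have : W * X * (6 * n ^ 2 * (3 * M / W) ^ 2 + 4 * n * ((9 * X * M ^ 2 + 3 * n ^ 3) / W ^ 2)) =
        (54 * (n ^ 2 * X * M ^ 2) + 36 * (n * X ^ 2 * M ^ 2) + 12 * (n ^ 4 * X)) / W := by
      field_simp
      ring
    rw [this, div_le_iff₀ W0]
    linarith
  refine ⟨by linarith, ?_, ?_, ?_, d⟩
  · rw [div_le_iff₀ W0]
    linarith
  · rw [← mul_div_assoc, div_le_iff₀ W0]
    linarith
  · have e1 : 0 ≤ 6 * n ^ 2 * (3 * M / W) ^ 2 := by positivity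
    have e2 : 0 ≤ 4 * n * ((9 * X * M ^ 2 + 3 * n ^ 3) / W ^ 2) := by positivity
    have e3 := le_mul_of_one_le_left (add_nonneg e1 e2) (one_le_mul_of_one_le_of_one_le W1 hX)
    linarith

theorem numV2 {κ W X P e y L r z : ℝ} (hκ : 0 < κ) (hP : 0 < P) (hW : 0 < W * X)
    (h1 : |L - κ * y| ≤ κ * e) (h2 : W * X * e ≤ 1 / 64) (h3 : |r - L| ≤ 1 / P)
    (h4 : |z - (r + 1) * P| ≤ 1) :
    |z - (κ * y + 1) * P| ≤ 2 + κ * P / (64 * (W * X)) := by
  have a1 : e ≤ 1 / (64 * (W * X)) := by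
    rw [le_div_iff₀ (by positivity)]
    linarith
  have a2 : |(r - L) * P| ≤ 1 := by
    rw [abs_mul, abs_of_pos hP, ← le_div_iff₀ hP]
    exact h3
  have a3 : |(L - κ * y) * P| ≤ κ * P / (64 * (W * X)) := by
    rw [abs_mul, abs_of_pos hP]
    calc _ ≤ κ * (1 / (64 * (W * X))) * P := by
          gcongr
          exact h1.trans (by gcongr)
      _ = _ := by ring
  rw [abs_le] at *
  constructor <;> linarith [a2.1, a2.2, a3.1, a3.2, h4.1, h4.2]

theorem LW_param {m : ℕ} (hm : 0 < m) {d : Fin m → ℝ} {c W M R : ℝ} (hd : ∀ j, 0 ≤ d j)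
    (hc : |c| + ∑ j, d j ≤ 3 * M) (hM : 1 ≤ M)
    (hB : 8192 * ((m : ℝ) + 1) ^ 4 * (2 ^ m) ^ 2 * M ^ 2 ≤ W) (eR : R = (4 * W) ^ (m + 1)) :
    0 ≤ LW (body (scl W R) (apex d c W)) ∧ ∃ e, W * 2 ^ m * e ≤ 1 / 64 ∧
      |LW (body (scl W R) (apex d c W)) -
        m.factorial / (m + 1) ^ m * (1 + gg d c / (W * 2 ^ (m + 1)))| ≤
        m.factorial / (m + 1) ^ m * e := by
  have m1 : (1 : ℝ) ≤ m := by exact_mod_cast hm
  obtain ⟨n1, n2, n3, n4, n5⟩ := numV (by linarith) (one_le_pow₀ one_le_two) hM hB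
  have hW : 0 < W := by linarith
  have hR : 16 * W ^ 2 ≤ R := by
    rw [eR]
    exact le_trans (le_of_eq (by ring)) (pow_le_pow_right₀ (by linarith) (Nat.succ_le_succ hm))
  have hR' : m / R ≤ m / (16 * W ^ 2) :=
    div_le_div_of_nonneg_left (by positivity) (by positivity) hR
  have hnear : Near (apex d c W) (3 * M / W) := by
    refine ⟨fun j => div_nonneg (hd j) hW.le, ?_, n2⟩
    simp only [apex, Fin.cons_zero, Fin.cons_succ, add_sub_cancel_left, abs_div, abs_of_pos hW,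
      ← Finset.sum_div, ← add_div]
    exact div_le_div_of_nonneg_right hc hW.le
  obtain ⟨l0, l1⟩ := LW_first hm hW hnear (T := W) (R := R) (τ := 1 / W) hW
    (by rw [eR]; exact one_le_pow₀ (by linarith)) (by positivity)
    (hR'.trans (by
      rw [div_div, div_le_div_iff₀ (by positivity) (by positivity)]
      nlinarith))
    (by rw [eR, div_div_eq_mul_div, div_one])
    (η := (9 * 2 ^ m * M ^ 2 + 3 * ((m : ℝ) + 1) ^ 3) / W ^ 2)
    (by
      have h1 : (m : ℝ) / (16 * W ^ 2) ≤ ((m : ℝ) + 1) ^ 3 / W ^ 2 := by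
        refine div_le_div₀ (by positivity) ?_ (by positivity) ?_
        · exact le_trans (by linarith) (le_self_pow₀ (by linarith) (by norm_num))
        · exact le_mul_of_one_le_left (by positivity) (by norm_num)
      refine le_trans (add_le_add le_rfl (add_le_add le_rfl (hR'.trans h1))) (le_of_eq ?_)
      push_cast
      ring) n4 n3
  exact ⟨l0, _, n5, l1⟩

/-- The entries of a list as integers. -/
def dz (d : List ℕ) (j : Fin d.length) : ℤ := (d.getD j 0 : ℕ)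

theorem answer_err (d : List ℕ) (c : ℤ) {c' : ℤ} (hc : |c'| ≤ |c| + vM d c + 1) {r : ℚ}
    (h : IsAnswerV (vQ d c c') r) :
    |(zz (pow2 (vP d c)) r : ℝ) - ((d.length + 1).factorial / (d.length + 2) ^ (d.length + 1) *
      (1 + gg (fun j => ((Fin.cons (vM d c : ℤ) (dz d) : Fin (d.length + 1) → ℤ) j : ℝ)) c' /
        (pow2 (vB d c) * 2 ^ (d.length + 2))) + 1) * pow2 (vP d c)| ≤
      2 + (d.length + 1).factorial / (d.length + 2) ^ (d.length + 1) * pow2 (vP d c) /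
        (64 * (pow2 (vB d c) * 2 ^ (d.length + 1))) := by
  have ed : (fun j : Fin (vM d c :: d).length => ((vM d c :: d).getD j 0 : ℝ)) =
      fun j => ((Fin.cons (vM d c : ℤ) (dz d) : Fin (d.length + 1) → ℤ) j : ℝ) := by
    funext j
    refine Fin.cases ?_ (fun j => ?_) j <;> simp [dz]
  replace h : |(r : ℝ) - LW (body (m := d.length + 1)
      (scl (pow2 (vB d c)) (pow2 (((vB d c).add ⟨2⟩).mul (vN d))))
      (apex (fun j => ((Fin.cons (vM d c : ℤ) (dz d) : Fin (d.length + 1) → ℤ) j : ℝ)) c'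
        (pow2 (vB d c))))| ≤ 1 / pow2 (vP d c) := by
    rw [← ed]
    exact isAnswerV_instV h
  have hP : (0 : ℝ) < pow2 (vP d c) := by unfold pow2; positivity
  have hW : (0 : ℝ) < pow2 (vB d c) := by unfold pow2; positivity
  have hB : 8192 * (((d.length + 1 : ℕ) : ℝ) + 1) ^ 4 * (2 ^ (d.length + 1)) ^ 2 *
      (vM d c : ℝ) ^ 2 ≤ pow2 (vB d c) := by
    have h1 : ((2048 * ((vN d).n * (vN d).n * (vN d).n * (vN d).n) * pow2 ((vN d).add (vN d)) *
      (vM d c * vM d c) : ℕ) : ℝ) ≤ pow2 (vB d c) := by exact_mod_cast (lt_two_pow_sz _).le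
    refine le_trans (le_of_eq ?_) h1
    simp only [vN, Un.add, ulen, pow2]
    push_cast
    ring
  have eR : (pow2 (((vB d c).add ⟨2⟩).mul (vN d)) : ℝ) =
      (4 * pow2 (vB d c)) ^ (d.length + 1 + 1) := by
    simp only [vN, Un.add, Un.mul, ulen, pow2]
    push_cast
    rw [pow_mul]
    congr 1
    ring
  have hs : ∑ j : Fin d.length, (dz d j : ℝ) = (d.sum : ℕ) := by
    simp only [dz, Int.cast_natCast]
    rw [← Nat.cast_sum]
    simp
  obtain ⟨l0, e, l1, l2⟩ := LW_param (m := d.length + 1) (Nat.succ_pos _) (c := c')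
    (d := fun j => ((Fin.cons (vM d c : ℤ) (dz d) : Fin (d.length + 1) → ℤ) j : ℝ))
    (fun j => by refine Fin.cases ?_ (fun j => ?_) j <;> simp [dz])
    (by
      simp only [Fin.sum_univ_succ, Fin.cons_zero, Fin.cons_succ, Int.cast_natCast, hs]
      have h1 : |(c' : ℝ)| ≤ |(c : ℝ)| + vM d c + 1 := by exact_mod_cast hc
      have h2 : (vM d c : ℝ) = |(c : ℝ)| + (d.sum : ℕ) + 1 := by
        rw [vM, Nat.cast_add, Nat.cast_add, Nat.cast_natAbs, Int.cast_abs, Nat.cast_one]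
      linarith)
    (by exact_mod_cast Nat.le_add_left 1 _) hB eR
  have h7 : (1 : ℝ) / pow2 (vP d c) ≤ 1 := by
    rw [div_le_one hP]
    exact_mod_cast Nat.one_le_two_pow
  have h8 := zz_spec (pow2 (vP d c)) (r := r) (by
    have : (-1 : ℝ) ≤ r := by linarith [(abs_le.1 h).1]
    exact_mod_cast this)
  have := numV2 (by positivity) hP (by positivity) l2 l1 h h8
  simpa only [Nat.succ_eq_add_one, Nat.cast_add, Nat.cast_one, add_assoc, one_add_one_eq_two]
    using this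

theorem numV3 {κ P Y N e z0 z1 z2 z3 z4 z5 g0 g1 g2 g3 g4 g5 : ℝ}
    (h0 : |z0 - (κ * (1 + g0 / Y) + 1) * P| ≤ e) (h1 : |z1 - (κ * (1 + g1 / Y) + 1) * P| ≤ e)
    (h2 : |z2 - (κ * (1 + g2 / Y) + 1) * P| ≤ e) (h3 : |z3 - (κ * (1 + g3 / Y) + 1) * P| ≤ e)
    (h4 : |z4 - (κ * (1 + g4 / Y) + 1) * P| ≤ e) (h5 : |z5 - (κ * (1 + g5 / Y) + 1) * P| ≤ e)
    (h : (g0 - 2 * g1 + g2) - (g3 - 2 * g4 + g5) = 2 * N) :
    |(z0 - 2 * z1 + z2) - (z3 - 2 * z4 + z5) - κ * P / Y * (2 * N)| ≤ 8 * e := by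
  rw [← h]
  have e : ∀ g, (κ * (1 + g / Y) + 1) * P = (κ + 1) * P + κ * P / Y * g := fun g => by ring
  rw [e, abs_le] at h0 h1 h2 h3 h4 h5
  rw [abs_le]
  constructor <;> linarith [h0.1, h0.2, h1.1, h1.2, h2.1, h2.2, h3.1, h3.2, h4.1, h4.2, h5.1, h5.2]

theorem numV4 {f q W X P C N : ℝ} (hf : 1 ≤ f) (hq : 0 < q) (hW : 0 < W) (hX : 0 < X) (hN : 0 ≤ N)
    (hP : 64 * (W * (X * 2) * q) ≤ P)
    (h : |C - f / q * P / (W * (X * 2)) * (2 * N)| ≤ 8 * (2 + f / q * P / (64 * (W * X)))) :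
    |(|C| * (W * (X * 2) * q)) - 2 * P * f * N| < 2 * P * f / 2 := by
  have K0 : 0 < W * (X * 2) * q := by positivity
  have P0 : 0 < P := by linarith
  have h1 := (abs_abs_sub_abs_le _ _).trans h
  rw [abs_of_nonneg (a := f / q * P / (W * (X * 2)) * (2 * N)) (by positivity)] at h1
  have h2 := mul_le_mul_of_nonneg_right h1 K0.le
  have e1 : |C| * (W * (X * 2) * q) - 2 * P * f * N =
      (|C| - f / q * P / (W * (X * 2)) * (2 * N)) * (W * (X * 2) * q) := by
    field_simp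
  have e2 : 8 * (2 + f / q * P / (64 * (W * X))) * (W * (X * 2) * q) =
      16 * (W * (X * 2) * q) + P * f / 4 := by
    field_simp
    ring
  rw [e1, abs_mul, abs_of_pos K0]
  rw [e2] at h2
  have := le_mul_of_one_le_right P0.le hf
  linarith

theorem recoverV (d : List ℕ) (c : ℤ) :
    (∀ I ∈ queriesV d c, ValidV I) ∧ ∀ ans, List.Forall₂ IsAnswerV (queriesV d c) ans →
      (decodeV d c ans : ℤ) = ∑ σ : Fin d.length → Bool,
        if c + dotZ σ (dz d) = 0 then 1 else 0 := by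
  refine ⟨fun I hI => ?_, fun ans hans => ?_⟩
  · obtain ⟨c', -, rfl⟩ := List.mem_map.1 hI
    exact validV_instV (by simp) _ _ _ _
  simp only [queriesV, List.map_cons, List.map_nil, List.forall₂_cons_left_iff,
    List.forall₂_nil_left_iff] at hans
  obtain ⟨r0, _, h0, ⟨r1, _, h1, ⟨r2, _, h2, ⟨r3, _, h3, ⟨r4, _, h4, ⟨r5, _, h5, rfl, rfl⟩, rfl⟩,
    rfl⟩, rfl⟩, rfl⟩, rfl⟩ := hans
  have a := abs_le.1 (le_refl |c|)
  have hM0 : (0 : ℤ) ≤ vM d c := Int.natCast_nonneg _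
  have b0 := answer_err d c (abs_le.2 ⟨by linarith, by linarith⟩) h0
  have b1 := answer_err d c (abs_le.2 ⟨by linarith, by linarith⟩) h1
  have b2 := answer_err d c (abs_le.2 ⟨by linarith, by linarith⟩) h2
  have b3 := answer_err d c (abs_le.2 ⟨by linarith, by linarith⟩) h3
  have b4 := answer_err d c (abs_le.2 ⟨by linarith, by linarith⟩) h4
  have b5 := answer_err d c (abs_le.2 ⟨by linarith, by linarith⟩) h5
  have hg := gg_count (dz d) c (vM d c) (by
    have : ∑ j : Fin d.length, |dz d j| = (d.sum : ℕ) := by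
      simp only [dz, Nat.abs_cast]
      rw [← Nat.cast_sum]
      simp
    rw [this]
    simp [vM])
  push_cast at b0 b1 b2 b3 b4 b5 hg
  have b := numV3 b0 b1 b2 b3 b4 b5 hg
  rw [Finset.sum_boole] at b ⊢
  congr 1
  refine round_eq ?_
  have hK : (vK d c : ℝ) = pow2 (vB d c) * (2 ^ (d.length + 1) * 2) *
      (d.length + 2) ^ (d.length + 1) := by
    simp [vK, vN, Un.add, ulen, pow2, pow_succ]
    ring
  have hP : ((64 * vK d c : ℕ) : ℝ) ≤ pow2 (vP d c) := by exact_mod_cast (lt_two_pow_sz _).le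
  rw [Nat.cast_mul, hK] at hP
  rw [pow_succ (2 : ℝ) (d.length + 1)] at b
  have := numV4 (by exact_mod_cast Nat.factorial_pos _) (by positivity)
    (by unfold pow2; positivity) (by positivity) (Nat.cast_nonneg _) hP b
  simpa [combV, hK, ufact, ulen, Nat.cast_natAbs] using this

theorem signs_cons (x : ℕ) (l : List ℕ) (g : ℤ → ℤ) :
    ∑ σ : Fin (x :: l).length → Bool, g (dotZ σ (dz (x :: l))) =
      ∑ σ : Fin l.length → Bool, g (dotZ σ (dz l) + x) +
        ∑ σ : Fin l.length → Bool, g (dotZ σ (dz l) - x) := by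
  refine (sum_cons_bool (m := l.length) _).trans ?_
  congr 1 <;> refine Finset.sum_congr rfl fun σ _ => congrArg g ?_ <;>
    simp [dotZ, dz, Fin.sum_univ_succ, add_comm, sub_eq_add_neg]

/-- The weights attached to a list of pairs. -/
def wtsV (ps : List (ℕ × ℕ)) : List ℕ := ps.map fun p => p.1 - p.2 + (p.2 - p.1)

theorem Cho_signs : ∀ (ps : List (ℕ × ℕ)) (g : ℤ → ℤ),
    Cho ps (fun s => g (2 * s - ((ps.map fun p => p.1 + p.2).sum : ℕ))) =
      ∑ σ : Fin (wtsV ps).length → Bool, g (dotZ σ (dz (wtsV ps)))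
  | [], g => by
    change _ = ∑ σ : Fin 0 → Bool, g (dotZ σ _)
    simp [Cho, dotZ]
  | p :: ps, g => by
    have e1 := Cho_signs ps fun x => g (x + (p.1 - p.2))
    have e2 := Cho_signs ps fun x => g (x - (p.1 - p.2))
    refine Eq.trans ?_ (signs_cons (p.1 - p.2 + (p.2 - p.1)) (wtsV ps) g).symm
    simp only [Cho, List.map_cons, List.sum_cons]
    have f1 : (fun s : ℕ => g (2 * ((s + p.1 : ℕ) : ℤ) -
        ((p.1 + p.2 + (ps.map fun p => p.1 + p.2).sum : ℕ) : ℤ))) =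
        fun s : ℕ => g (2 * s - ((ps.map fun p => p.1 + p.2).sum : ℕ) + (p.1 - p.2)) := by
      funext s
      congr 1
      omega
    have f2 : (fun s : ℕ => g (2 * ((s + p.2 : ℕ) : ℤ) -
        ((p.1 + p.2 + (ps.map fun p => p.1 + p.2).sum : ℕ) : ℤ))) =
        fun s : ℕ => g (2 * s - ((ps.map fun p => p.1 + p.2).sum : ℕ) - (p.1 - p.2)) := by
      funext s
      congr 1
      omega
    rw [f1, f2, e1, e2]
    rcases le_total p.1 p.2 with h | h
    · rw [add_comm, show ((p.1 - p.2 + (p.2 - p.1) : ℕ) : ℤ) = -(p.1 - p.2) by omega]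
      simp only [sub_neg_eq_add, ← sub_eq_add_neg]
    · rw [show ((p.1 - p.2 + (p.2 - p.1) : ℕ) : ℤ) = p.1 - p.2 by omega]

/-- The offset attached to a list of pairs and a target. -/
def offV (ps : List (ℕ × ℕ)) (t : ℕ) : ℤ := ((ps.map fun p => p.1 + p.2).sum : ℕ) - 2 * (t : ℤ)

@[fun_prop] theorem wtsV_PT {α : Type} [N487b59b3 α] {a : α → List (ℕ × ℕ)} (ha : PT a) :
    PT (fun x => wtsV (a x)) := by
  unfold wtsV; fun_prop

@[fun_prop] theorem offV_PT {α : Type} [N487b59b3 α] {a : α → List (ℕ × ℕ)} {t : α → ℕ}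
    (ha : PT a) (ht : PT t) : PT (fun x => offV (a x) (t x)) := by
  unfold offV; fun_prop

open Classical in
theorem signs_count {V : List Var} (hV : V.Nodup) {φ : List Clause}
    (h : ∀ C ∈ φ, ∀ l ∈ C, l.1 ∈ V) :
    (∑ σ : Fin (wtsV (pairs V φ)).length → Bool, if offV (pairs V φ) (tgt (uK φ) φ) +
      dotZ σ (dz (wtsV (pairs V φ))) = 0 then 1 else 0 : ℤ) =
      (V.toFinset.powerset.filter (fun U => ∀ C ∈ φ, Sat (fun v => decide (v ∈ U)) C)).card := by
  refine (Cho_signs (pairs V φ) fun x =>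
    if offV (pairs V φ) (tgt (uK φ) φ) + x = 0 then 1 else 0).symm.trans ?_
  have e : (fun s : ℕ => if offV (pairs V φ) (tgt (uK φ) φ) +
      (2 * s - (((pairs V φ).map fun p => p.1 + p.2).sum : ℕ)) = 0 then (1 : ℤ) else 0) =
      fun s => if s = tgt (uK φ) φ then 1 else 0 := by
    funext s
    refine if_congr ?_ rfl rfl
    unfold offV
    omega
  rw [e, pairs, Cho_append, Cho_vars (fun v b => wt (uK φ) φ (v, b)) V hV,
    Finset.sum_congr rfl (fun U _ => Cho_slk (K := uK φ) (fun v => decide (v ∈ U)) φ (fun C hC =>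
      ⟨Nat.lt_succ_of_le (List.Sublist.length_le (List.sublist_flatten_of_mem
        (List.mem_map.2 ⟨C, hC, rfl⟩))), fun l hl => List.mem_toFinset.2 (h C hC l hl)⟩)),
    Finset.sum_boole]

end Pool.Agent.Lib.MP_4bb67e_lc
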