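import Pool.Agent.Lib.MP_4bb67e_lc.Defs

/-!
Fubini's theorem along a direction and bounds for the volume of projections.
-/

set_option autoImplicit false

namespace Pool.Agent.Lib.MP_4bb67e_lc

open MeasureTheory Set Function

/-- Euclidean space. -/
abbrev E (n : ℕ) : Type := EuclideanSpace ℝ (Fin n)

theorem vol_eq_lintegral {n : ℕ} {u : E n} (hu : ‖u‖ = 1) {S : Set (Fin n → ℝ)}
    (hS : MeasurableSet S) :
    volume S = ∫⁻ q : (ℝ ∙ u)ᗮ, volume {t : ℝ | (q : E n).ofLp + t • u.ofLp ∈ S} := by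
  have h1 : MeasurePreserving (fun p : ℝ × (ℝ ∙ u)ᗮ => (p.2 : E n).ofLp + p.1 • u.ofLp) := by
    have a := (LinearIsometryEquiv.toSpanUnitSingleton u hu).measurePreserving.prod
      (MeasurePreserving.id (volume : Measure (ℝ ∙ u)ᗮ))
    have b := WithLp.volume_preserving_toLp (ℝ ∙ u) (ℝ ∙ u)ᗮ
    have c := (ℝ ∙ u).orthogonalDecomposition.symm.measurePreserving
    have d := PiLp.volume_preserving_ofLp (Fin n)
    have e := d.comp (c.comp (b.comp a))
    refine e.congr (by fun_prop) (Filter.Eventually.of_forall fun p => ?_)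
    simp [add_comm]
  rw [← h1.measure_preimage hS.nullMeasurableSet, Measure.volume_eq_prod,
    Measure.prod_apply_symm (h1.measurable hS)]
  rfl

theorem proj_eq {n : ℕ} {u : E n} (q : (ℝ ∙ u)ᗮ) (t : ℝ) :
    (ℝ ∙ u)ᗮ.orthogonalProjectionOnto (WithLp.toLp 2 ((q : E n).ofLp + t • u.ofLp)) = q := by
  have : WithLp.toLp 2 ((q : E n).ofLp + t • u.ofLp) = (q : E n) + t • u := rfl
  rw [this, map_add, map_smul,
    Submodule.orthogonalProjectionOnto_orthogonalComplement_singleton_eq_zero]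
  simp

/-- The part of the open unit cube lying over the slice `x j = c` of `K`. -/
def prism {n : ℕ} (K : Set (Fin n → ℝ)) (j : Fin n) (c : ℝ) : Set (Fin n → ℝ) :=
  {x | (∀ i, x i ∈ Ioo (0 : ℝ) 1) ∧ update x j c ∈ K}

theorem measurableSet_prism {n : ℕ} {K : Set (Fin n → ℝ)} (hK : MeasurableSet K) (j : Fin n)
    (c : ℝ) : MeasurableSet (prism K j c) := by
  have h1 : Measurable (fun x : Fin n → ℝ => update x j c) := by fun_prop
  refine MeasurableSet.inter (s₁ := {x : Fin n → ℝ | ∀ i, x i ∈ Ioo (0 : ℝ) 1}) ?_ (h1 hK)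
  rw [ofPred_forall]
  exact MeasurableSet.iInter fun i => measurable_pi_apply i measurableSet_Ioo

/-- The face through which a line of direction `v` enters the cube. -/
noncomputable def side (a : ℝ) : ℝ := if 0 < a then 0 else 1

theorem entry_le {n : ℕ} {v x x' : Fin n → ℝ} {j j' : Fin n} (hj' : v j' ≠ 0)
    (hx : ∀ i, x i ∈ Ioo (0 : ℝ) 1) {τ : ℝ}
    (h : update x' j' (side (v j')) = update x j (side (v j)) + τ • v) : τ ≤ 0 := by
  by_contra hτ
  push Not at hτ
  have h1 := congrFun h j'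
  simp only [update_self, Pi.add_apply, Pi.smul_apply, smul_eq_mul] at h1
  by_cases e : j' = j
  · subst e
    rw [update_self] at h1
    exact mul_ne_zero hτ.ne' hj' (by linarith)
  · rw [update_of_ne e] at h1
    have h2 := hx j'
    unfold side at h1
    split_ifs at h1 with h3
    · nlinarith [h2.1, mul_pos hτ h3]
    · have : v j' < 0 := lt_of_le_of_ne (not_lt.1 h3) hj'
      nlinarith [h2.2, mul_pos hτ (neg_pos.2 this)]

theorem entry {n : ℕ} {v x x' : Fin n → ℝ} {j j' : Fin n} (hj : v j ≠ 0) (hj' : v j' ≠ 0)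
    (hx : ∀ i, x i ∈ Ioo (0 : ℝ) 1) (hx' : ∀ i, x' i ∈ Ioo (0 : ℝ) 1) {τ : ℝ}
    (h : update x' j' (side (v j')) = update x j (side (v j)) + τ • v) : τ = 0 ∧ j = j' := by
  have h1 := entry_le hj' hx h
  have h2 := entry_le (x := x') (x' := x) (j := j') (τ := -τ) hj hx' (by rw [h]; simp)
  have h3 : τ = 0 := by linarith
  refine ⟨h3, ?_⟩
  by_contra e
  have h4 := congrFun h j'
  simp only [update_self, h3, zero_smul, add_zero, update_of_ne (Ne.symm e)] at h4
  have h5 := hx j'
  unfold side at h4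
  split_ifs at h4 <;> linarith [h5.1, h5.2]

/-- The shear sending the direction `e j` to `v`. -/
def shear {n : ℕ} (v : Fin n → ℝ) (j : Fin n) (c : ℝ) (x : Fin n → ℝ) : Fin n → ℝ :=
  update x j c + x j • v

theorem vol_shear {n : ℕ} (v : Fin n → ℝ) (j : Fin n) (c : ℝ) (S : Set (Fin n → ℝ)) :
    volume (shear v j c '' S) = ENNReal.ofReal |v j| * volume S := by
  have h1 : shear v j c = (fun x => x + Pi.single j c) ∘
      Matrix.toLin' ((1 : Matrix (Fin n) (Fin n) ℝ).updateCol j v) := by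
    funext x i
    simp only [shear, comp, Matrix.toLin'_apply, Pi.add_apply, Pi.smul_apply, smul_eq_mul,
      Matrix.mulVec, dotProduct]
    rw [← Finset.add_sum_erase _ _ (Finset.mem_univ j), Matrix.updateCol_self,
      Finset.sum_congr rfl (g := fun k => if i = k then x k else 0) (fun k hk => by
        rw [Matrix.updateCol_ne (Finset.ne_of_mem_erase hk), Matrix.one_apply]
        split_ifs <;> simp)]
    by_cases e : i = j
    · subst e; simp; ring
    · simp [e]; ring
  have h2 : ((1 : Matrix (Fin n) (Fin n) ℝ).updateCol j v).det = v j := by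
    rw [← Matrix.cramer_apply, Matrix.cramer_one]; rfl
  rw [h1, image_comp, image_add_right, measure_preimage_add_right,
    Measure.addHaar_image_linearMap, LinearMap.det_toLin', h2]

theorem shear_inj {n : ℕ} {v : Fin n → ℝ} {j : Fin n} (hj : v j ≠ 0) (c : ℝ) :
    Injective (shear v j c) := by
  intro x y h
  have h1 := congrFun h j
  simp only [shear, Pi.add_apply, update_self, Pi.smul_apply, smul_eq_mul, add_right_inj] at h1
  have h2 := mul_right_cancel₀ hj h1
  funext i
  by_cases e : i = j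
  · rw [e, h2]
  · have h3 := congrFun h i
    simpa [shear, update_of_ne e, h2] using h3

theorem proj_lower {n : ℕ} {u : E n} (hu : ‖u‖ = 1) {s : ℝ} (hs : s = 1 ∨ s = -1)
    {K : Set (Fin n → ℝ)} (hK : MeasurableSet K) :
    ∑ j, ENNReal.ofReal |u j| * volume (prism K j (side (s * u j))) ≤
      volume ((ℝ ∙ u)ᗮ.orthogonalProjectionOnto '' (WithLp.ofLp ⁻¹' K)) := by
  classical
  let v : Fin n → ℝ := s • u.ofLp
  have hv : ∀ j, |v j| = |u j| := fun j => by rcases hs with rfl | rfl <;> simp [v]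
  have huv : u.ofLp = s • v := by rcases hs with rfl | rfl <;> simp [v]
  let S : Fin n → Set (Fin n → ℝ) := fun j =>
    shear v j (side (v j)) '' prism K j (side (v j))
  let J := Finset.univ.filter (fun j => v j ≠ 0)
  have hJ : ∀ j ∈ J, v j ≠ 0 := fun j hj => (Finset.mem_filter.1 hj).2
  have hm : ∀ j ∈ J, MeasurableSet (S j) := fun j hj =>
    (measurableSet_prism hK j _).image_of_continuousOn_injOn
      (Continuous.continuousOn (by unfold shear; fun_prop)) (shear_inj (hJ j hj) _).injOn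
  have h1 : ∑ j, ENNReal.ofReal |u j| * volume (prism K j (side (s * u j))) =
      ∑ j ∈ J, volume (S j) := by
    rw [Finset.sum_filter]
    refine Finset.sum_congr rfl (fun j _ => ?_)
    split_ifs with h
    · rw [vol_shear, hv]; rfl
    · push Not at h
      rw [← hv, h]; simp
  have h2 : (J : Set (Fin n)).PairwiseDisjoint S := by
    intro j hj j' hj' hne
    refine Set.disjoint_left.2 ?_
    rintro _ ⟨x, hx, rfl⟩ ⟨x', hx', h⟩
    refine hne (entry (τ := x j - x' j') (hJ j hj) (hJ j' hj') hx.1 hx'.1 ?_).2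
    rw [sub_smul, ← add_sub_assoc]
    exact eq_sub_of_add_eq h
  rw [h1, ← measure_biUnion_finset h2 hm, vol_eq_lintegral hu (Finset.measurableSet_biUnion J hm)]
  refine le_trans (lintegral_mono fun q => ?_) (lintegral_indicator_one_le _)
  rcases eq_empty_or_nonempty {t : ℝ | (q : E n).ofLp + t • u.ofLp ∈ ⋃ j ∈ J, S j} with h | ⟨t₀, h⟩
  · rw [h]; simp
  simp only [mem_ofPred_eq, mem_iUnion] at h
  obtain ⟨j₀, hj₀, x₀, hx₀, h₀⟩ := h
  have hq : q ∈ (ℝ ∙ u)ᗮ.orthogonalProjectionOnto '' (WithLp.ofLp ⁻¹' K) := by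
    refine ⟨_, ?_, proj_eq q (t₀ - x₀ j₀ * s)⟩
    have : (q : E n).ofLp + (t₀ - x₀ j₀ * s) • u.ofLp = update x₀ j₀ (side (v j₀)) := by
      rw [sub_smul, ← add_sub_assoc, ← h₀, shear, mul_smul]
      exact add_sub_cancel_right _ _
    rw [mem_preimage, this]
    exact hx₀.2
  rw [indicator_of_mem hq]
  have h3 : {t : ℝ | (q : E n).ofLp + t • u.ofLp ∈ ⋃ j ∈ J, S j} ⊆
      Ioo (t₀ - s * x₀ j₀ + (s - 1) / 2) (t₀ - s * x₀ j₀ + (s - 1) / 2 + 1) := by
    intro t ht
    simp only [mem_ofPred_eq, mem_iUnion] at ht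
    obtain ⟨j, hj, x, hx, h⟩ := ht
    have h4 := (entry (τ := (t - t₀) * s - x j + x₀ j₀) (hJ j₀ hj₀) (hJ j hj) hx₀.1 hx.1 (by
      have e1 := eq_sub_of_add_eq h
      have e2 := eq_sub_of_add_eq h₀
      rw [e1, e2, huv]
      module)).1
    have h5 := hx.1 j
    rcases hs with rfl | rfl <;> constructor <;> linarith [h5.1, h5.2]
  refine (measure_mono h3).trans ?_
  simp

theorem proj_upper {n : ℕ} (j : Fin n) {K : Set (Fin n → ℝ)} (hK : IsCompact K)
    (h1 : K ⊆ Icc 0 1) (h2 : ∀ x ∈ K, update x j 0 ∈ K) :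
    volume ((ℝ ∙ EuclideanSpace.single j (1 : ℝ))ᗮ.orthogonalProjectionOnto ''
      (WithLp.ofLp ⁻¹' K)) ≤ volume (prism K j 0) := by
  have hm : Measurable (fun x : Fin n → ℝ => update x j 0) := by fun_prop
  have hS : MeasurableSet {x : Fin n → ℝ | x j ∈ Ioo (0 : ℝ) 1 ∧ update x j 0 ∈ K} :=
    (measurable_pi_apply j measurableSet_Ioo).inter (hm hK.measurableSet)
  have hc : IsCompact (WithLp.ofLp ⁻¹' K : Set (E n)) :=
    (PiLp.homeomorph 2 (fun _ : Fin n => ℝ)).isCompact_preimage.2 hK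
  have h3 : volume {x : Fin n → ℝ | x j ∈ Ioo (0 : ℝ) 1 ∧ update x j 0 ∈ K} ≤
      volume (prism K j 0) := by
    refine measure_mono_ae ?_
    have a0 : ∀ᵐ x : Fin n → ℝ, ∀ i, x i ≠ 0 :=
      ae_all_iff.2 fun i => Measure.ae_eval_ne _ i 0
    have a1 : ∀ᵐ x : Fin n → ℝ, ∀ i, x i ≠ 1 :=
      ae_all_iff.2 fun i => Measure.ae_eval_ne _ i 1
    filter_upwards [a0, a1] with x b0 b1 hx
    refine ⟨fun i => ?_, hx.2⟩
    by_cases e : i = j
    · rw [e]; exact hx.1
    · have c0 := (h1 hx.2).1 i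
      have c1 := (h1 hx.2).2 i
      rw [update_of_ne e] at c0 c1
      exact ⟨lt_of_le_of_ne c0 (b0 i).symm, lt_of_le_of_ne c1 (b1 i)⟩
  refine le_trans ?_ h3
  rw [vol_eq_lintegral (u := EuclideanSpace.single j (1 : ℝ)) (by simp) hS,
    ← lintegral_indicator_one (hc.image (ContinuousLinearMap.continuous _)).measurableSet]
  refine lintegral_mono fun q => ?_
  by_cases hq : q ∈ (ℝ ∙ EuclideanSpace.single j (1 : ℝ))ᗮ.orthogonalProjectionOnto ''
      (WithLp.ofLp ⁻¹' K)
  swap
  · rw [indicator_of_notMem hq]; exact zero_le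
  rw [indicator_of_mem hq]
  obtain ⟨y, hy, hyq⟩ := hq
  have hq0 : (q : E n) j = 0 := by
    have := Submodule.mem_orthogonal_singleton_iff_inner_right.1 q.2
    simpa [EuclideanSpace.inner_single_left] using this
  have hq1 : (q : E n).ofLp = update y.ofLp j 0 := by
    have e := proj_eq (u := EuclideanSpace.single j (1 : ℝ))
      ⟨WithLp.toLp 2 (update y.ofLp j 0), Submodule.mem_orthogonal_singleton_iff_inner_right.2
        (by simp [EuclideanSpace.inner_single_left])⟩ (y j)
    have e2 : WithLp.toLp 2 (update y.ofLp j 0 +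
        y j • (EuclideanSpace.single j (1 : ℝ)).ofLp) = y := by
      ext i
      by_cases h : i = j
      · subst h; simp
      · simp [h]
    simp only at e
    rw [e2, hyq] at e
    rw [e]
  have h4 : Ioo (0 : ℝ) 1 ⊆ {t : ℝ | (q : E n).ofLp + t • (EuclideanSpace.single j (1 : ℝ)).ofLp ∈
      {x : Fin n → ℝ | x j ∈ Ioo (0 : ℝ) 1 ∧ update x j 0 ∈ K}} := by
    intro t ht
    refine ⟨by simpa [hq0] using ht, ?_⟩
    have : update ((q : E n).ofLp + t • (EuclideanSpace.single j (1 : ℝ)).ofLp) j 0 =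
        update y.ofLp j 0 := by
      funext i
      by_cases h : i = j
      · subst h; simp
      · simp [h, hq1]
    rw [this]
    exact h2 _ hy
  refine le_trans ?_ (measure_mono h4)
  simp

end Pool.Agent.Lib.MP_4bb67e_lc
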